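import Mathlib

/-!
# Project FP (MP_0f6f3f_an): covariant finitely additive measures (definition and first facts)

`CovP u`: a positive unital covariant map from the bounded functions on `F` to the operators on `U`, given on indicator functions: `P D ≥ 0`, `P univ = 1`, additive, `u f (P D) (u f)⁻¹ = P (f D)`.
-/

set_option autoImplicit false

open scoped ComplexConjugate

namespace Pool.Agent.Helper55.FP

/-- The left translate `f D`. -/
def lt {F : Type*} [Group F] (f : F) (D : Set F) : Set F := {g | f⁻¹ * g ∈ D}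

theorem mem_lt {F : Type*} [Group F] {f g : F} {D : Set F} : g ∈ lt f D ↔ f⁻¹ * g ∈ D := Iff.rfl

/-- A covariant finitely additive positive operator valued measure of mass one on the subsets of `F`. -/
structure CovP {F U : Type*} [Group F] [NormedAddCommGroup U] [InnerProductSpace ℂ U]
    (u : F →* (U ≃ₗᵢ[ℂ] U)) where
  /-- the measure -/
  P : Set F → (U →L[ℂ] U)
  symm : ∀ D x y, inner ℂ (P D x) y = inner ℂ x (P D y)
  nonneg : ∀ D x, 0 ≤ (inner ℂ x (P D x) : ℂ).re
  univ : ∀ x, P Set.univ x = x
  union : ∀ D D', Disjoint D D' → ∀ x, P (D ∪ D') x = P D x + P D' x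
  cov : ∀ f D x, u f (P D x) = P (lt f D) (u f x)

namespace CovP

variable {F U : Type*} [Group F] [NormedAddCommGroup U] [InnerProductSpace ℂ U]
  {u : F →* (U ≃ₗᵢ[ℂ] U)} (C : CovP u)

include C

theorem empty (x : U) : C.P ∅ x = 0 := by
  have h := C.union ∅ ∅ (Set.disjoint_empty _) x
  rw [Set.union_empty] at h
  exact left_eq_add.1 h

theorem compl (D : Set F) (x : U) : C.P D x + C.P Dᶜ x = x := by
  rw [← C.union D Dᶜ disjoint_compl_right, Set.union_compl_self, C.univ]

theorem mono {D D' : Set F} (h : D ⊆ D') (x : U) :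
    (inner ℂ x (C.P D x) : ℂ).re ≤ (inner ℂ x (C.P D' x) : ℂ).re := by
  have h1 : D ∪ D' \ D = D' := Set.union_sdiff_cancel h
  have h2 := C.union D (D' \ D) Set.disjoint_sdiff_right x
  rw [h1] at h2
  rw [h2, inner_add_right, Complex.add_re]
  linarith [C.nonneg (D' \ D) x]

end CovP

end Pool.Agent.Helper55.FP
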