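import Pool.Agent.Helper84.FR.FX
import Pool.Agent.Helper35.FP.MM
import Pool.Agent.Helper55.FP.Cov

/-!
# Project FP (MP_0f6f3f_an): the transfer, definitions over the boundary data

`Src B`: a group `F` with a homomorphism `j : F → S'`, the source projections `p` of `H`, the cocycle `a` with values in `Λ`, `E : Emb Λ G`, the bounded unit vector `η` with `V (j f) (R f η) = η`, and an isometry `J` of `H` into a multiple of an
induced space. `Tmp ρ`: an equivariant module structure of `ρ` over the bounded continuous functions on `𝕊`. `Amn B s`: amenability of the action of `G` on `𝔾 / ker nb`.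
-/

set_option autoImplicit false

open Filter Topology MeasureTheory

namespace Pool.Agent.Helper55.FP

open Pool.Agent.Helper84.NI Pool.Agent.Helper84.GVN Pool.Agent.Helper84.FR
open Pool.Agent.Helper35.FP (BD Geo Rp)

variable {𝔾 𝕊 : Type} [Group 𝔾] [TopologicalSpace 𝔾] [Group 𝕊] [TopologicalSpace 𝕊]
  {𝕂 : Subgroup 𝕊} {geo : Geo 𝔾 𝕊 𝕂} {G S' H U : Type} [Group G] [Group S'] [TopologicalSpace S']
  [NormedAddCommGroup H] [InnerProductSpace ℂ H] [CompleteSpace H]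
  [NormedAddCommGroup U] [InnerProductSpace ℂ U] [CompleteSpace U]

/-- The source data. -/
structure Src (B : BD geo G S' H U) (F X Λ L0 Y : Type) [Group F] [MulAction F X] [MeasurableSpace X]
    [MeasurableConstSMul F X] [Group Λ] [Countable Λ] [NormedAddCommGroup L0] [InnerProductSpace ℂ L0] [CompleteSpace L0] where
  /-- the homomorphism -/
  j : F →* S'
  /-- the cocycle -/
  a : Cocy F X Λ
  /-- the embedding of the group algebras -/
  E : Emb Λ G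
  /-- the source projections -/
  p : PV X H
  p_W : ∀ (k : G) (D : Set X), MeasurableSet D → ∀ x, B.W k (p.p D x) = p.p D (B.W k x)
  p_V : ∀ (f : F) (D : Set X), MeasurableSet D → ∀ x,
    B.V (j f) (p.p D x) = p.p ((fun x => f⁻¹ • x) ⁻¹' D) (B.V (j f) x)
  p_CC : ∀ D : Set X, MeasurableSet D → ∃ c ∈ B.CC, ∀ x, c.1 x = x - (2 : ℂ) • p.p D x
  /-- the vector -/
  η : H
  η1 : ‖η‖ = 1
  /-- the measure -/
  ν : Measure X
  bdd : ∀ D : Set X, MeasurableSet D → Bdd B.W (Real.sqrt (ν D).toReal) (p.p D η)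
  fix : ∀ f : F, B.V (j f) (tw p (CRep.ext B.W E.conj) (a.a f) η) = η
  /-- the induced space -/
  I0 : Imp F X L0
  /-- the isometry -/
  J : H →ₗᵢ[ℂ] Lv Y L0
  JV : ∀ (f : F) (x : H) (y : Y), J (B.V (j f) x) y = I0.V f (J x y)
  JP : ∀ D : Set X, MeasurableSet D → ∀ (x : H) (y : Y), J (p.p D x) y = I0.P0.p D (J x y)

/-- Bounded continuous real functions. -/
def BC {S : Type} [TopologicalSpace S] (f : S → ℝ) : Prop := Continuous f ∧ ∃ C : ℝ, ∀ h, |f h| ≤ C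

/-- An equivariant module structure over the bounded continuous functions on `𝕊`. -/
structure Tmp {L : Type} [NormedAddCommGroup L] [InnerProductSpace ℂ L] (ρ : Rp 𝕊 L) where
  /-- multiplication by functions -/
  m : (𝕊 → ℝ) → (L →L[ℂ] L)
  one : ∀ x, m (fun _ => 1) x = x
  add : ∀ f f' : 𝕊 → ℝ, BC f → BC f' → ∀ x, m (fun h => f h + f' h) x = m f x + m f' x
  smul : ∀ (c : ℝ) (f : 𝕊 → ℝ), BC f → ∀ x, m (fun h => c * f h) x = (c : ℂ) • m f x
  mul : ∀ f f' : 𝕊 → ℝ, BC f → BC f' → ∀ x, m (fun h => f h * f' h) x = m f (m f' x)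
  symm : ∀ f : 𝕊 → ℝ, BC f → ∀ x y, (inner ℂ (m f x) y : ℂ) = inner ℂ x (m f y)
  pos : ∀ f : 𝕊 → ℝ, BC f → (∀ h, 0 ≤ f h) → ∀ x, 0 ≤ (inner ℂ x (m f x) : ℂ).re
  cov : ∀ (h : 𝕊) (f : 𝕊 → ℝ), BC f → ∀ x, ρ.U h (m f x) = m (fun s => f (h⁻¹ * s)) (ρ.U h x)
  tight : ∀ (x : L) (ε C : ℝ), 0 < ε → ∃ (K : Set 𝕊) (δ : ℝ), IsCompact K ∧ 0 < δ ∧
    ∀ f : 𝕊 → ℝ, Continuous f → (∀ h, |f h| ≤ C) → (∀ h ∈ K, |f h| ≤ δ) → ‖m f x‖ ≤ ε

/-- Amenability of the action of `G` on `𝔾 / ker nb`: square roots of almost equivariant densities. -/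
def Amn (B : BD geo G S' H U) : Prop :=
  ∀ (Q : Finset G) (ε : ℝ), 0 < ε → ∃ (S : Finset G) (p : G → 𝔾 → ℝ),
    (∀ t, Continuous (p t)) ∧ (∀ t g, 0 ≤ p t g) ∧ (∀ t, t ∉ S → ∀ g, p t g = 0) ∧
    (∀ g, ∑ t ∈ S, p t g ^ 2 = 1) ∧ (∀ t g (q : geo.Q), geo.nb q = 1 → p t (g * q) = p t g) ∧
    ∀ h ∈ Q, ∀ g, ∀ S' : Finset G, ∑ t ∈ S', (p t (B.ir h * g) - p (h⁻¹ * t) g) ^ 2 ≤ ε ^ 2

end Pool.Agent.Helper55.FP
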