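import Pool.Agent.Helper84.FR.FX
import Pool.Agent.Helper90.RK.NonAmDef

/-!
# Project FP (MP_0f6f3f_an): a spectral gap from amenable multipliers

`finalX_apx` is the theorem `finalX` of `Helper84/FR/FX.lean` with almost invariant instead of invariant vectors; the proof is the same. `gapX`: if `F` is nonamenable, the operators `sgm f`, `f ∈ Q`, move all unit vectors which are
bounded for `B` (with the constant one) by at least `κ > 0`, and `Q`, `κ` depend on `F` only.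
-/

set_option autoImplicit false

open Filter Topology MeasureTheory

namespace Pool.Agent.Helper55.FP

open Pool.Agent.Helper84.NI Pool.Agent.Helper84.GVN Pool.Agent.Helper84.FR
open Pool.Agent.Helper90.RK (NonAm)

variable {C X Λ G : Type} [Group C] [MulAction C X]
  [MeasurableSpace X] [MeasurableConstSMul C X] [Group Λ] [Countable Λ] [Group G]
variable {K L0 : Type} [NormedAddCommGroup K] [InnerProductSpace ℂ K] [CompleteSpace K]
  [NormedAddCommGroup L0] [InnerProductSpace ℂ L0] [CompleteSpace L0]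

private theorem fx_sqrt (a b : ℝ) (ha : 0 ≤ a) (hb : 0 ≤ b) : (√a - √b) ^ 2 ≤ |a - b| := by
  have h1 : a - b = (√a - √b) * (√a + √b) := by
    have e1 := Real.mul_self_sqrt ha
    have e2 := Real.mul_self_sqrt hb
    nlinarith
  have hp : 0 ≤ √a + √b := add_nonneg (Real.sqrt_nonneg _) (Real.sqrt_nonneg _)
  rw [h1, abs_mul, abs_of_nonneg hp, ← sq_abs, sq]
  refine mul_le_mul_of_nonneg_left ?_ (abs_nonneg _)
  rw [abs_le]
  constructor <;> linarith [Real.sqrt_nonneg a, Real.sqrt_nonneg b]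

/-- From an almost invariant density to almost invariant vectors. -/
private theorem fx_core {Γ : Type} [Group Γ] {P : Γ → ℝ} (hP0 : ∀ m, 0 ≤ P m) {N : ℝ} (hN : 0 < N)
    (hPs : HasSum P N) {F : Finset Γ} {ε : ℝ} (hε : 0 < ε)
    (h : ∀ l ∈ F, ∀ f : Γ → ℝ, (∀ m, |f m| ≤ 1) →
      |(∑' m, f (l * m) * P m) - ∑' m, f m * P m| ≤ ε ^ 2 * N) :
    ∃ q : L2 Γ, ‖q‖ = 1 ∧ ∀ l ∈ F, ‖lamU l q - q‖ ≤ ε := by
  classical
  have hPl : ∀ l : Γ, HasSum (fun m => P (l⁻¹ * m)) N := fun l =>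
    (Equiv.mulLeft l⁻¹).hasSum_iff.2 hPs
  have hdiff : ∀ l ∈ F, Summable (fun m => |P (l⁻¹ * m) - P m|) ∧
      ∑' m, |P (l⁻¹ * m) - P m| ≤ ε ^ 2 * N := by
    intro l hl
    have hsum : Summable (fun m => |P (l⁻¹ * m) - P m|) :=
      ((hPl l).summable.sub hPs.summable).abs
    refine ⟨hsum, ?_⟩
    set f : Γ → ℝ := fun m => if 0 ≤ P (l⁻¹ * m) - P m then 1 else -1 with hf
    have hf1 : ∀ m, |f m| ≤ 1 := by
      intro m
      rw [hf]
      dsimp only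
      split_ifs <;> simp
    have h1 := h l hl f hf1
    have e2 : ∑' m, f (l * m) * P m = ∑' m, f m * P (l⁻¹ * m) := by
      have := Equiv.tsum_eq (Equiv.mulLeft l) (fun m => f m * P (l⁻¹ * m))
      rw [← this]
      refine tsum_congr fun m => ?_
      simp
    rw [e2] at h1
    have hb : ∀ g : Γ → ℝ, (∀ m, 0 ≤ g m) → Summable g → Summable fun m => f m * g m := by
      intro g hg hgs
      refine Summable.of_norm_bounded hgs fun m => ?_
      rw [Real.norm_eq_abs, abs_mul, abs_of_nonneg (hg m)]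
      calc |f m| * g m ≤ 1 * g m := mul_le_mul_of_nonneg_right (hf1 _) (hg m)
        _ = g m := one_mul _
    rw [← (hb _ (fun m => hP0 _) (hPl l).summable).tsum_sub (hb _ hP0 hPs.summable)] at h1
    refine le_trans (le_of_eq ?_) ((le_abs_self _).trans h1)
    refine tsum_congr fun m => ?_
    rw [← mul_sub, hf]
    dsimp only
    split_ifs with hc
    · rw [one_mul, abs_of_nonneg hc]
    · rw [abs_of_neg (not_le.1 hc)]
      ring
  have hq2 : Summable fun m => ‖((√(P m / N) : ℝ) : ℂ)‖ ^ 2 := by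
    have : (fun m => ‖((√(P m / N) : ℝ) : ℂ)‖ ^ 2) = fun m => P m / N := by
      funext m
      rw [Complex.norm_real, Real.norm_eq_abs, sq_abs, Real.sq_sqrt (div_nonneg (hP0 m) hN.le)]
    rw [this]
    exact hPs.summable.div_const N
  let q : L2 Γ := ⟨fun m => ((√(P m / N) : ℝ) : ℂ), memL2 hq2⟩
  have hqa : ∀ m, q m = ((√(P m / N) : ℝ) : ℂ) := fun m => rfl
  refine ⟨q, ?_, ?_⟩
  · have h1 : ‖q‖ ^ 2 = 1 := by
      rw [norm_sq_eq]
      have : (fun m => ‖q m‖ ^ 2) = fun m => P m / N := by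
        funext m
        rw [hqa, Complex.norm_real, Real.norm_eq_abs, sq_abs,
          Real.sq_sqrt (div_nonneg (hP0 m) hN.le)]
      rw [this, (hPs.div_const N).tsum_eq, div_self hN.ne']
    have h2 : ‖q‖ ^ 2 = 1 ^ 2 := by rw [h1, one_pow]
    exact (sq_eq_sq₀ (norm_nonneg _) zero_le_one).1 h2
  · intro l hl
    obtain ⟨hd1, hd2⟩ := hdiff l hl
    have h2 : ‖lamU l q - q‖ ^ 2 ≤ ε ^ 2 := by
      rw [norm_sq_eq]
      have h3 : ∀ m, ‖(lamU l q - q) m‖ ^ 2 ≤ |P (l⁻¹ * m) - P m| / N := by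
        intro m
        rw [lp.coeFn_sub, Pi.sub_apply, lamU_apply, hqa, hqa, ← Complex.ofReal_sub,
          Complex.norm_real, Real.norm_eq_abs, sq_abs]
        refine (fx_sqrt _ _ (div_nonneg (hP0 _) hN.le) (div_nonneg (hP0 _) hN.le)).trans ?_
        rw [← sub_div, abs_div, abs_of_pos hN]
      calc ∑' m, ‖(lamU l q - q) m‖ ^ 2 ≤ ∑' m, |P (l⁻¹ * m) - P m| / N :=
            (summable_sq _).tsum_le_tsum h3 (hd1.div_const N)
        _ = (∑' m, |P (l⁻¹ * m) - P m|) / N := tsum_div_const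
        _ ≤ ε ^ 2 := by
          rw [div_le_iff₀ hN]
          exact hd2
    exact (sq_le_sq₀ (norm_nonneg _) hε.le).1 h2

omit [Group G] in
/-- Common finite set and common `ε` for finitely many approximation problems. -/
private theorem fx_common {ι : Type} (s : Finset ι) (Q : ι → Finset G) (δ : ι → ℝ)
    (hδ : ∀ i, 0 < δ i) : ∃ (Q₀ : Finset G) (δ₀ : ℝ), 0 < δ₀ ∧
      ∀ i ∈ s, Q i ⊆ Q₀ ∧ δ₀ ≤ δ i := by
  classical
  induction s using Finset.induction_on with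
  | empty => exact ⟨∅, 1, one_pos, fun l hl => absurd hl (Finset.notMem_empty l)⟩
  | insert b s _ ih =>
    obtain ⟨Q₁, d, hd, hd'⟩ := ih
    refine ⟨Q₁ ∪ Q b, min d (δ b), lt_min hd (hδ b), fun l hl => ?_⟩
    rcases Finset.mem_insert.1 hl with rfl | hl
    · exact ⟨Finset.subset_union_right, min_le_right _ _⟩
    · exact ⟨(hd' l hl).1.trans Finset.subset_union_left, (min_le_left _ _).trans (hd' l hl).2⟩

section qg

variable {W : Type} [NormedAddCommGroup W] [InnerProductSpace ℂ W]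

omit [CompleteSpace K] [Group G] in
private theorem fx_hasSum {ι : Type} (J : K →L[ℂ] W) (Yo : W →L[ℂ] W) [Group G]
    (B : G →* (K ≃ₗᵢ[ℂ] K)) (m : G → (K →L[ℂ] K)) (S : Finset G) (ξ : K) {v : ι → K} {ξ' : K}
    (h : HasSum v ξ') : HasSum (fun i => qg J Yo B m S ξ (v i)) (qg J Yo B m S ξ ξ') := by
  unfold qg
  refine hasSum_sum fun t _ => ?_
  have h1 : HasSum (fun i => Yo (J (B t⁻¹ (m t (v i))))) (Yo (J (B t⁻¹ (m t ξ')))) :=
    (((Yo.comp J).comp ((B t⁻¹).toContinuousLinearEquiv : K →L[ℂ] K)).comp (m t)).hasSum h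
  exact h1.mapL (innerSL ℂ (J (B t⁻¹ (m t ξ))))

/-- The difference of the forms at `R f η` and at `η`. -/
private theorem fx_R (a : Cocy C X Λ) (E : Emb Λ G) {M : XM C X K} {A B : G →* (K ≃ₗᵢ[ℂ] K)}
    (h1 : MRep M A B) {ν : Measure X} {η : K} (hη : BddX M ν B η) (f : C) {ε₁ : ℝ}
    (hε₁ : 0 < ε₁) : ∃ (Q : Finset G) (δ : ℝ), 0 < δ ∧
      ∀ (S : Finset G) (m : G → (K →L[ℂ] K)),
      (∀ t, t ∉ S → m t = 0) → (∀ x, ∑ t ∈ S, ‖m t x‖ ^ 2 = ‖x‖ ^ 2) →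
      (∀ h ∈ Q, ∀ x, ∀ S' : Finset G,
        ∑ t ∈ S', ‖m t (B h x) - B h (m (h⁻¹ * t) x)‖ ^ 2 ≤ δ ^ 2 * ‖x‖ ^ 2) →
      ∀ (J : K →L[ℂ] W) (Yo : W →L[ℂ] W), (∀ x, ‖J x‖ ≤ ‖x‖) → (∀ w, ‖Yo w‖ ≤ ‖w‖) →
        (∀ D : Set X, MeasurableSet D → ∀ ξ ξ',
          qg J Yo B m S (M.py.p D ξ) ξ' = qg J Yo B m S ξ (M.py.p D ξ')) →
        ‖qg J Yo B m S (opR M a (CRep.ext B E.conj) f η) (opR M a (CRep.ext B E.conj) f η) -
          qg J Yo B m S η η‖ ≤ ε₁ := by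
  classical
  have hU : UHom M (CRep.ext B E.conj) := uhom_ext E.conj h1.hB
  set c : X → Λ := a.a f with hc
  have hcm : Mea c := a.meas f
  have hN : HasSum (fun l => ‖M.py.p (c ⁻¹' {l}) η‖ ^ 2) (‖η‖ ^ 2) := M.py.norm_sq_sum hcm η
  -- a finite set carrying most of the mass
  obtain ⟨Λ0, hΛ0⟩ : ∃ Λ0 : Finset Λ,
      ‖η‖ ^ 2 - ∑ l ∈ Λ0, ‖M.py.p (c ⁻¹' {l}) η‖ ^ 2 < ε₁ / 4 := by
    have h2 := (Metric.tendsto_atTop.1 hN) (ε₁ / 4) (by positivity)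
    obtain ⟨Λ0, h3⟩ := h2
    refine ⟨Λ0, ?_⟩
    have h4 := h3 Λ0 le_rfl
    rw [dist_comm, Real.dist_eq] at h4
    exact (le_abs_self _).trans_lt h4
  have hε₂ : 0 < ε₁ / (2 * (Λ0.card : ℝ) + 2) := by positivity
  have hmain := fun l : Λ => qg_main (W := W) (E := E.conj)
    (hη (c ⁻¹' {l}) (hcm l)) l hε₂
  choose Q δ hδ hQ using hmain
  obtain ⟨Q₀, δ₀, hδ₀, hQ₀⟩ := fx_common Λ0 Q δ hδ
  refine ⟨Q₀, δ₀, hδ₀, ?_⟩
  intro S m hm0 hm1 hm2 J Yo hJ hY hp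
  have hidem : ∀ l ξ, M.py.p (c ⁻¹' {l}) (M.py.p (c ⁻¹' {l}) ξ) = M.py.p (c ⁻¹' {l}) ξ := by
    intro l ξ
    rw [M.py.inter _ _ (hcm l) (hcm l), Set.inter_self]
  have hexp : ∀ ξ : K, HasSum
      (fun l => qg J Yo B m S (M.py.p (c ⁻¹' {l}) ξ) (M.py.p (c ⁻¹' {l}) ξ))
      (qg J Yo B m S ξ ξ) := by
    intro ξ
    have h2 := fx_hasSum J Yo B m S ξ (M.py.sum Λ c hcm ξ)
    have h3 : (fun l => qg J Yo B m S (M.py.p (c ⁻¹' {l}) ξ) (M.py.p (c ⁻¹' {l}) ξ)) =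
        fun l => qg J Yo B m S ξ (M.py.p (c ⁻¹' {l}) ξ) := by
      funext l
      rw [hp _ (hcm l), hidem]
    rw [h3]
    exact h2
  have hR : ∀ l, M.py.p (c ⁻¹' {l}) (opR M a (CRep.ext B E.conj) f η) =
      ext B E.conj l (M.py.p (c ⁻¹' {l}) η) := by
    intro l
    unfold opR
    rw [tw_at M.py (CRep.ext B E.conj) hU.py hcm l η]
    exact hU.py _ (hcm l) l η
  have hsum := (hexp (opR M a (CRep.ext B E.conj) f η)).sub (hexp η)
  simp only [hR] at hsum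
  -- the bound for the terms
  have hd1 : ∀ l, ‖qg J Yo B m S (ext B E.conj l (M.py.p (c ⁻¹' {l}) η))
      (ext B E.conj l (M.py.p (c ⁻¹' {l}) η)) -
      qg J Yo B m S (M.py.p (c ⁻¹' {l}) η) (M.py.p (c ⁻¹' {l}) η)‖ ≤
      2 * ‖M.py.p (c ⁻¹' {l}) η‖ ^ 2 := by
    intro l
    refine (norm_sub_le _ _).trans ?_
    have h3 := qg_bound hJ hY B hm1 (ext B E.conj l (M.py.p (c ⁻¹' {l}) η))
      (ext B E.conj l (M.py.p (c ⁻¹' {l}) η))
    have h4 := qg_bound hJ hY B hm1 (M.py.p (c ⁻¹' {l}) η) (M.py.p (c ⁻¹' {l}) η)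
    have h5 := norm_ext_le B E.conj l (M.py.p (c ⁻¹' {l}) η)
    have h6 : ‖ext B E.conj l (M.py.p (c ⁻¹' {l}) η)‖ * ‖ext B E.conj l (M.py.p (c ⁻¹' {l}) η)‖ ≤
        ‖M.py.p (c ⁻¹' {l}) η‖ * ‖M.py.p (c ⁻¹' {l}) η‖ :=
      mul_le_mul h5 h5 (norm_nonneg _) (norm_nonneg _)
    nlinarith
  have hd2 : ∀ l ∈ Λ0, ‖qg J Yo B m S (ext B E.conj l (M.py.p (c ⁻¹' {l}) η))
      (ext B E.conj l (M.py.p (c ⁻¹' {l}) η)) -
      qg J Yo B m S (M.py.p (c ⁻¹' {l}) η) (M.py.p (c ⁻¹' {l}) η)‖ ≤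
      ε₁ / (2 * (Λ0.card : ℝ) + 2) := by
    intro l hl
    refine hQ l S m hm0 hm1 (fun h hh x S' => ?_) J Yo hJ hY
    refine (hm2 h ((hQ₀ l hl).1 hh) x S').trans ?_
    exact mul_le_mul_of_nonneg_right (pow_le_pow_left₀ hδ₀.le (hQ₀ l hl).2 2) (sq_nonneg _)
  have hg : HasSum (fun l => (if l ∈ Λ0 then ε₁ / (2 * (Λ0.card : ℝ) + 2) -
      2 * ‖M.py.p (c ⁻¹' {l}) η‖ ^ 2 else 0) + 2 * ‖M.py.p (c ⁻¹' {l}) η‖ ^ 2)
      ((∑ l ∈ Λ0, (if l ∈ Λ0 then ε₁ / (2 * (Λ0.card : ℝ) + 2) -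
      2 * ‖M.py.p (c ⁻¹' {l}) η‖ ^ 2 else 0)) + 2 * ‖η‖ ^ 2) :=
    (hasSum_sum_of_ne_finset_zero fun l hl => if_neg hl).add (hN.mul_left 2)
  have hle := tsum_of_norm_bounded hg (f := fun l =>
      qg J Yo B m S (ext B E.conj l (M.py.p (c ⁻¹' {l}) η))
      (ext B E.conj l (M.py.p (c ⁻¹' {l}) η)) -
      qg J Yo B m S (M.py.p (c ⁻¹' {l}) η) (M.py.p (c ⁻¹' {l}) η)) (fun l => by
    by_cases hl : l ∈ Λ0
    · rw [if_pos hl, sub_add_cancel]
      exact hd2 l hl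
    · rw [if_neg hl, zero_add]
      exact hd1 l)
  rw [hsum.tsum_eq] at hle
  refine hle.trans ?_
  rw [Finset.sum_congr rfl fun l hl => if_pos hl, Finset.sum_sub_distrib, Finset.sum_const,
    nsmul_eq_mul, ← Finset.mul_sum]
  have h7 : (Λ0.card : ℝ) * (ε₁ / (2 * (Λ0.card : ℝ) + 2)) ≤ ε₁ / 2 := by
    have h8 : (0 : ℝ) ≤ Λ0.card := Nat.cast_nonneg _
    rw [mul_div_assoc', div_le_div_iff₀ (by positivity) (by positivity)]
    nlinarith
  linarith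

end qg

/-- Almost invariant bounded vectors give almost invariant vectors in `ℓ²(F)`. -/
theorem finalX_apx (a : Cocy C X Λ) (E : Emb Λ G) {M : XM C X K} {A B : G →* (K ≃ₗᵢ[ℂ] K)}
    (h1 : MRep M A B) (hm : ApxM M A B) (F : Subgroup C) (I0 : Imp F X L0)
    (hreg : ∀ ξ : K, (∀ T : L0 →L[ℂ] K, (∀ (f : F) x, T (I0.V f x) = opL M a (CRep.ext A E) f (T x)) →
      (∀ (D : Set X), MeasurableSet D → ∀ x, T (I0.P0.p D x) = M.py.p D (T x)) →
      ∀ x, (inner ℂ ξ (T x) : ℂ) = 0) → ξ = 0)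
    {ν : Measure X} {η : K} (hη : BddX M ν B η) (hη1 : ‖η‖ = 1) (Q : Finset F) {δ₁ : ℝ}
    (hfix : ∀ f ∈ Q, ‖sgm M a (CRep.ext A E) (CRep.ext B E.conj) (f : C) η - η‖ ≤ δ₁) {ε : ℝ}
    (hε : 0 < ε) (hεδ : 2 * δ₁ < ε ^ 2) : ∃ q : L2 F, ‖q‖ = 1 ∧ ∀ f ∈ Q, ‖lamU f q - q‖ ≤ ε := by
  classical
  have hUA : UHom M (CRep.ext A E) := uhom_ext E h1.hA
  let sO : F ⊕ {D : Set X // MeasurableSet D} → (L0 →L[ℂ] L0) :=
    Sum.elim (fun f => ((I0.V f).toContinuousLinearEquiv : L0 →L[ℂ] L0)) (fun D => I0.P0.p D.1)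
  let kO : F ⊕ {D : Set X // MeasurableSet D} → (K →L[ℂ] K) :=
    Sum.elim (fun f => opL M a (CRep.ext A E) (f : C)) (fun D => M.py.p D.1)
  let ιO : F ⊕ {D : Set X // MeasurableSet D} → F ⊕ {D : Set X // MeasurableSet D} :=
    Sum.elim (fun f => Sum.inl f⁻¹) Sum.inr
  obtain ⟨Y, J, z, hJz, hz1, hzs, hzT, hzc, hJk⟩ := exists_GJ sO kO ιO
    (by
      rintro (f | D) x y
      · exact (CRep.ofU I0.V).adj f x y
      · exact I0.P0.symm D.1 D.2 x y)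
    (by
      rintro (f | D) x y
      · exact opL_adj M a hUA (f : C) x y
      · exact M.py.symm D.1 D.2 x y)
  have hJV : ∀ (f : F) (x : K) (y : Y), J (opL M a (CRep.ext A E) (f : C) x) y = I0.V f (J x y) :=
    fun f x y => hJk (Sum.inl f) x y
  have hJP : ∀ (D : Set X), MeasurableSet D → ∀ (x : K) (y : Y),
      J (M.py.p D x) y = I0.P0.p D (J x y) := fun D hD x y => hJk (Sum.inr ⟨D, hD⟩) x y
  have hJ1 : ∀ x, ‖J x‖ ≤ ‖x‖ := fun x => (hJz x).le.trans (hz1 x)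
  have hzall : ∀ ξ, z ξ = ξ := by
    intro ξ
    refine (sub_eq_zero.1 (hreg (ξ - z ξ) fun T hTV hTP x => ?_)).symm
    have hT : z (T x) = T x := by
      refine hzT T ?_ x
      rintro (f | D) x
      · exact hTV f x
      · exact hTP D.1 D.2 x
    rw [inner_sub_left, hzs, hT, sub_self]
  have hz1' : ‖z η‖ = 1 := by rw [hzall, hη1]
  have hN : 0 < ‖z η‖ ^ 2 := by rw [hz1']; norm_num
  have hε₁ : 0 < ε ^ 2 - 2 * δ₁ := by linarith
  have hR := fun f : F => fx_R (W := Lv Y L0) a E h1 hη (f : C) hε₁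
  choose Qf δ hδ hQ using hR
  obtain ⟨Q₀, δ₀, hδ₀, hQ₀⟩ := fx_common Q Qf δ hδ
  obtain ⟨S, m, hm1, hm2, hm3, hm4, hm5⟩ := hm Q₀ δ₀ hδ₀
  have hBL : ∀ (t : G) (f : C) (x : K), B t (opL M a (CRep.ext A E) f x) =
      opL M a (CRep.ext A E) f (B t x) := fun t f x =>
    opL_nat M a hUA hUA (T := ((B t).toContinuousLinearEquiv : K →L[ℂ] K)) (h1.hB t)
      (fun l ξ => map_ext (T := ((B t).toContinuousLinearEquiv : K →L[ℂ] K))
        (fun g x => (h1.comm2 g t x).symm) E l ξ) f x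
  have hmL : ∀ (t : G) (f : C) (x : K), m t (opL M a (CRep.ext A E) f x) =
      opL M a (CRep.ext A E) f (m t x) := fun t f x =>
    opL_nat M a hUA hUA (hm1 t) (fun l ξ => map_ext (hm2 t) E l ξ) f x
  have hBP : ∀ (t : G) (D : Set X), MeasurableSet D → ∀ x : K, B t (M.py.p D x) =
      M.py.p D (B t x) := fun t D hD x => (h1.hB t).y D hD x
  have hmP : ∀ (t : G) (D : Set X), MeasurableSet D → ∀ x : K, m t (M.py.p D x) =
      M.py.p D (m t x) := fun t D hD x => (hm1 t).y D hD x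
  have hzB : ∀ (t : G) (x : K), z (B t x) = B t (z x) := by
    intro t x
    refine hzc ((B t).toContinuousLinearEquiv : K →L[ℂ] K) ?_ x
    rintro (f | D) x
    · exact hBL t f x
    · exact hBP t D.1 D.2 x
  have hzm : ∀ (t : G) (x : K), z (m t x) = m t (z x) := by
    intro t x
    refine hzc (m t) ?_ x
    rintro (f | D) x
    · exact hmL t f x
    · exact hmP t D.1 D.2 x
  have hqp : ∀ φ : F → ℝ, (∀ g, |φ g| ≤ 1) → ∀ D : Set X, MeasurableSet D → ∀ ξ ξ' : K,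
      qg J (Phi I0 Y φ) B m S (M.py.p D ξ) ξ' = qg J (Phi I0 Y φ) B m S ξ (M.py.p D ξ') := by
    intro φ hφ D hD ξ ξ'
    unfold qg
    refine Finset.sum_congr rfl fun t _ => ?_
    rw [hmP t D hD, hBP t⁻¹ D hD, hmP t D hD, hBP t⁻¹ D hD]
    exact inner_Phi_p I0 hφ hD (fun y => hJP D hD _ y) (fun y => hJP D hD _ y)
  have hqL : ∀ φ : F → ℝ, (∀ g, |φ g| ≤ 1) → ∀ (f : F) (ξ ξ' : K),
      qg J (Phi I0 Y φ) B m S (opL M a (CRep.ext A E) (f : C) ξ)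
        (opL M a (CRep.ext A E) (f : C) ξ') =
      qg J (Phi I0 Y fun g => φ (f * g)) B m S ξ ξ' := by
    intro φ hφ f ξ ξ'
    unfold qg
    refine Finset.sum_congr rfl fun t _ => ?_
    rw [hmL, hBL, hmL, hBL]
    exact inner_Phi_V I0 hφ f (fun y => hJV f _ y) (fun y => hJV f _ y)
  set P : F → ℝ := fun g => ∑ t ∈ S, ∑' y, ‖I0.e g (J (B t⁻¹ (m t η)) y)‖ ^ 2 with hP
  have hP0 : ∀ g, 0 ≤ P g := fun g => Finset.sum_nonneg fun t _ => tsum_nonneg fun y => sq_nonneg _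
  have hPs : HasSum P (‖z η‖ ^ 2) := by
    have h2 : HasSum P (∑ t ∈ S, ‖J (B t⁻¹ (m t η))‖ ^ 2) :=
      hasSum_sum fun t _ => (inner_Phi I0 (φ := fun _ => 1) (fun _ => by simp)
        (J (B t⁻¹ (m t η)))).2.2
    have h3 : ∑ t ∈ S, ‖J (B t⁻¹ (m t η))‖ ^ 2 = ‖z η‖ ^ 2 := by
      rw [← hm4 (z η)]
      refine Finset.sum_congr rfl fun t _ => ?_
      rw [hJz, hzB, LinearIsometryEquiv.norm_map, hzm]
    rw [h3] at h2
    exact h2
  have hqη : ∀ φ : F → ℝ, (∀ g, |φ g| ≤ 1) →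
      HasSum (fun g => φ g * P g) (qg J (Phi I0 Y φ) B m S η η).re := by
    intro φ hφ
    have h2 : HasSum (fun g => ∑ t ∈ S, φ g * ∑' y, ‖I0.e g (J (B t⁻¹ (m t η)) y)‖ ^ 2)
        (∑ t ∈ S, (inner ℂ (J (B t⁻¹ (m t η))) (Phi I0 Y φ (J (B t⁻¹ (m t η))))).re) :=
      hasSum_sum fun t _ => (inner_Phi I0 hφ (J (B t⁻¹ (m t η)))).1
    have h3 : (fun g => φ g * P g) =
        fun g => ∑ t ∈ S, φ g * ∑' y, ‖I0.e g (J (B t⁻¹ (m t η)) y)‖ ^ 2 := by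
      funext g
      rw [hP]
      exact Finset.mul_sum _ _ _
    rw [h3]
    unfold qg
    rw [Complex.re_sum]
    exact h2
  refine fx_core hP0 hN hPs hε fun f hf φ hφ => ?_
  have hφ' : ∀ g, |φ (f * g)| ≤ 1 := fun g => hφ _
  rw [(hqη (fun g => φ (f * g)) hφ').tsum_eq, (hqη φ hφ).tsum_eq, ← Complex.sub_re]
  refine (Complex.abs_re_le_norm _).trans ?_
  have hφφ : ‖qg J (Phi I0 Y φ) B m S (sgm M a (CRep.ext A E) (CRep.ext B E.conj) (f : C) η)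
      (sgm M a (CRep.ext A E) (CRep.ext B E.conj) (f : C) η) - qg J (Phi I0 Y φ) B m S η η‖ ≤ 2 * δ₁ := by
    set η1 := sgm M a (CRep.ext A E) (CRep.ext B E.conj) (f : C) η with hη1d
    have hUB : UHom M (CRep.ext B E.conj) := uhom_ext E.conj h1.hB
    have hn1 : ‖η1‖ ≤ 1 := by
      have := norm_sgm_le M a hUA hUB (f : C) η
      rwa [hη1] at this
    have e : qg J (Phi I0 Y φ) B m S η1 η1 - qg J (Phi I0 Y φ) B m S η η =
        qg J (Phi I0 Y φ) B m S (η1 - η) η1 + qg J (Phi I0 Y φ) B m S η (η1 - η) := by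
      rw [qg_sub_left, qg_sub_right]
      ring
    rw [e]
    refine (norm_add_le _ _).trans ?_
    have b1 := qg_bound hJ1 (norm_Phi_le I0 hφ) B hm4 (η1 - η) η1
    have b2 := qg_bound hJ1 (norm_Phi_le I0 hφ) B hm4 η (η1 - η)
    have b3 := hfix f hf
    rw [hη1] at b2
    nlinarith [norm_nonneg (η1 - η), norm_nonneg η1]
  have e3 : qg J (Phi I0 Y φ) B m S (sgm M a (CRep.ext A E) (CRep.ext B E.conj) (f : C) η)
      (sgm M a (CRep.ext A E) (CRep.ext B E.conj) (f : C) η) = qg J (Phi I0 Y fun g => φ (f * g)) B m S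
      (opR M a (CRep.ext B E.conj) (f : C) η) (opR M a (CRep.ext B E.conj) (f : C) η) := by
    rw [← hqL φ hφ f]
    rfl
  rw [e3] at hφφ
  have h9 : ‖qg J (Phi I0 Y fun g => φ (f * g)) B m S
      (opR M a (CRep.ext B E.conj) (f : C) η) (opR M a (CRep.ext B E.conj) (f : C) η) -
      qg J (Phi I0 Y fun g => φ (f * g)) B m S η η‖ ≤ ε ^ 2 - 2 * δ₁ := by
    refine hQ f S m hm3 hm4 (fun h hh x S' => ?_) J _ hJ1 (norm_Phi_le I0 hφ') (hqp _ hφ')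
    refine (hm5 h ((hQ₀ f hf).1 hh) x S').trans ?_
    exact mul_le_mul_of_nonneg_right (pow_le_pow_left₀ hδ₀.le (hQ₀ f hf).2 2) (sq_nonneg _)
  rw [hz1', one_pow, mul_one]
  calc ‖qg J (Phi I0 Y fun g => φ (f * g)) B m S η η - qg J (Phi I0 Y φ) B m S η η‖
      ≤ ‖qg J (Phi I0 Y fun g => φ (f * g)) B m S η η - qg J (Phi I0 Y fun g => φ (f * g)) B m S
        (opR M a (CRep.ext B E.conj) (f : C) η) (opR M a (CRep.ext B E.conj) (f : C) η)‖ +
        ‖qg J (Phi I0 Y fun g => φ (f * g)) B m S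
        (opR M a (CRep.ext B E.conj) (f : C) η) (opR M a (CRep.ext B E.conj) (f : C) η) -
        qg J (Phi I0 Y φ) B m S η η‖ := norm_sub_le_norm_sub_add_norm_sub _ _ _
    _ ≤ (ε ^ 2 - 2 * δ₁) + 2 * δ₁ := add_le_add (by rw [norm_sub_rev]; exact h9) hφφ
    _ = ε ^ 2 := by ring

/-- The gap: nonamenable groups move bounded vectors. -/
theorem gapX (a : Cocy C X Λ) (E : Emb Λ G) (F : Subgroup C) (I0 : Imp F X L0) (hF : NonAm F) :
    ∃ (Q : Finset F) (κ : ℝ), 0 < κ ∧ ∀ (K : Type) [NormedAddCommGroup K] [InnerProductSpace ℂ K] [CompleteSpace K]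
      (M : XM C X K) (A B : G →* (K ≃ₗᵢ[ℂ] K)), MRep M A B → ApxM M A B →
      (∀ ξ : K, (∀ T : L0 →L[ℂ] K, (∀ (f : F) x, T (I0.V f x) = opL M a (CRep.ext A E) f (T x)) →
        (∀ (D : Set X), MeasurableSet D → ∀ x, T (I0.P0.p D x) = M.py.p D (T x)) →
        ∀ x, (inner ℂ ξ (T x) : ℂ) = 0) → ξ = 0) →
      ∀ (ν : Measure X) (η : K), BddX M ν B η → ‖η‖ = 1 →
        ∃ f ∈ Q, κ ≤ ‖sgm M a (CRep.ext A E) (CRep.ext B E.conj) (f : C) η - η‖ := by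
  obtain ⟨Q, ε, hε, h⟩ := hF
  refine ⟨Q, ε ^ 2 / 16, by positivity, ?_⟩
  intro K _ _ _ M A B h1 hm hreg ν η hη hη1
  by_contra hcon
  push Not at hcon
  obtain ⟨q, hq, hq2⟩ := finalX_apx a E h1 hm F I0 hreg hη hη1 Q (δ₁ := ε ^ 2 / 16)
    (fun f hf => (hcon f hf).le) (ε := ε / 2) (by positivity) (by nlinarith [pow_pos hε 2])
  obtain ⟨g, hg, hg2⟩ := h q hq
  have := hq2 g hg
  linarith

end Pool.Agent.Helper55.FP
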