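import Pool.Agent.Helper55.FP.Fx

/-!
# Project FP (MP_0f6f3f_an): the gap lemma for two spaces

Let `K`, `Kh` be two spaces with commuting actions `A`, `B` and `A'`, `B'` of `G` and with shifts and projections (`XM`). Let `m t : K → Kh` be a finitely supported family commuting with the left actions and with the
shifts and projections, with `∑ ‖m t x‖² ≤ ‖x‖²`, almost equivariant for `B`, `B'`. If `Kh` is regular (spanned by intertwiners from an induced space `L0`), then the operators `sgm f`, `f ∈ Q`, move all unit vectors `η` which are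
bounded for `B` and for which `∑ ‖m t η‖² ≥ θ` by at least `κ > 0`. The finite sets and constants depend only on the cocycle, on the embedding, on `L0`, on the measure and on `θ`, not on the spaces.
`q2` is the form `qg` of `Helper84/FR/QG.lean` for two spaces.
-/

set_option autoImplicit false

open Filter Topology MeasureTheory

namespace Pool.Agent.Helper55.FP

open Pool.Agent.Helper84.NI Pool.Agent.Helper84.GVN Pool.Agent.Helper84.FR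
open Pool.Agent.Helper90.RK (NonAm)

section form

variable {G : Type} [Group G]
variable {K Kh W : Type} [NormedAddCommGroup K] [InnerProductSpace ℂ K]
  [NormedAddCommGroup Kh] [InnerProductSpace ℂ Kh] [NormedAddCommGroup W] [InnerProductSpace ℂ W]

/-- The form `∑_{t ∈ S} ⟪J (B' t⁻¹ (m t ξ)), Y (J (B' t⁻¹ (m t ξ')))⟫`. -/
noncomputable def q2 (J : Kh →L[ℂ] W) (Y : W →L[ℂ] W) (B' : G →* (Kh ≃ₗᵢ[ℂ] Kh)) (m : G → (K →L[ℂ] Kh))
    (S : Finset G) (ξ ξ' : K) : ℂ :=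
  ∑ t ∈ S, inner ℂ (J (B' t⁻¹ (m t ξ))) (Y (J (B' t⁻¹ (m t ξ'))))

variable (J : Kh →L[ℂ] W) (Y : W →L[ℂ] W) (B' : G →* (Kh ≃ₗᵢ[ℂ] Kh)) (m : G → (K →L[ℂ] Kh))
    (S : Finset G)

theorem q2_add_left (ξ₁ ξ₂ ξ' : K) :
    q2 J Y B' m S (ξ₁ + ξ₂) ξ' = q2 J Y B' m S ξ₁ ξ' + q2 J Y B' m S ξ₂ ξ' := by
  unfold q2
  rw [← Finset.sum_add_distrib]
  refine Finset.sum_congr rfl fun t _ => ?_
  rw [map_add, map_add, map_add, inner_add_left]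

theorem q2_add_right (ξ ξ₁ ξ₂ : K) :
    q2 J Y B' m S ξ (ξ₁ + ξ₂) = q2 J Y B' m S ξ ξ₁ + q2 J Y B' m S ξ ξ₂ := by
  unfold q2
  rw [← Finset.sum_add_distrib]
  refine Finset.sum_congr rfl fun t _ => ?_
  rw [map_add, map_add, map_add, map_add, inner_add_right]

theorem q2_smul_left (c : ℂ) (ξ ξ' : K) :
    q2 J Y B' m S (c • ξ) ξ' = (starRingEnd ℂ c) * q2 J Y B' m S ξ ξ' := by
  unfold q2
  rw [Finset.mul_sum]
  refine Finset.sum_congr rfl fun t _ => ?_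
  rw [map_smul, map_smul, map_smul, inner_smul_left]

theorem q2_smul_right (c : ℂ) (ξ ξ' : K) :
    q2 J Y B' m S ξ (c • ξ') = c * q2 J Y B' m S ξ ξ' := by
  unfold q2
  rw [Finset.mul_sum]
  refine Finset.sum_congr rfl fun t _ => ?_
  rw [map_smul, map_smul, map_smul, map_smul, inner_smul_right]

theorem q2_sub_left (ξ₁ ξ₂ ξ' : K) :
    q2 J Y B' m S (ξ₁ - ξ₂) ξ' = q2 J Y B' m S ξ₁ ξ' - q2 J Y B' m S ξ₂ ξ' := by
  have h := q2_add_left J Y B' m S (ξ₁ - ξ₂) ξ₂ ξ'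
  rw [sub_add_cancel] at h
  rw [h]
  ring

theorem q2_sub_right (ξ ξ₁ ξ₂ : K) :
    q2 J Y B' m S ξ (ξ₁ - ξ₂) = q2 J Y B' m S ξ ξ₁ - q2 J Y B' m S ξ ξ₂ := by
  have h := q2_add_right J Y B' m S ξ (ξ₁ - ξ₂) ξ₂
  rw [sub_add_cancel] at h
  rw [h]
  ring

theorem q2_sum_left (F : Finset G) (c : G → ℂ) (v : G → K) (ξ' : K) :
    q2 J Y B' m S (∑ g ∈ F, c g • v g) ξ' = ∑ g ∈ F, (starRingEnd ℂ (c g)) * q2 J Y B' m S (v g) ξ' := by
  classical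
  induction F using Finset.induction_on with
  | empty =>
    rw [Finset.sum_empty, Finset.sum_empty]
    have := q2_smul_left J Y B' m S 0 (0 : K) ξ'
    rwa [zero_smul, map_zero, zero_mul] at this
  | insert a F ha ih =>
    rw [Finset.sum_insert ha, Finset.sum_insert ha, q2_add_left J Y B' m S, q2_smul_left, ih]

theorem q2_sum_right (F : Finset G) (c : G → ℂ) (v : G → K) (ξ : K) :
    q2 J Y B' m S ξ (∑ g ∈ F, c g • v g) = ∑ g ∈ F, c g * q2 J Y B' m S ξ (v g) := by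
  classical
  induction F using Finset.induction_on with
  | empty =>
    rw [Finset.sum_empty, Finset.sum_empty]
    have := q2_smul_right J Y B' m S 0 ξ (0 : K)
    rwa [zero_smul, zero_mul] at this
  | insert a F ha ih =>
    rw [Finset.sum_insert ha, Finset.sum_insert ha, q2_add_right J Y B' m S, q2_smul_right, ih]

omit [Group G] in
private theorem g2_cs {a b c : G → ℝ} (S : Finset G)
    (hc : ∀ t ∈ S, c t ≤ a t * b t) {A B : ℝ} (hA : 0 ≤ A) (hB : 0 ≤ B)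
    (h1 : ∑ t ∈ S, a t ^ 2 ≤ A ^ 2) (h2 : ∑ t ∈ S, b t ^ 2 ≤ B ^ 2) : ∑ t ∈ S, c t ≤ A * B := by
  have h3 := Finset.sum_le_sum hc
  have h4 := Finset.sum_mul_sq_le_sq_mul_sq S a b
  have h5 : (∑ t ∈ S, a t * b t) ^ 2 ≤ (A * B) ^ 2 := by
    rw [mul_pow]
    exact h4.trans (mul_le_mul h1 h2 (Finset.sum_nonneg fun t _ => sq_nonneg _) (sq_nonneg _))
  exact h3.trans (abs_le_of_sq_le_sq' h5 (mul_nonneg hA hB)).2

variable {J Y B' m S}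

private theorem g2_nm (hY : ∀ w, ‖Y w‖ ≤ ‖w‖) (u v : W) :
    ‖(inner ℂ u (Y v) : ℂ)‖ ≤ ‖u‖ * ‖v‖ :=
  (norm_inner_le_norm u (Y v)).trans (mul_le_mul_of_nonneg_left (hY v) (norm_nonneg _))

theorem q2_bound (hJ : ∀ x, ‖J x‖ ≤ ‖x‖) (hY : ∀ w, ‖Y w‖ ≤ ‖w‖)
    (hM : ∀ x, ∑ t ∈ S, ‖m t x‖ ^ 2 ≤ ‖x‖ ^ 2) (ξ ξ' : K) : ‖q2 J Y B' m S ξ ξ'‖ ≤ ‖ξ‖ * ‖ξ'‖ := by
  have h1 : ∀ t x, ‖J (B' t⁻¹ (m t x))‖ ≤ ‖m t x‖ := by
    intro t x
    exact (hJ _).trans (le_of_eq (LinearIsometryEquiv.norm_map _ _))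
  unfold q2
  refine (norm_sum_le _ _).trans ?_
  refine g2_cs (a := fun t => ‖m t ξ‖) (b := fun t => ‖m t ξ'‖) S ?_ (norm_nonneg _) (norm_nonneg _)
    (hM ξ) (hM ξ')
  intro t _
  exact (g2_nm hY _ _).trans (mul_le_mul (h1 t ξ) (h1 t ξ') (norm_nonneg _) (norm_nonneg _))

theorem q2_move (hJ : ∀ x, ‖J x‖ ≤ ‖x‖) (hY : ∀ w, ‖Y w‖ ≤ ‖w‖) {B : G →* (K ≃ₗᵢ[ℂ] K)}
    (h0 : ∀ t, t ∉ S → m t = 0)
    (hM : ∀ x, ∑ t ∈ S, ‖m t x‖ ^ 2 ≤ ‖x‖ ^ 2) {ε : ℝ} (hε : 0 < ε) {h : G}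
    (h1 : ∀ x, ∀ S' : Finset G, ∑ t ∈ S', ‖m t (B h x) - B' h (m (h⁻¹ * t) x)‖ ^ 2 ≤ ε ^ 2 * ‖x‖ ^ 2)
    (h2 : ∀ x, ∀ S' : Finset G, ∑ t ∈ S', ‖m t (B h⁻¹ x) - B' h⁻¹ (m (h * t) x)‖ ^ 2 ≤ ε ^ 2 * ‖x‖ ^ 2)
    (ξ ξ' : K) : ‖q2 J Y B' m S (B h ξ) ξ' - q2 J Y B' m S ξ (B h⁻¹ ξ')‖ ≤ 2 * ε * ‖ξ‖ * ‖ξ'‖ := by
  obtain ⟨Φ, hΦ⟩ : ∃ Φ : G → K → W, Φ = fun t ξ => J (B' t⁻¹ (m t ξ)) := ⟨_, rfl⟩
  have hq : ∀ x y, q2 J Y B' m S x y = ∑ t ∈ S, inner ℂ (Φ t x) (Y (Φ t y)) := by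
    intro x y
    rw [hΦ]
    rfl
  have hΦ0 : ∀ t, t ∉ S → ∀ x, Φ t x = 0 := by
    intro t ht x
    rw [hΦ]
    show J (B' t⁻¹ (m t x)) = 0
    rw [h0 t ht]
    simp
  have hΦn : ∀ t x, ‖Φ t x‖ ≤ ‖m t x‖ := by
    intro t x
    rw [hΦ]
    exact (hJ _).trans (le_of_eq (LinearIsometryEquiv.norm_map _ _))
  have hΦs : ∀ x, ∑ t ∈ S, ‖Φ t x‖ ^ 2 ≤ ‖x‖ ^ 2 := by
    intro x
    refine le_trans ?_ (hM x)
    exact Finset.sum_le_sum fun t _ => pow_le_pow_left₀ (norm_nonneg _) (hΦn t x) 2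
  have hd : ∀ (k : G) (t : G) (x : K), ‖Φ t (B k x) - Φ (k⁻¹ * t) x‖ ≤ ‖m t (B k x) - B' k (m (k⁻¹ * t) x)‖ := by
    intro k t x
    have e : Φ t (B k x) - Φ (k⁻¹ * t) x = J (B' t⁻¹ (m t (B k x) - B' k (m (k⁻¹ * t) x))) := by
      rw [hΦ]
      show J (B' t⁻¹ (m t (B k x))) - J (B' (k⁻¹ * t)⁻¹ (m (k⁻¹ * t) x)) = _
      rw [map_sub, map_sub, mul_inv_rev, inv_inv, map_mul]
      rfl
    rw [e]
    exact (hJ _).trans (le_of_eq (LinearIsometryEquiv.norm_map _ _))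
  -- the middle term
  have hmid : ∑ t ∈ S, (inner ℂ (Φ (h⁻¹ * t) ξ) (Y (Φ t ξ')) : ℂ) =
      ∑ s ∈ S, inner ℂ (Φ s ξ) (Y (Φ (h * s) ξ')) := by
    have e1 : ∑' t, (inner ℂ (Φ (h⁻¹ * t) ξ) (Y (Φ t ξ')) : ℂ) =
        ∑ t ∈ S, inner ℂ (Φ (h⁻¹ * t) ξ) (Y (Φ t ξ')) :=
      tsum_eq_sum fun t ht => by rw [hΦ0 t ht, map_zero, inner_zero_right]
    have e2 : ∑' s, (inner ℂ (Φ s ξ) (Y (Φ (h * s) ξ')) : ℂ) =
        ∑ s ∈ S, inner ℂ (Φ s ξ) (Y (Φ (h * s) ξ')) :=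
      tsum_eq_sum fun t ht => by rw [hΦ0 t ht, inner_zero_left]
    rw [← e1, ← e2, ← (Equiv.mulLeft h).tsum_eq]
    congr 1
    funext s
    simp
  have hA : ‖∑ t ∈ S, (inner ℂ (Φ t (B h ξ)) (Y (Φ t ξ')) : ℂ) -
      ∑ t ∈ S, inner ℂ (Φ (h⁻¹ * t) ξ) (Y (Φ t ξ'))‖ ≤ (ε * ‖ξ‖) * ‖ξ'‖ := by
    rw [← Finset.sum_sub_distrib]
    refine (norm_sum_le _ _).trans ?_
    refine g2_cs (a := fun t => ‖m t (B h ξ) - B' h (m (h⁻¹ * t) ξ)‖) (b := fun t => ‖Φ t ξ'‖) S ?_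
      (by positivity) (norm_nonneg _) ?_ (hΦs ξ')
    · intro t _
      rw [← inner_sub_left]
      refine (g2_nm hY _ _).trans ?_
      exact mul_le_mul_of_nonneg_right (hd h t ξ) (norm_nonneg _)
    · rw [mul_pow]
      exact h1 ξ S
  have hB : ‖∑ s ∈ S, (inner ℂ (Φ s ξ) (Y (Φ s (B h⁻¹ ξ'))) : ℂ) -
      ∑ s ∈ S, inner ℂ (Φ s ξ) (Y (Φ (h * s) ξ'))‖ ≤ ‖ξ‖ * (ε * ‖ξ'‖) := by
    rw [← Finset.sum_sub_distrib]
    refine (norm_sum_le _ _).trans ?_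
    refine g2_cs (a := fun t => ‖Φ t ξ‖) (b := fun t => ‖m t (B h⁻¹ ξ') - B' h⁻¹ (m (h * t) ξ')‖) S ?_
      (norm_nonneg _) (by positivity) (hΦs ξ) ?_
    · intro t _
      rw [← inner_sub_right, ← map_sub]
      refine (g2_nm hY _ _).trans ?_
      refine mul_le_mul_of_nonneg_left ?_ (norm_nonneg _)
      have := hd h⁻¹ t ξ'
      rw [inv_inv] at this
      exact this
    · rw [mul_pow]
      exact h2 ξ' S
  rw [hq, hq]
  have e : ∑ t ∈ S, (inner ℂ (Φ t (B h ξ)) (Y (Φ t ξ')) : ℂ) -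
      ∑ t ∈ S, inner ℂ (Φ t ξ) (Y (Φ t (B h⁻¹ ξ'))) =
      (∑ t ∈ S, (inner ℂ (Φ t (B h ξ)) (Y (Φ t ξ')) : ℂ) -
        ∑ t ∈ S, inner ℂ (Φ (h⁻¹ * t) ξ) (Y (Φ t ξ'))) -
        (∑ s ∈ S, (inner ℂ (Φ s ξ) (Y (Φ s (B h⁻¹ ξ'))) : ℂ) -
          ∑ s ∈ S, inner ℂ (Φ s ξ) (Y (Φ (h * s) ξ'))) := by
    rw [hmid]
    ring
  rw [e]
  refine (norm_sub_le _ _).trans ((add_le_add hA hB).trans (le_of_eq ?_))
  ring

end form

section main

variable {G Λ : Type} [Group G] [Group Λ]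

/-- `qg_main` for two spaces, uniformly in the spaces and in the bounded vector. -/
theorem q2_main (E : Emb Λ G) {c : ℝ} (hc0 : 0 ≤ c) (l : Λ) {ε₁ : ℝ} (hε₁ : 0 < ε₁) :
    ∃ (Q : Finset G) (ε : ℝ), 0 < ε ∧ ∀ (K Kh W : Type) [NormedAddCommGroup K] [InnerProductSpace ℂ K]
      [CompleteSpace K] [NormedAddCommGroup Kh] [InnerProductSpace ℂ Kh]
      [NormedAddCommGroup W] [InnerProductSpace ℂ W]
      (B : G →* (K ≃ₗᵢ[ℂ] K)) (B' : G →* (Kh ≃ₗᵢ[ℂ] Kh)) (η : K), Bdd B c η → ‖η‖ ≤ 1 →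
      ∀ (S : Finset G) (m : G → (K →L[ℂ] Kh)),
      (∀ t, t ∉ S → m t = 0) → (∀ x, ∑ t ∈ S, ‖m t x‖ ^ 2 ≤ ‖x‖ ^ 2) →
      (∀ h ∈ Q, ∀ x, ∀ S' : Finset G,
        ∑ t ∈ S', ‖m t (B h x) - B' h (m (h⁻¹ * t) x)‖ ^ 2 ≤ ε ^ 2 * ‖x‖ ^ 2) →
      ∀ (J : Kh →L[ℂ] W) (Y : W →L[ℂ] W), (∀ x, ‖J x‖ ≤ ‖x‖) → (∀ w, ‖Y w‖ ≤ ‖w‖) →
        ‖q2 J Y B' m S (ext B E l η) (ext B E l η) - q2 J Y B' m S η η‖ ≤ ε₁ := by
  classical
  let d : G → ℂ := fun g => cf (E.U l) g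
  -- the finite set
  set δ : ℝ := ε₁ / 8 with hδ
  have hδ0 : 0 < δ := by positivity
  obtain ⟨F, hF⟩ := summable_iff_vanishing_norm.1 (summable_sq (cf (E.U l))) ((δ / (c + 1)) ^ 2)
    (by positivity)
  have hF' : ∀ t : Finset G, Disjoint t F → ∑ g ∈ t, c ^ 2 * ‖d g‖ ^ 2 ≤ δ ^ 2 := by
    intro t ht
    have h1 := hF t ht
    rw [Real.norm_of_nonneg (Finset.sum_nonneg fun g _ => by positivity)] at h1
    rw [← Finset.mul_sum]
    have h2 : c ^ 2 * (δ / (c + 1)) ^ 2 ≤ δ ^ 2 := by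
      have h3 : c * (δ / (c + 1)) ≤ δ := by
        rw [mul_div_assoc', div_le_iff₀ (by positivity)]
        nlinarith
      have h4 : 0 ≤ c * (δ / (c + 1)) := by positivity
      calc c ^ 2 * (δ / (c + 1)) ^ 2 = (c * (δ / (c + 1))) ^ 2 := by ring
        _ ≤ δ ^ 2 := pow_le_pow_left₀ h4 h3 2
    exact (mul_le_mul_of_nonneg_left h1.le (sq_nonneg c)).trans h2
  have hsq : ∀ (s : Finset G) (a : G → ℂ), c * Real.sqrt (∑ g ∈ s, ‖a g‖ ^ 2) =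
      Real.sqrt (∑ g ∈ s, c ^ 2 * ‖a g‖ ^ 2) := by
    intro s a
    rw [← Finset.mul_sum, Real.sqrt_mul (sq_nonneg c), Real.sqrt_sq hc0]
  set σ : ℝ := ∑ g ∈ F, ‖d g‖ with hσ
  have hσ0 : 0 ≤ σ := Finset.sum_nonneg fun g _ => norm_nonneg _
  set ε : ℝ := ε₁ / (8 * (σ + 1)) with hε
  have hε0 : 0 < ε := by positivity
  refine ⟨F ∪ F.image (fun g => g⁻¹), ε, hε0, ?_⟩
  intro K Kh W _ _ _ _ _ _ _ B B' η hB hη1 S m h0 hM hQ J Y hJ hY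
  set θ := ext B E l η with hθ
  have hnθ : ‖θ‖ = ‖η‖ := norm_ext E l hB.mem_VB
  have hBθ : Bdd B c θ := ext_bdd E l hB
  have hs1 : HasSum (fun g => d g • B g η) θ := hasSum_ext E l hB
  have hηθ : ext B E l⁻¹ θ = η := by
    rw [hθ, ← ext_mul, inv_mul_cancel, ext_one_apply E hB.mem_VB]
  have hs2 : HasSum (fun g => (starRingEnd ℂ (d g)) • B g⁻¹ θ) η := by
    have h1 := hasSum_ext E l⁻¹ hBθ
    rw [hηθ] at h1
    have h2 := (Equiv.hasSum_iff (Equiv.inv G)).2 h1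
    have h5 : (fun g => (starRingEnd ℂ (d g)) • B g⁻¹ θ) =
        (fun g => cf (E.U l⁻¹) g • B g θ) ∘ (Equiv.inv G) := by
      funext g
      simp only [Function.comp_apply, Equiv.inv_apply]
      have h4 := f2_cf_inv (E.comm l) g
      rw [← map_inv] at h4
      rw [h4]
    rw [h5]
    exact h2
  have hη0 := norm_nonneg η
  have hP : ‖θ - ∑ g ∈ F, d g • B g η‖ ≤ δ := by
    refine f2_tail hs1 hδ0.le (w := fun g => c ^ 2 * ‖d g‖ ^ 2) (fun s => ?_) hF'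
    have := hB.norm_le s d
    rwa [hsq] at this
  have hP' : ‖η - ∑ g ∈ F, (starRingEnd ℂ (d g)) • B g⁻¹ θ‖ ≤ δ := by
    refine f2_tail hs2 hδ0.le (w := fun g => c ^ 2 * ‖d g‖ ^ 2) (fun s => ?_) hF'
    have h1 := hBθ.norm_le (s.map (Equiv.inv G).toEmbedding) (fun g => starRingEnd ℂ (d g⁻¹))
    rw [hsq, Finset.sum_map, Finset.sum_map] at h1
    simpa only [Equiv.coe_toEmbedding, Equiv.inv_apply, inv_inv, RCLike.norm_conj] using h1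
  set q : K → K → ℂ := fun x y => q2 J Y B' m S x y with hq
  have hmove : ∀ g ∈ F, ‖q (B g η) θ - q η (B g⁻¹ θ)‖ ≤ 2 * ε * ‖η‖ * ‖θ‖ := by
    intro g hg
    refine q2_move hJ hY h0 hM hε0 (hQ g (Finset.mem_union_left _ hg)) (fun x S' => ?_) η θ
    have h1 := hQ g⁻¹ (Finset.mem_union_right _ (Finset.mem_image_of_mem _ hg)) x S'
    rwa [inv_inv] at h1
  set P := ∑ g ∈ F, d g • B g η with hPdef
  set P' := ∑ g ∈ F, (starRingEnd ℂ (d g)) • B g⁻¹ θ with hP'def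
  have e1 : q θ θ - q η η = q (θ - P) θ + (q P θ - q η P') - q η (η - P') := by
    simp only [hq]
    rw [q2_sub_left J Y B' m S, q2_sub_right J Y B' m S]
    ring
  have b1 : ‖q (θ - P) θ‖ ≤ δ * ‖η‖ := by
    refine (q2_bound hJ hY hM _ _).trans ?_
    rw [hnθ]
    exact mul_le_mul_of_nonneg_right hP hη0
  have b3 : ‖q η (η - P')‖ ≤ ‖η‖ * δ :=
    (q2_bound hJ hY hM _ _).trans (mul_le_mul_of_nonneg_left hP' hη0)
  have b2 : ‖q P θ - q η P'‖ ≤ σ * (2 * ε * ‖η‖ * ‖η‖) := by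
    have e2 : q P θ - q η P' = ∑ g ∈ F, (starRingEnd ℂ (d g)) * (q (B g η) θ - q η (B g⁻¹ θ)) := by
      simp only [hq, hPdef, hP'def]
      rw [q2_sum_left J Y B' m S, q2_sum_right J Y B' m S, ← Finset.sum_sub_distrib]
      exact Finset.sum_congr rfl fun g _ => by ring
    rw [e2, hσ, Finset.sum_mul]
    refine (norm_sum_le _ _).trans (Finset.sum_le_sum fun g hg => ?_)
    rw [norm_mul, RCLike.norm_conj]
    refine mul_le_mul_of_nonneg_left ?_ (norm_nonneg _)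
    have := hmove g hg
    rwa [hnθ] at this
  have hηη : ‖η‖ * ‖η‖ ≤ 1 := by nlinarith
  have hδη : 2 * (δ * ‖η‖) ≤ ε₁ / 2 := by
    rw [hδ]
    nlinarith
  have hεη : σ * (2 * ε * ‖η‖ * ‖η‖) ≤ ε₁ / 2 := by
    have h1 : ε * (8 * (σ + 1)) = ε₁ := by
      rw [hε]
      field_simp
    have h2 : σ * (2 * ε * ‖η‖ * ‖η‖) = 2 * ε * σ * (‖η‖ * ‖η‖) := by ring
    have h3 : 2 * ε * σ * (‖η‖ * ‖η‖) ≤ 2 * ε * σ * 1 :=
      mul_le_mul_of_nonneg_left hηη (by positivity)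
    rw [h2]
    nlinarith
  calc ‖q θ θ - q η η‖ = ‖q (θ - P) θ + (q P θ - q η P') - q η (η - P')‖ := by rw [e1]
    _ ≤ ‖q (θ - P) θ‖ + ‖q P θ - q η P'‖ + ‖q η (η - P')‖ :=
        (norm_sub_le _ _).trans (add_le_add (norm_add_le _ _) le_rfl)
    _ ≤ δ * ‖η‖ + σ * (2 * ε * ‖η‖ * ‖η‖) + ‖η‖ * δ := add_le_add (add_le_add b1 b2) b3
    _ ≤ ε₁ := by linarith

end main

private theorem g2_sqrt (a b : ℝ) (ha : 0 ≤ a) (hb : 0 ≤ b) : (√a - √b) ^ 2 ≤ |a - b| := by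
  have h1 : a - b = (√a - √b) * (√a + √b) := by
    have e1 := Real.mul_self_sqrt ha
    have e2 := Real.mul_self_sqrt hb
    nlinarith
  have hp : 0 ≤ √a + √b := add_nonneg (Real.sqrt_nonneg _) (Real.sqrt_nonneg _)
  rw [h1, abs_mul, abs_of_nonneg hp, ← sq_abs, sq]
  refine mul_le_mul_of_nonneg_left ?_ (abs_nonneg _)
  rw [abs_le]
  constructor <;> linarith [Real.sqrt_nonneg a, Real.sqrt_nonneg b]

/-- From an almost invariant density to almost invariant vectors. -/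
private theorem g2_core {Γ : Type} [Group Γ] {P : Γ → ℝ} (hP0 : ∀ m, 0 ≤ P m) {N : ℝ} (hN : 0 < N)
    (hPs : HasSum P N) {F : Finset Γ} {ε : ℝ} (hε : 0 < ε)
    (h : ∀ l ∈ F, ∀ f : Γ → ℝ, (∀ m, |f m| ≤ 1) →
      |(∑' m, f (l * m) * P m) - ∑' m, f m * P m| ≤ ε ^ 2 * N) :
    ∃ q : L2 Γ, ‖q‖ = 1 ∧ ∀ l ∈ F, ‖lamU l q - q‖ ≤ ε := by
  classical
  have hPl : ∀ l : Γ, HasSum (fun m => P (l⁻¹ * m)) N := fun l =>
    (Equiv.mulLeft l⁻¹).hasSum_iff.2 hPs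
  have hdiff : ∀ l ∈ F, Summable (fun m => |P (l⁻¹ * m) - P m|) ∧
      ∑' m, |P (l⁻¹ * m) - P m| ≤ ε ^ 2 * N := by
    intro l hl
    have hsum : Summable (fun m => |P (l⁻¹ * m) - P m|) :=
      ((hPl l).summable.sub hPs.summable).abs
    refine ⟨hsum, ?_⟩
    set f : Γ → ℝ := fun m => if 0 ≤ P (l⁻¹ * m) - P m then 1 else -1 with hf
    have hf1 : ∀ m, |f m| ≤ 1 := by
      intro m
      rw [hf]
      dsimp only
      split_ifs <;> simp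
    have h1 := h l hl f hf1
    have e2 : ∑' m, f (l * m) * P m = ∑' m, f m * P (l⁻¹ * m) := by
      have := Equiv.tsum_eq (Equiv.mulLeft l) (fun m => f m * P (l⁻¹ * m))
      rw [← this]
      refine tsum_congr fun m => ?_
      simp
    rw [e2] at h1
    have hb : ∀ g : Γ → ℝ, (∀ m, 0 ≤ g m) → Summable g → Summable fun m => f m * g m := by
      intro g hg hgs
      refine Summable.of_norm_bounded hgs fun m => ?_
      rw [Real.norm_eq_abs, abs_mul, abs_of_nonneg (hg m)]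
      calc |f m| * g m ≤ 1 * g m := mul_le_mul_of_nonneg_right (hf1 _) (hg m)
        _ = g m := one_mul _
    rw [← (hb _ (fun m => hP0 _) (hPl l).summable).tsum_sub (hb _ hP0 hPs.summable)] at h1
    refine le_trans (le_of_eq ?_) ((le_abs_self _).trans h1)
    refine tsum_congr fun m => ?_
    rw [← mul_sub, hf]
    dsimp only
    split_ifs with hc
    · rw [one_mul, abs_of_nonneg hc]
    · rw [abs_of_neg (not_le.1 hc)]
      ring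
  have hq2 : Summable fun m => ‖((√(P m / N) : ℝ) : ℂ)‖ ^ 2 := by
    have : (fun m => ‖((√(P m / N) : ℝ) : ℂ)‖ ^ 2) = fun m => P m / N := by
      funext m
      rw [Complex.norm_real, Real.norm_eq_abs, sq_abs, Real.sq_sqrt (div_nonneg (hP0 m) hN.le)]
    rw [this]
    exact hPs.summable.div_const N
  let q : L2 Γ := ⟨fun m => ((√(P m / N) : ℝ) : ℂ), memL2 hq2⟩
  have hqa : ∀ m, q m = ((√(P m / N) : ℝ) : ℂ) := fun m => rfl
  refine ⟨q, ?_, ?_⟩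
  · have h1 : ‖q‖ ^ 2 = 1 := by
      rw [norm_sq_eq]
      have : (fun m => ‖q m‖ ^ 2) = fun m => P m / N := by
        funext m
        rw [hqa, Complex.norm_real, Real.norm_eq_abs, sq_abs,
          Real.sq_sqrt (div_nonneg (hP0 m) hN.le)]
      rw [this, (hPs.div_const N).tsum_eq, div_self hN.ne']
    have h2 : ‖q‖ ^ 2 = 1 ^ 2 := by rw [h1, one_pow]
    exact (sq_eq_sq₀ (norm_nonneg _) zero_le_one).1 h2
  · intro l hl
    obtain ⟨hd1, hd2⟩ := hdiff l hl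
    have h2 : ‖lamU l q - q‖ ^ 2 ≤ ε ^ 2 := by
      rw [norm_sq_eq]
      have h3 : ∀ m, ‖(lamU l q - q) m‖ ^ 2 ≤ |P (l⁻¹ * m) - P m| / N := by
        intro m
        rw [lp.coeFn_sub, Pi.sub_apply, lamU_apply, hqa, hqa, ← Complex.ofReal_sub,
          Complex.norm_real, Real.norm_eq_abs, sq_abs]
        refine (g2_sqrt _ _ (div_nonneg (hP0 _) hN.le) (div_nonneg (hP0 _) hN.le)).trans ?_
        rw [← sub_div, abs_div, abs_of_pos hN]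
      calc ∑' m, ‖(lamU l q - q) m‖ ^ 2 ≤ ∑' m, |P (l⁻¹ * m) - P m| / N :=
            (summable_sq _).tsum_le_tsum h3 (hd1.div_const N)
        _ = (∑' m, |P (l⁻¹ * m) - P m|) / N := tsum_div_const
        _ ≤ ε ^ 2 := by
          rw [div_le_iff₀ hN]
          exact hd2
    exact (sq_le_sq₀ (norm_nonneg _) hε.le).1 h2

/-- Common finite set and common `ε` for finitely many approximation problems. -/
private theorem g2_common {ι G : Type} (s : Finset ι) (Q : ι → Finset G) (δ : ι → ℝ)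
    (hδ : ∀ i, 0 < δ i) : ∃ (Q₀ : Finset G) (δ₀ : ℝ), 0 < δ₀ ∧
      ∀ i ∈ s, Q i ⊆ Q₀ ∧ δ₀ ≤ δ i := by
  classical
  induction s using Finset.induction_on with
  | empty => exact ⟨∅, 1, one_pos, fun l hl => absurd hl (Finset.notMem_empty l)⟩
  | insert b s _ ih =>
    obtain ⟨Q₁, d, hd, hd'⟩ := ih
    refine ⟨Q₁ ∪ Q b, min d (δ b), lt_min hd (hδ b), fun l hl => ?_⟩
    rcases Finset.mem_insert.1 hl with rfl | hl
    · exact ⟨Finset.subset_union_right, min_le_right _ _⟩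
    · exact ⟨(hd' l hl).1.trans Finset.subset_union_left, (min_le_left _ _).trans (hd' l hl).2⟩

private theorem g2_hasSum {ι G K Kh W : Type} [Group G] [NormedAddCommGroup K] [InnerProductSpace ℂ K]
    [NormedAddCommGroup Kh] [InnerProductSpace ℂ Kh] [NormedAddCommGroup W] [InnerProductSpace ℂ W]
    (J : Kh →L[ℂ] W) (Yo : W →L[ℂ] W) (B' : G →* (Kh ≃ₗᵢ[ℂ] Kh)) (m : G → (K →L[ℂ] Kh)) (S : Finset G)
    (ξ : K) {v : ι → K} {ξ' : K} (h : HasSum v ξ') :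
    HasSum (fun i => q2 J Yo B' m S ξ (v i)) (q2 J Yo B' m S ξ ξ') := by
  unfold q2
  refine hasSum_sum fun t _ => ?_
  have h1 : HasSum (fun i => Yo (J (B' t⁻¹ (m t (v i))))) (Yo (J (B' t⁻¹ (m t ξ')))) :=
    (((Yo.comp J).comp ((B' t⁻¹).toContinuousLinearEquiv : Kh →L[ℂ] Kh)).comp (m t)).hasSum h
  exact h1.mapL (innerSL ℂ (J (B' t⁻¹ (m t ξ))))

private theorem g2_measure {X Λ : Type} [MeasurableSpace X] [Countable Λ] {ν : Measure X} [IsFiniteMeasure ν]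
    {c : X → Λ} (hc : ∀ l, MeasurableSet (c ⁻¹' {l})) :
    HasSum (fun l => (ν (c ⁻¹' {l})).toReal) (ν Set.univ).toReal := by
  have h1 : ν Set.univ = ∑' l, ν (c ⁻¹' {l}) := by
    rw [← measure_iUnion]
    · congr 1
      ext x
      simp
    · intro l l' hl
      rw [Function.onFun, Set.disjoint_left]
      rintro x hx hx'
      exact hl (hx.symm.trans hx')
    · exact fun l => hc l
  have h2 : ∑' l, ν (c ⁻¹' {l}) ≠ ⊤ := by
    rw [← h1]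
    exact measure_ne_top ν _
  have h3 := ENNReal.hasSum_toReal h2
  rwa [← ENNReal.tsum_toReal_eq (fun l => measure_ne_top ν _), ← h1] at h3

section gap

variable {C X Λ G : Type} [Group C] [MulAction C X]
  [MeasurableSpace X] [MeasurableConstSMul C X] [Group Λ] [Countable Λ] [Group G]

/-- The difference of the forms at `R f η` and at `η`, uniformly in the spaces. -/
private theorem g2_R (a : Cocy C X Λ) (E : Emb Λ G) (ν : Measure X) [IsFiniteMeasure ν] (f : C) {ε₁ : ℝ}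
    (hε₁ : 0 < ε₁) : ∃ (Q : Finset G) (δ : ℝ), 0 < δ ∧
      ∀ (K Kh W : Type) [NormedAddCommGroup K] [InnerProductSpace ℂ K] [CompleteSpace K]
      [NormedAddCommGroup Kh] [InnerProductSpace ℂ Kh]
      [NormedAddCommGroup W] [InnerProductSpace ℂ W] (M : XM C X K) (A B : G →* (K ≃ₗᵢ[ℂ] K))
      (B' : G →* (Kh ≃ₗᵢ[ℂ] Kh)), MRep M A B → ∀ (η : K), BddX M ν B η → ‖η‖ ≤ 1 →
      ∀ (S : Finset G) (m : G → (K →L[ℂ] Kh)),
      (∀ t, t ∉ S → m t = 0) → (∀ x, ∑ t ∈ S, ‖m t x‖ ^ 2 ≤ ‖x‖ ^ 2) →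
      (∀ h ∈ Q, ∀ x, ∀ S' : Finset G,
        ∑ t ∈ S', ‖m t (B h x) - B' h (m (h⁻¹ * t) x)‖ ^ 2 ≤ δ ^ 2 * ‖x‖ ^ 2) →
      ∀ (J : Kh →L[ℂ] W) (Yo : W →L[ℂ] W), (∀ x, ‖J x‖ ≤ ‖x‖) → (∀ w, ‖Yo w‖ ≤ ‖w‖) →
        (∀ D : Set X, MeasurableSet D → ∀ ξ ξ',
          q2 J Yo B' m S (M.py.p D ξ) ξ' = q2 J Yo B' m S ξ (M.py.p D ξ')) →
        ‖q2 J Yo B' m S (opR M a (CRep.ext B E.conj) f η) (opR M a (CRep.ext B E.conj) f η) -
          q2 J Yo B' m S η η‖ ≤ ε₁ := by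
  classical
  set c : X → Λ := a.a f with hc
  have hcm : Mea c := a.meas f
  have hNν : HasSum (fun l => (ν (c ⁻¹' {l})).toReal) (ν Set.univ).toReal := g2_measure hcm
  -- a finite set carrying most of the measure
  obtain ⟨Λ0, hΛ0⟩ : ∃ Λ0 : Finset Λ,
      (ν Set.univ).toReal - ∑ l ∈ Λ0, (ν (c ⁻¹' {l})).toReal < ε₁ / 4 := by
    have h2 := (Metric.tendsto_atTop.1 hNν) (ε₁ / 4) (by positivity)
    obtain ⟨Λ0, h3⟩ := h2
    refine ⟨Λ0, ?_⟩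
    have h4 := h3 Λ0 le_rfl
    rw [dist_comm, Real.dist_eq] at h4
    exact (le_abs_self _).trans_lt h4
  have hε₂ : 0 < ε₁ / (2 * (Λ0.card : ℝ) + 2) := by positivity
  have hmain := fun l : Λ => q2_main E.conj (Real.sqrt_nonneg (ν (c ⁻¹' {l})).toReal) l hε₂
  choose Q δ hδ hQ using hmain
  obtain ⟨Q₀, δ₀, hδ₀, hQ₀⟩ := g2_common Λ0 Q δ hδ
  refine ⟨Q₀, δ₀, hδ₀, ?_⟩
  intro K Kh W _ _ _ _ _ _ _ M A B B' h1 η hη hη1 S m hm0 hm1 hm2 J Yo hJ hY hp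
  have hU : UHom M (CRep.ext B E.conj) := uhom_ext E.conj h1.hB
  have hN : HasSum (fun l => ‖M.py.p (c ⁻¹' {l}) η‖ ^ 2) (‖η‖ ^ 2) := M.py.norm_sq_sum hcm η
  have hν : ∀ l, ‖M.py.p (c ⁻¹' {l}) η‖ ^ 2 ≤ (ν (c ⁻¹' {l})).toReal := by
    intro l
    have h2 := (hη (c ⁻¹' {l}) (hcm l)).2 {1} (fun _ => 1)
    rw [Real.sq_sqrt ENNReal.toReal_nonneg] at h2
    simpa using h2
  have htail : ‖η‖ ^ 2 - ∑ l ∈ Λ0, ‖M.py.p (c ⁻¹' {l}) η‖ ^ 2 ≤ ε₁ / 4 := by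
    have h2 : HasSum (fun l => (ν (c ⁻¹' {l})).toReal - ‖M.py.p (c ⁻¹' {l}) η‖ ^ 2)
        ((ν Set.univ).toReal - ‖η‖ ^ 2) := hNν.sub hN
    have h3 := sum_le_hasSum Λ0 (fun l _ => sub_nonneg.2 (hν l)) h2
    rw [Finset.sum_sub_distrib] at h3
    linarith
  have hidem : ∀ l ξ, M.py.p (c ⁻¹' {l}) (M.py.p (c ⁻¹' {l}) ξ) = M.py.p (c ⁻¹' {l}) ξ := by
    intro l ξ
    rw [M.py.inter _ _ (hcm l) (hcm l), Set.inter_self]
  have hexp : ∀ ξ : K, HasSum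
      (fun l => q2 J Yo B' m S (M.py.p (c ⁻¹' {l}) ξ) (M.py.p (c ⁻¹' {l}) ξ))
      (q2 J Yo B' m S ξ ξ) := by
    intro ξ
    have h2 := g2_hasSum J Yo B' m S ξ (M.py.sum Λ c hcm ξ)
    have h3 : (fun l => q2 J Yo B' m S (M.py.p (c ⁻¹' {l}) ξ) (M.py.p (c ⁻¹' {l}) ξ)) =
        fun l => q2 J Yo B' m S ξ (M.py.p (c ⁻¹' {l}) ξ) := by
      funext l
      rw [hp _ (hcm l), hidem]
    rw [h3]
    exact h2
  have hR : ∀ l, M.py.p (c ⁻¹' {l}) (opR M a (CRep.ext B E.conj) f η) =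
      ext B E.conj l (M.py.p (c ⁻¹' {l}) η) := by
    intro l
    unfold opR
    rw [tw_at M.py (CRep.ext B E.conj) hU.py hcm l η]
    exact hU.py _ (hcm l) l η
  have hsum := (hexp (opR M a (CRep.ext B E.conj) f η)).sub (hexp η)
  simp only [hR] at hsum
  -- the bound for the terms
  have hd1 : ∀ l, ‖q2 J Yo B' m S (ext B E.conj l (M.py.p (c ⁻¹' {l}) η))
      (ext B E.conj l (M.py.p (c ⁻¹' {l}) η)) -
      q2 J Yo B' m S (M.py.p (c ⁻¹' {l}) η) (M.py.p (c ⁻¹' {l}) η)‖ ≤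
      2 * ‖M.py.p (c ⁻¹' {l}) η‖ ^ 2 := by
    intro l
    refine (norm_sub_le _ _).trans ?_
    have h3 := q2_bound (B' := B') hJ hY hm1 (ext B E.conj l (M.py.p (c ⁻¹' {l}) η))
      (ext B E.conj l (M.py.p (c ⁻¹' {l}) η))
    have h4 := q2_bound (B' := B') hJ hY hm1 (M.py.p (c ⁻¹' {l}) η) (M.py.p (c ⁻¹' {l}) η)
    have h5 := norm_ext_le B E.conj l (M.py.p (c ⁻¹' {l}) η)
    have h6 : ‖ext B E.conj l (M.py.p (c ⁻¹' {l}) η)‖ * ‖ext B E.conj l (M.py.p (c ⁻¹' {l}) η)‖ ≤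
        ‖M.py.p (c ⁻¹' {l}) η‖ * ‖M.py.p (c ⁻¹' {l}) η‖ :=
      mul_le_mul h5 h5 (norm_nonneg _) (norm_nonneg _)
    nlinarith
  have hpn : ∀ l, ‖M.py.p (c ⁻¹' {l}) η‖ ≤ 1 := by
    intro l
    have h2 : ‖M.py.p (c ⁻¹' {l}) η‖ ^ 2 ≤ ‖η‖ ^ 2 :=
      le_hasSum hN l fun _ _ => sq_nonneg _
    exact ((sq_le_sq₀ (norm_nonneg _) (norm_nonneg _)).1 h2).trans hη1
  have hd2 : ∀ l ∈ Λ0, ‖q2 J Yo B' m S (ext B E.conj l (M.py.p (c ⁻¹' {l}) η))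
      (ext B E.conj l (M.py.p (c ⁻¹' {l}) η)) -
      q2 J Yo B' m S (M.py.p (c ⁻¹' {l}) η) (M.py.p (c ⁻¹' {l}) η)‖ ≤
      ε₁ / (2 * (Λ0.card : ℝ) + 2) := by
    intro l hl
    refine hQ l K Kh W B B' (M.py.p (c ⁻¹' {l}) η) (hη _ (hcm l)) (hpn l) S m hm0 hm1
      (fun h hh x S' => ?_) J Yo hJ hY
    refine (hm2 h ((hQ₀ l hl).1 hh) x S').trans ?_
    exact mul_le_mul_of_nonneg_right (pow_le_pow_left₀ hδ₀.le (hQ₀ l hl).2 2) (sq_nonneg _)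
  have hg : HasSum (fun l => (if l ∈ Λ0 then ε₁ / (2 * (Λ0.card : ℝ) + 2) -
      2 * ‖M.py.p (c ⁻¹' {l}) η‖ ^ 2 else 0) + 2 * ‖M.py.p (c ⁻¹' {l}) η‖ ^ 2)
      ((∑ l ∈ Λ0, (if l ∈ Λ0 then ε₁ / (2 * (Λ0.card : ℝ) + 2) -
      2 * ‖M.py.p (c ⁻¹' {l}) η‖ ^ 2 else 0)) + 2 * ‖η‖ ^ 2) :=
    (hasSum_sum_of_ne_finset_zero fun l hl => if_neg hl).add (hN.mul_left 2)
  have hle := tsum_of_norm_bounded hg (f := fun l =>
      q2 J Yo B' m S (ext B E.conj l (M.py.p (c ⁻¹' {l}) η))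
      (ext B E.conj l (M.py.p (c ⁻¹' {l}) η)) -
      q2 J Yo B' m S (M.py.p (c ⁻¹' {l}) η) (M.py.p (c ⁻¹' {l}) η)) (fun l => by
    by_cases hl : l ∈ Λ0
    · rw [if_pos hl, sub_add_cancel]
      exact hd2 l hl
    · rw [if_neg hl, zero_add]
      exact hd1 l)
  rw [hsum.tsum_eq] at hle
  refine hle.trans ?_
  rw [Finset.sum_congr rfl fun l hl => if_pos hl, Finset.sum_sub_distrib, Finset.sum_const,
    nsmul_eq_mul, ← Finset.mul_sum]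
  have h7 : (Λ0.card : ℝ) * (ε₁ / (2 * (Λ0.card : ℝ) + 2)) ≤ ε₁ / 2 := by
    have h8 : (0 : ℝ) ≤ Λ0.card := Nat.cast_nonneg _
    rw [mul_div_assoc', div_le_div_iff₀ (by positivity) (by positivity)]
    nlinarith
  linarith

/-- The gap for two spaces: bounded vectors with `∑ ‖m t η‖² ≥ θ` are moved, uniformly in the spaces. -/
theorem gap2 {L0 : Type} [NormedAddCommGroup L0] [InnerProductSpace ℂ L0] [CompleteSpace L0]
    (a : Cocy C X Λ) (E : Emb Λ G) (F : Subgroup C) (I0 : Imp F X L0) (hF : NonAm F)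
    (ν : Measure X) [IsFiniteMeasure ν] {θ : ℝ} (hθ : 0 < θ) :
    ∃ (Q : Finset F) (κ : ℝ) (Q₀ : Finset G) (δ₀ : ℝ), 0 < κ ∧ 0 < δ₀ ∧
      ∀ (K Kh : Type) [NormedAddCommGroup K] [InnerProductSpace ℂ K] [CompleteSpace K]
      [NormedAddCommGroup Kh] [InnerProductSpace ℂ Kh] [CompleteSpace Kh]
      (M : XM C X K) (A B : G →* (K ≃ₗᵢ[ℂ] K)) (M' : XM C X Kh) (A' B' : G →* (Kh ≃ₗᵢ[ℂ] Kh)),
      MRep M A B → MRep M' A' B' →
      (∀ ξ : Kh, (∀ T : L0 →L[ℂ] Kh, (∀ (f : F) x, T (I0.V f x) = opL M' a (CRep.ext A' E) f (T x)) →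
        (∀ (D : Set X), MeasurableSet D → ∀ x, T (I0.P0.p D x) = M'.py.p D (T x)) →
        ∀ x, (inner ℂ ξ (T x) : ℂ) = 0) → ξ = 0) →
      ∀ (S : Finset G) (m : G → (K →L[ℂ] Kh)), (∀ t, M.Hom M' (m t)) → (∀ t g x, m t (A g x) = A' g (m t x)) →
      (∀ t, t ∉ S → m t = 0) → (∀ x, ∑ t ∈ S, ‖m t x‖ ^ 2 ≤ ‖x‖ ^ 2) →
      (∀ h ∈ Q₀, ∀ x, ∀ S' : Finset G,
        ∑ t ∈ S', ‖m t (B h x) - B' h (m (h⁻¹ * t) x)‖ ^ 2 ≤ δ₀ ^ 2 * ‖x‖ ^ 2) →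
      ∀ η : K, BddX M ν B η → ‖η‖ = 1 → θ ≤ ∑ t ∈ S, ‖m t η‖ ^ 2 →
        ∃ f ∈ Q, κ ≤ ‖sgm M a (CRep.ext A E) (CRep.ext B E.conj) (f : C) η - η‖ := by
  classical
  obtain ⟨Q, ε₀, hε₀, hgap⟩ := hF
  set ε : ℝ := ε₀ / 2 with hε'
  have hε : 0 < ε := by positivity
  set κ : ℝ := ε ^ 2 * θ / 4 with hκ'
  have hκ : 0 < κ := by positivity
  have hR := fun f : F => g2_R (G := G) a E ν (f : C) (ε₁ := ε ^ 2 * θ / 4) (by positivity)
  choose Qf δ hδ hQ using hR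
  obtain ⟨Q₀, δ₀, hδ₀, hQ₀⟩ := g2_common Q Qf δ hδ
  refine ⟨Q, κ, Q₀, δ₀, hκ, hδ₀, ?_⟩
  intro K Kh _ _ _ _ _ _ M A B M' A' B' h1 h1' hreg S m hm1 hm2 hm3 hm4 hm5 η hη hη1 hηθ
  by_contra hcon
  push Not at hcon
  have hUA : UHom M (CRep.ext A E) := uhom_ext E h1.hA
  have hUA' : UHom M' (CRep.ext A' E) := uhom_ext E h1'.hA
  have hUB : UHom M (CRep.ext B E.conj) := uhom_ext E.conj h1.hB
  let sO : F ⊕ {D : Set X // MeasurableSet D} → (L0 →L[ℂ] L0) :=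
    Sum.elim (fun f => ((I0.V f).toContinuousLinearEquiv : L0 →L[ℂ] L0)) (fun D => I0.P0.p D.1)
  let kO : F ⊕ {D : Set X // MeasurableSet D} → (Kh →L[ℂ] Kh) :=
    Sum.elim (fun f => opL M' a (CRep.ext A' E) (f : C)) (fun D => M'.py.p D.1)
  let ιO : F ⊕ {D : Set X // MeasurableSet D} → F ⊕ {D : Set X // MeasurableSet D} :=
    Sum.elim (fun f => Sum.inl f⁻¹) Sum.inr
  obtain ⟨Y, J, z, hJz, hz1, hzs, hzT, hzc, hJk⟩ := exists_GJ sO kO ιO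
    (by
      rintro (f | D) x y
      · exact (CRep.ofU I0.V).adj f x y
      · exact I0.P0.symm D.1 D.2 x y)
    (by
      rintro (f | D) x y
      · exact opL_adj M' a hUA' (f : C) x y
      · exact M'.py.symm D.1 D.2 x y)
  have hJV : ∀ (f : F) (x : Kh) (y : Y), J (opL M' a (CRep.ext A' E) (f : C) x) y = I0.V f (J x y) :=
    fun f x y => hJk (Sum.inl f) x y
  have hJP : ∀ (D : Set X), MeasurableSet D → ∀ (x : Kh) (y : Y),
      J (M'.py.p D x) y = I0.P0.p D (J x y) := fun D hD x y => hJk (Sum.inr ⟨D, hD⟩) x y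
  have hJ1 : ∀ x, ‖J x‖ ≤ ‖x‖ := fun x => (hJz x).le.trans (hz1 x)
  have hzall : ∀ ξ, z ξ = ξ := by
    intro ξ
    refine (sub_eq_zero.1 (hreg (ξ - z ξ) fun T hTV hTP x => ?_)).symm
    have hT : z (T x) = T x := by
      refine hzT T ?_ x
      rintro (f | D) x
      · exact hTV f x
      · exact hTP D.1 D.2 x
    rw [inner_sub_left, hzs, hT, sub_self]
  set N : ℝ := ∑ t ∈ S, ‖m t η‖ ^ 2 with hNdef
  have hN : 0 < N := hθ.trans_le hηθ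
  have hBL : ∀ (t : G) (f : C) (x : Kh), B' t (opL M' a (CRep.ext A' E) f x) =
      opL M' a (CRep.ext A' E) f (B' t x) := fun t f x =>
    opL_nat M' a hUA' hUA' (T := ((B' t).toContinuousLinearEquiv : Kh →L[ℂ] Kh)) (h1'.hB t)
      (fun l ξ => map_ext (T := ((B' t).toContinuousLinearEquiv : Kh →L[ℂ] Kh))
        (fun g x => (h1'.comm2 g t x).symm) E l ξ) f x
  have hmL : ∀ (t : G) (f : C) (x : K), m t (opL M a (CRep.ext A E) f x) =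
      opL M' a (CRep.ext A' E) f (m t x) := fun t f x =>
    opL_nat M a hUA hUA' (hm1 t) (fun l ξ => map_ext (hm2 t) E l ξ) f x
  have hBP : ∀ (t : G) (D : Set X), MeasurableSet D → ∀ x : Kh, B' t (M'.py.p D x) =
      M'.py.p D (B' t x) := fun t D hD x => (h1'.hB t).y D hD x
  have hmP : ∀ (t : G) (D : Set X), MeasurableSet D → ∀ x : K, m t (M.py.p D x) =
      M'.py.p D (m t x) := fun t D hD x => (hm1 t).y D hD x
  have hqp : ∀ φ : F → ℝ, (∀ g, |φ g| ≤ 1) → ∀ D : Set X, MeasurableSet D → ∀ ξ ξ' : K,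
      q2 J (Phi I0 Y φ) B' m S (M.py.p D ξ) ξ' = q2 J (Phi I0 Y φ) B' m S ξ (M.py.p D ξ') := by
    intro φ hφ D hD ξ ξ'
    unfold q2
    refine Finset.sum_congr rfl fun t _ => ?_
    rw [hmP t D hD, hBP t⁻¹ D hD, hmP t D hD, hBP t⁻¹ D hD]
    exact inner_Phi_p I0 hφ hD (fun y => hJP D hD _ y) (fun y => hJP D hD _ y)
  have hqL : ∀ φ : F → ℝ, (∀ g, |φ g| ≤ 1) → ∀ (f : F) (ξ ξ' : K),
      q2 J (Phi I0 Y φ) B' m S (opL M a (CRep.ext A E) (f : C) ξ)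
        (opL M a (CRep.ext A E) (f : C) ξ') =
      q2 J (Phi I0 Y fun g => φ (f * g)) B' m S ξ ξ' := by
    intro φ hφ f ξ ξ'
    unfold q2
    refine Finset.sum_congr rfl fun t _ => ?_
    rw [hmL, hBL, hmL, hBL]
    exact inner_Phi_V I0 hφ f (fun y => hJV f _ y) (fun y => hJV f _ y)
  set P : F → ℝ := fun g => ∑ t ∈ S, ∑' y, ‖I0.e g (J (B' t⁻¹ (m t η)) y)‖ ^ 2 with hP
  have hP0 : ∀ g, 0 ≤ P g := fun g => Finset.sum_nonneg fun t _ => tsum_nonneg fun y => sq_nonneg _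
  have hPs : HasSum P N := by
    have h2 : HasSum P (∑ t ∈ S, ‖J (B' t⁻¹ (m t η))‖ ^ 2) :=
      hasSum_sum fun t _ => (inner_Phi I0 (φ := fun _ => 1) (fun _ => by simp)
        (J (B' t⁻¹ (m t η)))).2.2
    have h3 : ∑ t ∈ S, ‖J (B' t⁻¹ (m t η))‖ ^ 2 = N := by
      rw [hNdef]
      refine Finset.sum_congr rfl fun t _ => ?_
      rw [hJz, hzall, LinearIsometryEquiv.norm_map]
    rw [h3] at h2
    exact h2
  have hqη : ∀ φ : F → ℝ, (∀ g, |φ g| ≤ 1) →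
      HasSum (fun g => φ g * P g) (q2 J (Phi I0 Y φ) B' m S η η).re := by
    intro φ hφ
    have h2 : HasSum (fun g => ∑ t ∈ S, φ g * ∑' y, ‖I0.e g (J (B' t⁻¹ (m t η)) y)‖ ^ 2)
        (∑ t ∈ S, (inner ℂ (J (B' t⁻¹ (m t η))) (Phi I0 Y φ (J (B' t⁻¹ (m t η))))).re) :=
      hasSum_sum fun t _ => (inner_Phi I0 hφ (J (B' t⁻¹ (m t η)))).1
    have h3 : (fun g => φ g * P g) =
        fun g => ∑ t ∈ S, φ g * ∑' y, ‖I0.e g (J (B' t⁻¹ (m t η)) y)‖ ^ 2 := by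
      funext g
      rw [hP]
      exact Finset.mul_sum _ _ _
    rw [h3]
    unfold q2
    rw [Complex.re_sum]
    exact h2
  obtain ⟨q, hq, hq2⟩ : ∃ q : L2 F, ‖q‖ = 1 ∧ ∀ l ∈ Q, ‖lamU l q - q‖ ≤ ε := by
    refine g2_core hP0 hN hPs hε fun f hf φ hφ => ?_
    have hφ' : ∀ g, |φ (f * g)| ≤ 1 := fun g => hφ _
    rw [(hqη (fun g => φ (f * g)) hφ').tsum_eq, (hqη φ hφ).tsum_eq, ← Complex.sub_re]
    refine (Complex.abs_re_le_norm _).trans ?_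
    have hφφ : ‖q2 J (Phi I0 Y φ) B' m S (sgm M a (CRep.ext A E) (CRep.ext B E.conj) (f : C) η)
        (sgm M a (CRep.ext A E) (CRep.ext B E.conj) (f : C) η) - q2 J (Phi I0 Y φ) B' m S η η‖ ≤ 2 * κ := by
      set η1 := sgm M a (CRep.ext A E) (CRep.ext B E.conj) (f : C) η with hη1d
      have hn1 : ‖η1‖ ≤ 1 := by
        have := norm_sgm_le M a hUA hUB (f : C) η
        rwa [hη1] at this
      have e : q2 J (Phi I0 Y φ) B' m S η1 η1 - q2 J (Phi I0 Y φ) B' m S η η =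
          q2 J (Phi I0 Y φ) B' m S (η1 - η) η1 + q2 J (Phi I0 Y φ) B' m S η (η1 - η) := by
        rw [q2_sub_left, q2_sub_right]
        ring
      rw [e]
      refine (norm_add_le _ _).trans ?_
      have b1 := q2_bound (B' := B') hJ1 (norm_Phi_le I0 hφ) hm4 (η1 - η) η1
      have b2 := q2_bound (B' := B') hJ1 (norm_Phi_le I0 hφ) hm4 η (η1 - η)
      have b3 := (hcon f hf).le
      rw [hη1] at b2
      nlinarith [norm_nonneg (η1 - η), norm_nonneg η1]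
    have e3 : q2 J (Phi I0 Y φ) B' m S (sgm M a (CRep.ext A E) (CRep.ext B E.conj) (f : C) η)
        (sgm M a (CRep.ext A E) (CRep.ext B E.conj) (f : C) η) = q2 J (Phi I0 Y fun g => φ (f * g)) B' m S
        (opR M a (CRep.ext B E.conj) (f : C) η) (opR M a (CRep.ext B E.conj) (f : C) η) := by
      rw [← hqL φ hφ f]
      rfl
    rw [e3] at hφφ
    have h9 : ‖q2 J (Phi I0 Y fun g => φ (f * g)) B' m S
        (opR M a (CRep.ext B E.conj) (f : C) η) (opR M a (CRep.ext B E.conj) (f : C) η) -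
        q2 J (Phi I0 Y fun g => φ (f * g)) B' m S η η‖ ≤ ε ^ 2 * θ / 4 := by
      refine hQ f K Kh (Lv Y L0) M A B B' h1 η hη hη1.le S m hm3 hm4 (fun h hh x S' => ?_) J _ hJ1
        (norm_Phi_le I0 hφ') (hqp _ hφ')
      refine (hm5 h ((hQ₀ f hf).1 hh) x S').trans ?_
      exact mul_le_mul_of_nonneg_right (pow_le_pow_left₀ hδ₀.le (hQ₀ f hf).2 2) (sq_nonneg _)
    calc ‖q2 J (Phi I0 Y fun g => φ (f * g)) B' m S η η - q2 J (Phi I0 Y φ) B' m S η η‖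
        ≤ ‖q2 J (Phi I0 Y fun g => φ (f * g)) B' m S η η - q2 J (Phi I0 Y fun g => φ (f * g)) B' m S
          (opR M a (CRep.ext B E.conj) (f : C) η) (opR M a (CRep.ext B E.conj) (f : C) η)‖ +
          ‖q2 J (Phi I0 Y fun g => φ (f * g)) B' m S
          (opR M a (CRep.ext B E.conj) (f : C) η) (opR M a (CRep.ext B E.conj) (f : C) η) -
          q2 J (Phi I0 Y φ) B' m S η η‖ := norm_sub_le_norm_sub_add_norm_sub _ _ _
      _ ≤ ε ^ 2 * θ / 4 + 2 * κ := add_le_add (by rw [norm_sub_rev]; exact h9) hφφ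
      _ ≤ ε ^ 2 * N := by
        rw [hκ']
        nlinarith [sq_nonneg ε, mul_nonneg (sq_nonneg ε) (sub_nonneg.2 hηθ), mul_nonneg (sq_nonneg ε) hθ.le]
  obtain ⟨g, hg, hg2⟩ := hgap q hq
  have := hq2 g hg
  linarith

end gap

end Pool.Agent.Helper55.FP
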