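import Pool.Agent.Helper55.FP.Cov

/-!
# Project FP (MP_0f6f3f_an): paradoxical sets and the gap of `u ⊗ v`

If `u` has a covariant finitely additive measure `CovP u` on `F` and `F` has disjoint sets `A, A', B, B'` with `A ∪ aA' = F = B ∪ bB'`, then for each unitary representation `v` on each inner product space the
representation `u ⊗ v` has the explicit gap `1/4` for `a`, `b`, also with phases.
-/

set_option autoImplicit false

open scoped ComplexConjugate TensorProduct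

namespace Pool.Agent.Helper55.FP

section psd

variable {T : Type*} [NormedAddCommGroup T] [InnerProductSpace ℂ T]

theorem form_smul (Q : T →ₗ[ℂ] T) {c : ℂ} (hc : ‖c‖ = 1) (ξ : T) :
    (inner ℂ (c • ξ) (Q (c • ξ)) : ℂ).re = (inner ℂ ξ (Q ξ) : ℂ).re := by
  rw [map_smul, inner_smul_left, inner_smul_right, ← mul_assoc, ← Complex.normSq_eq_conj_mul_self,
    Complex.normSq_eq_norm_sq, hc]
  simp

/-- A positive form bounded by the norm is Lipschitz. -/
theorem form_sub_le (Q : T →ₗ[ℂ] T) (hs : ∀ x y, (inner ℂ (Q x) y : ℂ) = inner ℂ x (Q y))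
    (h0 : ∀ x, 0 ≤ (inner ℂ x (Q x) : ℂ).re) (h1 : ∀ x, (inner ℂ x (Q x) : ℂ).re ≤ ‖x‖ ^ 2) (ξ η : T) :
    (inner ℂ ξ (Q ξ) : ℂ).re - (inner ℂ η (Q η) : ℂ).re ≤ ‖ξ - η‖ * (‖ξ‖ + ‖η‖) := by
  set p : T → T → ℝ := fun x y => (inner ℂ x (Q y) : ℂ).re with hp
  have hsymm : ∀ x y, p x y = p y x := by
    intro x y
    show (inner ℂ x (Q y) : ℂ).re = (inner ℂ y (Q x) : ℂ).re
    rw [← hs, ← inner_conj_symm, Complex.conj_re]
  set ζ := ξ - η with hζ
  have hξ : ξ = η + ζ := by rw [hζ]; abel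
  have hadd : ∀ (t : ℝ) (x y : T), p (x + (t : ℂ) • y) (x + (t : ℂ) • y) =
      p x x + 2 * t * p x y + t ^ 2 * p y y := by
    intro t x y
    have h1 : p (x + (t : ℂ) • y) (x + (t : ℂ) • y) = p x x + t * p x y + t * p y x + t ^ 2 * p y y := by
      simp only [hp]
      rw [map_add, map_smul, inner_add_left, inner_add_right, inner_add_right, inner_smul_left, inner_smul_left,
        inner_smul_right, inner_smul_right]
      simp only [Complex.add_re, Complex.conj_ofReal, Complex.re_ofReal_mul]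
      ring
    rw [h1, hsymm y x]
    ring
  have hcs : p η ζ ^ 2 ≤ p η η * p ζ ζ := by
    have h1 : ∀ t : ℝ, 0 ≤ p ζ ζ * (t * t) + (2 * p η ζ) * t + p η η := by
      intro t
      have h2 : 0 ≤ p (η + (t : ℂ) • ζ) (η + (t : ℂ) • ζ) := h0 _
      rw [hadd] at h2
      linarith [h2]
    have h3 := discrim_le_zero h1
    unfold discrim at h3
    nlinarith
  have hη0 : 0 ≤ p η η := h0 η
  have hζ0 : 0 ≤ p ζ ζ := h0 ζ
  have hξ0 : 0 ≤ p ξ ξ := h0 ξ
  have e1 : p ξ ξ = p η η + 2 * p η ζ + p ζ ζ := by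
    have := hadd 1 η ζ
    rw [Complex.ofReal_one, one_smul, ← hξ] at this
    linarith
  have h2 : p η ζ ≤ Real.sqrt (p η η) * Real.sqrt (p ζ ζ) := by
    rw [← Real.sqrt_mul hη0]
    exact Real.le_sqrt_of_sq_le hcs
  have h3 : Real.sqrt (p ξ ξ) ≤ Real.sqrt (p η η) + Real.sqrt (p ζ ζ) := by
    rw [Real.sqrt_le_left (by positivity), e1]
    nlinarith [Real.sq_sqrt hη0, Real.sq_sqrt hζ0, Real.sqrt_nonneg (p η η), Real.sqrt_nonneg (p ζ ζ)]
  have hle : ∀ x, Real.sqrt (p x x) ≤ ‖x‖ := by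
    intro x
    rw [Real.sqrt_le_left (norm_nonneg _)]
    exact h1 x
  have h4 := hle ζ
  have hx1 := hle ξ
  have hy1 := hle η
  have e2 := Real.sq_sqrt hξ0
  have e3 := Real.sq_sqrt hη0
  have n1 := Real.sqrt_nonneg (p ξ ξ)
  have n2 := Real.sqrt_nonneg (p η η)
  have n3 := norm_nonneg ζ
  have h5 : (Real.sqrt (p ξ ξ) - Real.sqrt (p η η)) * (Real.sqrt (p ξ ξ) + Real.sqrt (p η η)) ≤
      ‖ζ‖ * (Real.sqrt (p ξ ξ) + Real.sqrt (p η η)) :=
    mul_le_mul_of_nonneg_right (by linarith) (by positivity)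
  have h6 : ‖ζ‖ * (Real.sqrt (p ξ ξ) + Real.sqrt (p η η)) ≤ ‖ζ‖ * (‖ξ‖ + ‖η‖) :=
    mul_le_mul_of_nonneg_left (by linarith) n3
  show p ξ ξ - p η η ≤ ‖ζ‖ * (‖ξ‖ + ‖η‖)
  nlinarith

end psd

section tens

variable {U V : Type*} [NormedAddCommGroup U] [InnerProductSpace ℂ U]
  [NormedAddCommGroup V] [InnerProductSpace ℂ V]

/-- Each tensor is a finite sum `∑ x i ⊗ v i` with `v` orthonormal. -/
theorem exists_orth (ξ : U ⊗[ℂ] V) : ∃ (n : ℕ) (x : Fin n → U) (v : Fin n → V),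
    Orthonormal ℂ v ∧ ξ = ∑ i, x i ⊗ₜ[ℂ] v i := by
  classical
  obtain ⟨n, s, t, hs⟩ : ∃ (n : ℕ) (s : Fin n → U) (t : Fin n → V), ξ = ∑ i, s i ⊗ₜ[ℂ] t i := by
    induction ξ using TensorProduct.induction_on with
    | zero => exact ⟨0, Fin.elim0, Fin.elim0, by simp⟩
    | tmul x y => exact ⟨1, fun _ => x, fun _ => y, by simp⟩
    | add a b ha hb =>
      obtain ⟨n, s, t, h1⟩ := ha
      obtain ⟨m, s', t', h2⟩ := hb
      refine ⟨n + m, Fin.append s s', Fin.append t t', ?_⟩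
      rw [Fin.sum_univ_add, h1, h2]
      simp
  let W : Submodule ℂ V := Submodule.span ℂ (Set.range t)
  have : FiniteDimensional ℂ W := FiniteDimensional.span_of_finite ℂ (Set.finite_range t)
  let e := stdOrthonormalBasis ℂ W
  have ht : ∀ i, t i = ∑ j, (inner ℂ ((e j : W) : V) (t i) : ℂ) • ((e j : W) : V) := by
    intro i
    have h1 := e.sum_repr' ⟨t i, Submodule.subset_span ⟨i, rfl⟩⟩
    have h2 := congrArg (fun w : W => (w : V)) h1
    simp only [Submodule.coe_sum, Submodule.coe_smul, Submodule.coe_inner] at h2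
    exact h2.symm
  refine ⟨_, fun j => ∑ i, (inner ℂ ((e j : W) : V) (t i) : ℂ) • s i, fun j => ((e j : W) : V), ?_, ?_⟩
  · exact e.orthonormal.comp_linearIsometry W.subtypeₗᵢ
  · rw [hs]
    calc ∑ i, s i ⊗ₜ[ℂ] t i = ∑ i, ∑ j, ((inner ℂ ((e j : W) : V) (t i) : ℂ) • s i) ⊗ₜ[ℂ] ((e j : W) : V) := by
          refine Finset.sum_congr rfl fun i _ => ?_
          conv_lhs => rw [ht i]
          rw [TensorProduct.tmul_sum]
          refine Finset.sum_congr rfl fun j _ => ?_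
          rw [TensorProduct.tmul_smul, TensorProduct.smul_tmul']
      _ = _ := by
          rw [Finset.sum_comm]
          refine Finset.sum_congr rfl fun j _ => ?_
          rw [TensorProduct.sum_tmul]

/-- `T ⊗ 1`. -/
noncomputable def tI (V : Type*) [NormedAddCommGroup V] [InnerProductSpace ℂ V] (T : U →L[ℂ] U) :
    U ⊗[ℂ] V →ₗ[ℂ] U ⊗[ℂ] V :=
  TensorProduct.map (T : U →ₗ[ℂ] U) LinearMap.id

theorem tI_tmul (T : U →L[ℂ] U) (x : U) (y : V) : tI V T (x ⊗ₜ[ℂ] y) = T x ⊗ₜ[ℂ] y := by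
  unfold tI
  rw [TensorProduct.map_tmul]
  rfl

theorem inner_tI {T : U →L[ℂ] U} {n : ℕ} (x : Fin n → U) {v : Fin n → V} (hv : Orthonormal ℂ v) :
    (inner ℂ (∑ i, x i ⊗ₜ[ℂ] v i) (tI V T (∑ i, x i ⊗ₜ[ℂ] v i)) : ℂ) = ∑ i, inner ℂ (x i) (T (x i)) := by
  classical
  rw [map_sum, sum_inner]
  refine Finset.sum_congr rfl fun i _ => ?_
  rw [inner_sum, Finset.sum_eq_single i]
  · rw [tI_tmul, TensorProduct.inner_tmul, inner_self_eq_norm_sq_to_K, hv.1 i]
    simp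
  · intro j _ hj
    rw [tI_tmul, TensorProduct.inner_tmul, hv.2 (Ne.symm hj), mul_zero]
  · intro h
    exact absurd (Finset.mem_univ _) h

theorem tI_symm {T : U →L[ℂ] U} (hT : ∀ x y, (inner ℂ (T x) y : ℂ) = inner ℂ x (T y)) (ξ η : U ⊗[ℂ] V) :
    (inner ℂ (tI V T ξ) η : ℂ) = inner ℂ ξ (tI V T η) := by
  induction ξ using TensorProduct.induction_on with
  | zero => simp
  | add a b ha hb => rw [map_add, inner_add_left, inner_add_left, ha, hb]
  | tmul x y =>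
    induction η using TensorProduct.induction_on with
    | zero => simp
    | add a b ha hb => rw [map_add, inner_add_right, inner_add_right, ha, hb]
    | tmul x' y' => rw [tI_tmul, tI_tmul, TensorProduct.inner_tmul, TensorProduct.inner_tmul, hT]

end tens

section form

variable {F U V : Type*} [Group F] [NormedAddCommGroup U] [InnerProductSpace ℂ U]
  [NormedAddCommGroup V] [InnerProductSpace ℂ V] {u : F →* (U ≃ₗᵢ[ℂ] U)} (C : CovP u)

/-- The finitely additive measure `D ↦ ⟪ξ, (P D ⊗ 1) ξ⟫`. -/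
noncomputable def mt (D : Set F) (ξ : U ⊗[ℂ] V) : ℝ := (inner ℂ ξ (tI V (C.P D) ξ) : ℂ).re

theorem mt_nonneg (D : Set F) (ξ : U ⊗[ℂ] V) : 0 ≤ mt C D ξ := by
  obtain ⟨n, x, v, hv, rfl⟩ := exists_orth ξ
  unfold mt
  rw [inner_tI x hv, Complex.re_sum]
  exact Finset.sum_nonneg fun i _ => C.nonneg D (x i)

theorem mt_mono {D D' : Set F} (h : D ⊆ D') (ξ : U ⊗[ℂ] V) : mt C D ξ ≤ mt C D' ξ := by
  obtain ⟨n, x, v, hv, rfl⟩ := exists_orth ξ
  unfold mt
  rw [inner_tI x hv, inner_tI x hv, Complex.re_sum, Complex.re_sum]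
  exact Finset.sum_le_sum fun i _ => C.mono h (x i)

theorem mt_univ (ξ : U ⊗[ℂ] V) : mt C Set.univ ξ = ‖ξ‖ ^ 2 := by
  have h : C.P Set.univ = ContinuousLinearMap.id ℂ U := by
    ext x
    exact C.univ x
  unfold mt
  rw [h]
  have h2 : tI V (ContinuousLinearMap.id ℂ U) ξ = ξ := by
    unfold tI
    have : (((ContinuousLinearMap.id ℂ U : U →L[ℂ] U)) : U →ₗ[ℂ] U) = LinearMap.id := rfl
    rw [this, TensorProduct.map_id]
    rfl
  rw [h2]
  exact (inner_self_eq_norm_sq (𝕜 := ℂ) ξ)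

theorem mt_union {D D' : Set F} (h : Disjoint D D') (ξ : U ⊗[ℂ] V) :
    mt C (D ∪ D') ξ = mt C D ξ + mt C D' ξ := by
  obtain ⟨n, x, v, hv, rfl⟩ := exists_orth ξ
  unfold mt
  rw [inner_tI x hv, inner_tI x hv, inner_tI x hv, ← Complex.add_re, ← Finset.sum_add_distrib]
  congr 1
  refine Finset.sum_congr rfl fun i _ => ?_
  rw [C.union D D' h, inner_add_right]

theorem mt_smul {c : ℂ} (hc : ‖c‖ = 1) (D : Set F) (ξ : U ⊗[ℂ] V) : mt C D (c • ξ) = mt C D ξ :=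
  form_smul (tI V (C.P D)) hc ξ

theorem mt_le (D : Set F) (ξ : U ⊗[ℂ] V) : mt C D ξ ≤ ‖ξ‖ ^ 2 := by
  rw [← mt_univ C ξ]
  exact mt_mono C (Set.subset_univ D) ξ

theorem mt_sub_le (D : Set F) (ξ η : U ⊗[ℂ] V) :
    mt C D ξ - mt C D η ≤ ‖ξ - η‖ * (‖ξ‖ + ‖η‖) :=
  form_sub_le (tI V (C.P D)) (tI_symm (C.symm D)) (mt_nonneg C D) (mt_le C D) ξ η

theorem mt_cov (f : F) (r : V →ₗᵢ[ℂ] V) (D : Set F) (ξ : U ⊗[ℂ] V) :
    mt C (lt f D) (TensorProduct.map ((u f).toLinearIsometry.toLinearMap) r.toLinearMap ξ) = mt C D ξ := by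
  have h1 : ∀ ξ : U ⊗[ℂ] V, tI V (C.P (lt f D)) (TensorProduct.map ((u f).toLinearIsometry.toLinearMap)
      r.toLinearMap ξ) = TensorProduct.map ((u f).toLinearIsometry.toLinearMap) r.toLinearMap (tI V (C.P D) ξ) := by
    intro ξ
    induction ξ using TensorProduct.induction_on with
    | zero => simp
    | add a b ha hb => rw [map_add, map_add, ha, hb, map_add, map_add]
    | tmul x y =>
      rw [TensorProduct.map_tmul, tI_tmul, tI_tmul, TensorProduct.map_tmul]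
      congr 1
      exact (C.cov f D x).symm
  unfold mt
  rw [h1]
  exact congrArg Complex.re (TensorProduct.inner_map_map _ _ _ _)

end form

/-- Paradoxical sets for `a`, `b`. -/
structure Para {F : Type*} [Group F] (a b : F) where
  /-- the first set -/
  A : Set F
  /-- the second set -/
  A' : Set F
  /-- the third set -/
  B : Set F
  /-- the fourth set -/
  B' : Set F
  d1 : Disjoint A A'
  d2 : Disjoint B B'
  d3 : Disjoint (A ∪ A') (B ∪ B')
  ca : Aᶜ ⊆ lt a A'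
  cb : Bᶜ ⊆ lt b B'

section gap

variable {F U V : Type*} [Group F] [NormedAddCommGroup U] [InnerProductSpace ℂ U]
  [NormedAddCommGroup V] [InnerProductSpace ℂ V] {u : F →* (U ≃ₗᵢ[ℂ] U)}

private theorem par_one (C : CovP u) (f : F) (r : V →ₗᵢ[ℂ] V) {A A' : Set F} (hA : Aᶜ ⊆ lt f A') (ξ : U ⊗[ℂ] V)
    {c : ℂ} (hc : ‖c‖ = 1) : ‖ξ‖ ^ 2 ≤ mt C A ξ + mt C A' ξ +
      2 * ‖ξ‖ * ‖TensorProduct.map ((u f).toLinearIsometry.toLinearMap) r.toLinearMap ξ - c • ξ‖ := by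
  set ξ' := TensorProduct.map ((u f).toLinearIsometry.toLinearMap) r.toLinearMap ξ with hξ'
  have hn : ‖ξ'‖ = ‖ξ‖ := TensorProduct.norm_map _ _ _
  have h1 : mt C A ξ + mt C Aᶜ ξ = ‖ξ‖ ^ 2 := by
    rw [← mt_union C disjoint_compl_right, Set.union_compl_self, mt_univ]
  have h2 : mt C Aᶜ ξ ≤ mt C (lt f A') ξ := mt_mono C hA ξ
  have h3 : mt C (lt f A') ξ' = mt C A' ξ := mt_cov C f r A' ξ
  have h4 := mt_sub_le C (lt f A') (c • ξ) ξ'
  rw [mt_smul C hc, h3, norm_smul, hc, one_mul, hn, norm_sub_rev] at h4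
  linarith

/-- The gap of `u ⊗ v` on the algebraic tensor product. -/
theorem gap_tens (C : CovP u) {a b : F} (Z : Para a b) (r s : V →ₗᵢ[ℂ] V) (ξ : U ⊗[ℂ] V) {c c' : ℂ} (hc : ‖c‖ = 1)
    (hc' : ‖c'‖ = 1) :
    ‖ξ‖ ≤ 2 * ‖TensorProduct.map ((u a).toLinearIsometry.toLinearMap) r.toLinearMap ξ - c • ξ‖ +
      2 * ‖TensorProduct.map ((u b).toLinearIsometry.toLinearMap) s.toLinearMap ξ - c' • ξ‖ := by
  have h1 := par_one C a r Z.ca ξ hc
  have h2 := par_one C b s Z.cb ξ hc'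
  have h3 : mt C Z.A ξ + mt C Z.A' ξ + (mt C Z.B ξ + mt C Z.B' ξ) ≤ ‖ξ‖ ^ 2 := by
    rw [← mt_union C Z.d1, ← mt_union C Z.d2, ← mt_union C Z.d3]
    exact mt_le C _ ξ
  set δ := ‖TensorProduct.map ((u a).toLinearIsometry.toLinearMap) r.toLinearMap ξ - c • ξ‖
  set δ' := ‖TensorProduct.map ((u b).toLinearIsometry.toLinearMap) s.toLinearMap ξ - c' • ξ‖
  have h4 : ‖ξ‖ * ‖ξ‖ ≤ ‖ξ‖ * (2 * δ + 2 * δ') := by nlinarith
  rcases (norm_nonneg ξ).eq_or_lt with h0 | h0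
  · rw [← h0]
    positivity
  · exact le_of_mul_le_mul_left h4 h0

/-- **The gap of `u ⊗ v`**, in each space `T` with a total isometric product `J : U × V → T`. -/
theorem gap_J (C : CovP u) {a b : F} (Z : Para a b) (r s : V →ₗᵢ[ℂ] V)
    {T : Type*} [NormedAddCommGroup T] [InnerProductSpace ℂ T] (J : U →ₗ[ℂ] V →ₗ[ℂ] T)
    (hJ : ∀ x x' y y', (inner ℂ (J x y) (J x' y') : ℂ) = inner ℂ x x' * inner ℂ y y')
    (hd : (Submodule.span ℂ (Set.range fun p : U × V => J p.1 p.2)).topologicalClosure = ⊤)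
    (Wa Wb : T →L[ℂ] T) (hWa : ∀ x y, Wa (J x y) = J (u a x) (r y)) (hWb : ∀ x y, Wb (J x y) = J (u b x) (s y))
    (ξ : T) {c c' : ℂ} (hc : ‖c‖ = 1) (hc' : ‖c'‖ = 1) :
    ‖ξ‖ ≤ 2 * ‖Wa ξ - c • ξ‖ + 2 * ‖Wb ξ - c' • ξ‖ := by
  let L : U ⊗[ℂ] V →ₗ[ℂ] T := TensorProduct.lift J
  have hL : ∀ x y, L (x ⊗ₜ[ℂ] y) = J x y := fun x y => TensorProduct.lift.tmul x y
  have hLi : ∀ ξ η, (inner ℂ (L ξ) (L η) : ℂ) = inner ℂ ξ η := by
    intro ξ η
    induction ξ using TensorProduct.induction_on with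
    | zero => simp
    | add a b ha hb => rw [map_add, inner_add_left, inner_add_left, ha, hb]
    | tmul x y =>
      induction η using TensorProduct.induction_on with
      | zero => simp
      | add a b ha hb => rw [map_add, inner_add_right, inner_add_right, ha, hb]
      | tmul x' y' => rw [hL, hL, hJ, TensorProduct.inner_tmul]
  have hLn : ∀ ξ, ‖L ξ‖ = ‖ξ‖ := by
    intro ξ
    have h1 : ‖L ξ‖ ^ 2 = ‖ξ‖ ^ 2 := by
      have e1 := inner_self_eq_norm_sq (𝕜 := ℂ) (L ξ)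
      have e2 := inner_self_eq_norm_sq (𝕜 := ℂ) ξ
      rw [← e1, ← e2, hLi]
    exact (sq_eq_sq₀ (norm_nonneg _) (norm_nonneg _)).1 h1
  have hWL : ∀ (f : F) (q : V →ₗᵢ[ℂ] V) (W : T →L[ℂ] T), (∀ x y, W (J x y) = J (u f x) (q y)) → ∀ ξ : U ⊗[ℂ] V,
      W (L ξ) = L (TensorProduct.map ((u f).toLinearIsometry.toLinearMap) q.toLinearMap ξ) := by
    intro f q W hW ξ
    induction ξ using TensorProduct.induction_on with
    | zero => simp
    | add a b ha hb => rw [map_add, map_add, ha, hb, map_add, map_add]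
    | tmul x y =>
      rw [hL, hW, TensorProduct.map_tmul, hL]
      rfl
  have hclosed : IsClosed {ξ : T | ‖ξ‖ ≤ 2 * ‖Wa ξ - c • ξ‖ + 2 * ‖Wb ξ - c' • ξ‖} := by
    refine isClosed_le continuous_norm ?_
    fun_prop
  have hrange : (Set.range L : Set T) ⊆ {ξ : T | ‖ξ‖ ≤ 2 * ‖Wa ξ - c • ξ‖ + 2 * ‖Wb ξ - c' • ξ‖} := by
    rintro _ ⟨ξ, rfl⟩
    have h1 := gap_tens C Z r s ξ hc hc'
    rw [Set.mem_ofPred_eq, hLn, hWL a r Wa hWa, hWL b s Wb hWb, ← map_smul, ← map_sub, hLn, ← map_smul, ← map_sub, hLn]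
    exact h1
  have hdense : (Set.range L : Set T) = ((LinearMap.range L : Submodule ℂ T) : Set T) := rfl
  have h2 : Submodule.span ℂ (Set.range fun p : U × V => J p.1 p.2) ≤ LinearMap.range L := by
    rw [Submodule.span_le]
    rintro _ ⟨p, rfl⟩
    exact ⟨p.1 ⊗ₜ[ℂ] p.2, hL _ _⟩
  have h3 : (LinearMap.range L).topologicalClosure = ⊤ :=
    top_le_iff.1 (hd ▸ Submodule.topologicalClosure_mono h2)
  have h4 : ξ ∈ (LinearMap.range L).topologicalClosure := by rw [h3]; trivial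
  have h5 : ξ ∈ closure (Set.range L : Set T) := by
    rw [hdense]
    exact h4
  exact closure_minimal hrange hclosed h5

/-- The gap of `u` itself. -/
theorem gap_self (C : CovP u) {a b : F} (Z : Para a b) (ξ : U) {c c' : ℂ} (hc : ‖c‖ = 1) (hc' : ‖c'‖ = 1) :
    ‖ξ‖ ≤ 2 * ‖u a ξ - c • ξ‖ + 2 * ‖u b ξ - c' • ξ‖ := by
  refine gap_J C Z (V := ℂ) LinearIsometry.id LinearIsometry.id
    ((LinearMap.lsmul ℂ U : ℂ →ₗ[ℂ] U →ₗ[ℂ] U).flip) (fun x x' y y' => ?_) ?_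
    ((u a).toContinuousLinearEquiv : U →L[ℂ] U) ((u b).toContinuousLinearEquiv : U →L[ℂ] U)
    (fun x y => ?_) (fun x y => ?_) ξ hc hc'
  · show (inner ℂ (y • x) (y' • x') : ℂ) = inner ℂ x x' * inner ℂ y y'
    rw [inner_smul_left, inner_smul_right, RCLike.inner_apply]
    ring
  · rw [eq_top_iff]
    intro x _
    refine Submodule.le_topologicalClosure _ (Submodule.subset_span ⟨(x, 1), ?_⟩)
    show (1 : ℂ) • x = x
    exact one_smul ℂ x
  · show u a (y • x) = y • u a x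
    exact map_smul _ _ _
  · show u b (y • x) = y • u b x
    exact map_smul _ _ _

end gap

section fixed

/-- From the gap with phases to the norm of the averages over a subgroup `K`: `K`-fixed vectors, `a, b ∈ K g₀ K`. -/
theorem gap_fixed {S T : Type*} [Group S] [NormedAddCommGroup T] [InnerProductSpace ℂ T]
    (w : S →* (T →L[ℂ] T)) (hw : ∀ g x y, (inner ℂ (w g x) (w g y) : ℂ) = inner ℂ x y)
    {a b g₀ : S} (K : Subgroup S) (ha : ∃ k ∈ K, ∃ l ∈ K, a = k * g₀ * l) (hb : ∃ k ∈ K, ∃ l ∈ K, b = k * g₀ * l)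
    (hg : ∃ k ∈ K, ∃ l ∈ K, g₀⁻¹ = k * g₀ * l)
    (hgap : ∀ (ξ : T) (c c' : ℂ), ‖c‖ = 1 → ‖c'‖ = 1 → ‖ξ‖ ≤ 2 * ‖w a ξ - c • ξ‖ + 2 * ‖w b ξ - c' • ξ‖)
    {x y : T} (hx : ∀ k ∈ K, w k x = x) (hy : ∀ k ∈ K, w k y = y) :
    ‖(inner ℂ x (w g₀ y) : ℂ)‖ ≤ 31 / 32 * (‖x‖ * ‖y‖) := by
  have hwn : ∀ g x, ‖w g x‖ = ‖x‖ := by
    intro g x
    have h1 : ‖w g x‖ ^ 2 = ‖x‖ ^ 2 := by
      have e1 := inner_self_eq_norm_sq (𝕜 := ℂ) (w g x)
      have e2 := inner_self_eq_norm_sq (𝕜 := ℂ) x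
      rw [← e1, ← e2, hw]
    exact (sq_eq_sq₀ (norm_nonneg _) (norm_nonneg _)).1 h1
  have hinv : ∀ g x y, (inner ℂ (w g x) y : ℂ) = inner ℂ x (w g⁻¹ y) := by
    intro g x y
    rw [← hw g⁻¹ (w g x) y, ← mul_apply_eq_comp, ← map_mul, inv_mul_cancel, map_one]
    rfl
  -- coefficients depend on the double coset only
  have hcos : ∀ (g : S), (∃ k ∈ K, ∃ l ∈ K, g = k * g₀ * l) → ∀ x y : T, (∀ k ∈ K, w k x = x) →
      (∀ k ∈ K, w k y = y) → (inner ℂ x (w g y) : ℂ) = inner ℂ x (w g₀ y) := by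
    rintro g ⟨k, hk, l, hl, rfl⟩ x y hx hy
    rw [map_mul, map_mul, mul_apply_eq_comp, mul_apply_eq_comp, hy l hl]
    have h1 := hinv k⁻¹ x (w g₀ y)
    rw [inv_inv, hx _ (K.inv_mem hk)] at h1
    exact h1.symm
  -- the diagonal bound
  have hdiag : ∀ z : T, (∀ k ∈ K, w k z = z) → ‖(inner ℂ z (w g₀ z) : ℂ)‖ ≤ 31 / 32 * ‖z‖ ^ 2 := by
    intro z hz
    obtain ⟨c, hc, hcz⟩ : ∃ c : ℂ, ‖c‖ = 1 ∧ (inner ℂ z (w g₀ z) : ℂ) = ‖(inner ℂ z (w g₀ z) : ℂ)‖ * c := by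
      by_cases h0 : (inner ℂ z (w g₀ z) : ℂ) = 0
      · exact ⟨1, norm_one, by rw [h0]; simp⟩
      · refine ⟨(inner ℂ z (w g₀ z) : ℂ) / ‖(inner ℂ z (w g₀ z) : ℂ)‖, ?_, ?_⟩
        · rw [norm_div, Complex.norm_real, norm_norm, div_self (norm_ne_zero_iff.2 h0)]
        · rw [mul_div_cancel₀]
          exact_mod_cast norm_ne_zero_iff.2 h0
    have hval : ∀ g, (∃ k ∈ K, ∃ l ∈ K, g = k * g₀ * l) → ‖w g z - c • z‖ ^ 2 =
        2 * ‖z‖ ^ 2 - 2 * ‖(inner ℂ z (w g₀ z) : ℂ)‖ := by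
      intro g hg
      rw [@norm_sub_sq ℂ, hwn, norm_smul, hc, one_mul]
      have h1 : (inner ℂ (w g z) (c • z) : ℂ) = ‖(inner ℂ z (w g₀ z) : ℂ)‖ := by
        rw [inner_smul_right, ← inner_conj_symm, hcos g hg z z hz hz, hcz, map_mul, Complex.conj_ofReal,
          mul_left_comm, Complex.mul_conj, Complex.normSq_eq_norm_sq, hc]
        simp [hc]
      rw [h1]
      simp only [RCLike.re_to_complex, Complex.ofReal_re]
      ring
    have h1 := hgap z c c hc hc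
    have e1 := hval a ha
    have e2 := hval b hb
    have e3 : ‖w a z - c • z‖ = ‖w b z - c • z‖ := by
      refine (sq_eq_sq₀ (norm_nonneg _) (norm_nonneg _)).1 ?_
      rw [e1, e2]
    rw [← e3] at h1
    have h2 : ‖z‖ ^ 2 ≤ (4 * ‖w a z - c • z‖) ^ 2 := pow_le_pow_left₀ (norm_nonneg _) (by linarith) 2
    rw [mul_pow, e1] at h2
    linarith
  -- polarization
  have hsymm : ∀ x y : T, (∀ k ∈ K, w k x = x) → (∀ k ∈ K, w k y = y) →
      (inner ℂ x (w g₀ y) : ℂ) = conj (inner ℂ y (w g₀ x) : ℂ) := by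
    intro x y hx hy
    rw [inner_conj_symm, hinv, hcos _ hg x y hx hy]
  have hre : ∀ x y : T, (∀ k ∈ K, w k x = x) → (∀ k ∈ K, w k y = y) → ‖x‖ ≤ 1 → ‖y‖ ≤ 1 →
      (inner ℂ x (w g₀ y) : ℂ).re ≤ 31 / 32 := by
    intro x y hx hy hx1 hy1
    have hp : ∀ k ∈ K, w k (x + y) = x + y := fun k hk => by rw [map_add, hx k hk, hy k hk]
    have hm : ∀ k ∈ K, w k (x - y) = x - y := fun k hk => by rw [map_sub, hx k hk, hy k hk]
    have d1 := (Complex.re_le_norm _).trans (hdiag _ hp)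
    have d2 := ((neg_le_abs _).trans (Complex.abs_re_le_norm _)).trans (hdiag _ hm)
    have e1 : (inner ℂ (x + y) (w g₀ (x + y)) : ℂ).re - (inner ℂ (x - y) (w g₀ (x - y)) : ℂ).re =
        4 * (inner ℂ x (w g₀ y) : ℂ).re := by
      have hs : (inner ℂ y (w g₀ x) : ℂ).re = (inner ℂ x (w g₀ y) : ℂ).re := by
        rw [hsymm x y hx hy, Complex.conj_re]
      rw [map_add, map_sub, inner_add_left, inner_add_right, inner_add_right, inner_sub_left, inner_sub_right,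
        inner_sub_right]
      simp only [Complex.add_re, Complex.sub_re]
      rw [hs]
      ring
    have e2 := parallelogram_law_with_norm ℂ x y
    nlinarith [norm_nonneg x, norm_nonneg y]
  have hunit : ∀ x y : T, (∀ k ∈ K, w k x = x) → (∀ k ∈ K, w k y = y) → ‖x‖ ≤ 1 → ‖y‖ ≤ 1 →
      ‖(inner ℂ x (w g₀ y) : ℂ)‖ ≤ 31 / 32 := by
    intro x y hx hy hx1 hy1
    by_cases h0 : (inner ℂ x (w g₀ y) : ℂ) = 0
    · rw [h0]
      simp
      norm_num
    set z := (inner ℂ x (w g₀ y) : ℂ) with hz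
    set c : ℂ := z / ‖z‖ with hc
    have hc1 : ‖c‖ = 1 := by rw [hc, norm_div, Complex.norm_real, norm_norm, div_self (norm_ne_zero_iff.2 h0)]
    have h1 := hre (c • x) y (fun k hk => by rw [map_smul, hx k hk]) hy (by rw [norm_smul, hc1, one_mul]; exact hx1) hy1
    rw [inner_smul_left, ← hz] at h1
    have h2 : conj c * z = ‖z‖ := by
      have h3 : (‖z‖ : ℂ) ≠ 0 := by exact_mod_cast norm_ne_zero_iff.2 h0
      rw [hc, map_div₀, Complex.conj_ofReal, div_mul_eq_mul_div, ← Complex.normSq_eq_conj_mul_self,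
        Complex.normSq_eq_norm_sq]
      push_cast
      field_simp
    rw [h2, Complex.ofReal_re] at h1
    exact h1
  by_cases hx0 : x = 0
  · rw [hx0]
    simp
  by_cases hy0 : y = 0
  · rw [hy0]
    simp
  have nx : 0 < ‖x‖ := norm_pos_iff.2 hx0
  have ny : 0 < ‖y‖ := norm_pos_iff.2 hy0
  have h1 := hunit (((‖x‖⁻¹ : ℝ) : ℂ) • x) (((‖y‖⁻¹ : ℝ) : ℂ) • y) (fun k hk => by rw [map_smul, hx k hk])
    (fun k hk => by rw [map_smul, hy k hk])
    (by rw [norm_smul, Complex.norm_real, norm_inv, norm_norm, inv_mul_cancel₀ nx.ne'])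
    (by rw [norm_smul, Complex.norm_real, norm_inv, norm_norm, inv_mul_cancel₀ ny.ne'])
  rw [map_smul, inner_smul_left, inner_smul_right, Complex.conj_ofReal, norm_mul, norm_mul, Complex.norm_real,
    Complex.norm_real, norm_inv, norm_inv, norm_norm, norm_norm] at h1
  have h2 : ‖x‖⁻¹ * (‖y‖⁻¹ * ‖(inner ℂ x (w g₀ y) : ℂ)‖) * (‖x‖ * ‖y‖) = ‖(inner ℂ x (w g₀ y) : ℂ)‖ := by
    field_simp
  rw [← h2]
  exact mul_le_mul_of_nonneg_right h1 (by positivity)

end fixed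

/-- Paradoxical sets for `a = (1 2; 0 1)`, `b = (1 0; 2 1)`; `(p g, r g)` is the first column of `g`. -/
def paraCol {F : Type*} [Group F] (a b : F) (p r : F → ℤ) (h0 : ∀ g, p g ≠ 0 ∨ r g ≠ 0)
    (ha : ∀ g, p (a⁻¹ * g) = p g - 2 * r g ∧ r (a⁻¹ * g) = r g)
    (hb : ∀ g, p (b⁻¹ * g) = p g ∧ r (b⁻¹ * g) = r g - 2 * p g) : Para a b where
  A := {g | 0 ≤ p g * r g ∧ |r g| < |p g|}
  A' := {g | p g * r g < 0 ∧ |r g| ≤ |p g|}
  B := {g | 0 ≤ p g * r g ∧ |p g| ≤ |r g|}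
  B' := {g | p g * r g < 0 ∧ |p g| < |r g|}
  d1 := by
    rw [Set.disjoint_left]
    rintro g ⟨h1, _⟩ ⟨h2, _⟩
    omega
  d2 := by
    rw [Set.disjoint_left]
    rintro g ⟨h1, _⟩ ⟨h2, _⟩
    omega
  d3 := by
    rw [Set.disjoint_left]
    rintro g (⟨h1, h2⟩ | ⟨h1, h2⟩) (⟨h3, h4⟩ | ⟨h3, h4⟩) <;> omega
  ca := by
    intro g hg
    rw [Set.mem_compl_iff, Set.mem_ofPred_eq, not_and, not_lt] at hg
    rw [mem_lt, Set.mem_ofPred_eq, (ha g).1, (ha g).2]
    rcases lt_or_ge (p g * r g) 0 with h | h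
    · rcases mul_neg_iff.1 h with ⟨h1, h2⟩ | ⟨h1, h2⟩
      · refine ⟨by nlinarith, ?_⟩
        rw [abs_of_neg h2, abs_of_pos (by linarith)]
        linarith
      · refine ⟨by nlinarith, ?_⟩
        rw [abs_of_pos h2, abs_of_neg (by linarith)]
        linarith
    · have h1 := hg h
      have hr : r g ≠ 0 := by
        intro hr
        rw [hr, abs_zero] at h1
        have hp : p g = 0 := abs_eq_zero.1 (le_antisymm h1 (abs_nonneg _))
        rcases h0 g with h2 | h2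
        · exact h2 hp
        · exact h2 hr
      rcases lt_or_gt_of_ne hr with h2 | h2
      · rw [abs_of_neg h2, abs_le] at h1
        refine ⟨by nlinarith, ?_⟩
        rw [abs_of_neg h2, abs_of_pos (by linarith)]
        linarith
      · rw [abs_of_pos h2, abs_le] at h1
        refine ⟨by nlinarith, ?_⟩
        rw [abs_of_pos h2, abs_of_neg (by linarith)]
        linarith
  cb := by
    intro g hg
    rw [Set.mem_compl_iff, Set.mem_ofPred_eq, not_and, not_le] at hg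
    rw [mem_lt, Set.mem_ofPred_eq, (hb g).1, (hb g).2]
    rcases lt_or_ge (p g * r g) 0 with h | h
    · rcases mul_neg_iff.1 h with ⟨h1, h2⟩ | ⟨h1, h2⟩
      · refine ⟨by nlinarith, ?_⟩
        rw [abs_of_pos h1, abs_of_neg (by linarith)]
        linarith
      · refine ⟨by nlinarith, ?_⟩
        rw [abs_of_neg h1, abs_of_pos (by linarith)]
        linarith
    · have h1 := hg h
      have hp : p g ≠ 0 := by
        intro hp
        rw [hp, abs_zero] at h1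
        exact absurd h1 (not_lt.2 (abs_nonneg _))
      rcases lt_or_gt_of_ne hp with h2 | h2
      · rw [abs_of_neg h2, abs_lt] at h1
        refine ⟨by nlinarith, ?_⟩
        rw [abs_of_neg h2, abs_of_pos (by linarith)]
        linarith
      · rw [abs_of_pos h2, abs_lt] at h1
        refine ⟨by nlinarith, ?_⟩
        rw [abs_of_pos h2, abs_of_neg (by linarith)]
        linarith

end Pool.Agent.Helper55.FP
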