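import Pool.Agent.Helper55.FP.Tr
import Pool.Agent.Helper55.FP.Par

/-!
# Project FP (MP_0f6f3f_an): the gap of `beta B ρ` for tempered `ρ`

`gap_beta`: for a tempered module `ρ`, `|⟪x, beta g₀ y⟫| ≤ (31/32) ‖x‖ ‖y‖` for vectors `x`, `y` fixed by a subgroup `Kc` of `S'`, if `σ.j a`, `σ.j b ∈ Kc g₀ Kc` for a pair `a`, `b` with paradoxical sets. `gap_beta_J`: the same for
`beta ⊗ v`.
-/

set_option autoImplicit false
set_option linter.unusedSectionVars false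
set_option linter.unusedVariables false

open Filter Topology MeasureTheory

namespace Pool.Agent.Helper55.FP

open Pool.Agent.Helper84.NI Pool.Agent.Helper84.GVN Pool.Agent.Helper84.FR
open Pool.Agent.Helper35.FP

/-- A unitary representation as a representation by bounded operators. -/
noncomputable def clmR {S T : Type*} [Group S] [NormedAddCommGroup T] [InnerProductSpace ℂ T] (β : S →* (T ≃ₗᵢ[ℂ] T)) :
    S →* (T →L[ℂ] T) where
  toFun g := ((β g).toContinuousLinearEquiv : T →L[ℂ] T)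
  map_one' := by
    ext x
    show β 1 x = x
    rw [map_one]
    rfl
  map_mul' g h := by
    ext x
    show β (g * h) x = β g (β h x)
    rw [map_mul]
    rfl

theorem clmR_apply {S T : Type*} [Group S] [NormedAddCommGroup T] [InnerProductSpace ℂ T] (β : S →* (T ≃ₗᵢ[ℂ] T))
    (g : S) (x : T) : clmR β g x = β g x := rfl

/-- The gap for the vectors fixed by a subgroup, for a representation of a larger group. -/
theorem gap_of_covP {S F T : Type*} [Group S] [Group F] [NormedAddCommGroup T] [InnerProductSpace ℂ T]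
    (β : S →* (T ≃ₗᵢ[ℂ] T)) (j : F →* S) (C : CovP (β.comp j)) {a b : F} (Z : Para a b) {g₀ : S} (Kc : Subgroup S)
    (ha : ∃ k ∈ Kc, ∃ l ∈ Kc, j a = k * g₀ * l) (hb : ∃ k ∈ Kc, ∃ l ∈ Kc, j b = k * g₀ * l)
    (hg : ∃ k ∈ Kc, ∃ l ∈ Kc, g₀⁻¹ = k * g₀ * l) {x y : T} (hx : ∀ k ∈ Kc, β k x = x) (hy : ∀ k ∈ Kc, β k y = y) :
    ‖(inner ℂ x (β g₀ y) : ℂ)‖ ≤ 31 / 32 * (‖x‖ * ‖y‖) := by
  refine gap_fixed (clmR β) (fun g x y => LinearIsometryEquiv.inner_map_map (β g) x y) (a := j a) (b := j b)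
    Kc ha hb hg ?_ hx hy
  intro ξ c c' hc hc'
  exact gap_self C Z ξ hc hc'

/-- The gap for the tensor product with any unitary representation, for the vectors fixed by a subgroup. -/
theorem gap_of_covP_J {S F U V T : Type*} [Group S] [Group F] [NormedAddCommGroup U] [InnerProductSpace ℂ U]
    [NormedAddCommGroup V] [InnerProductSpace ℂ V] [NormedAddCommGroup T] [InnerProductSpace ℂ T]
    (β : S →* (U ≃ₗᵢ[ℂ] U)) (j : F →* S) (C : CovP (β.comp j)) {a b : F} (Z : Para a b)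
    (v : S →* (V ≃ₗᵢ[ℂ] V)) (w : S →* (T →L[ℂ] T)) (hw : ∀ g x y, (inner ℂ (w g x) (w g y) : ℂ) = inner ℂ x y)
    (J : U →ₗ[ℂ] V →ₗ[ℂ] T) (hJ : ∀ x x' y y', (inner ℂ (J x y) (J x' y') : ℂ) = inner ℂ x x' * inner ℂ y y')
    (hd : (Submodule.span ℂ (Set.range fun p : U × V => J p.1 p.2)).topologicalClosure = ⊤)
    (hJw : ∀ g x y, w g (J x y) = J (β g x) (v g y)) {g₀ : S} (Kc : Subgroup S)
    (ha : ∃ k ∈ Kc, ∃ l ∈ Kc, j a = k * g₀ * l) (hb : ∃ k ∈ Kc, ∃ l ∈ Kc, j b = k * g₀ * l)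
    (hg : ∃ k ∈ Kc, ∃ l ∈ Kc, g₀⁻¹ = k * g₀ * l) {x y : T} (hx : ∀ k ∈ Kc, w k x = x) (hy : ∀ k ∈ Kc, w k y = y) :
    ‖(inner ℂ x (w g₀ y) : ℂ)‖ ≤ 31 / 32 * (‖x‖ * ‖y‖) := by
  refine gap_fixed w hw (a := j a) (b := j b) Kc ha hb hg ?_ hx hy
  intro ξ c c' hc hc'
  exact gap_J C Z (v (j a)).toLinearIsometry (v (j b)).toLinearIsometry J hJ hd (w (j a)) (w (j b))
    (fun x y => hJw (j a) x y) (fun x y => hJw (j b) x y) ξ hc hc'

variable {𝔾 𝕊 : Type} [Group 𝔾] [TopologicalSpace 𝔾] [IsTopologicalGroup 𝔾] [Group 𝕊] [TopologicalSpace 𝕊] [IsTopologicalGroup 𝕊]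
  {𝕂 : Subgroup 𝕊} {geo : Geo 𝔾 𝕊 𝕂} {G S' H U : Type} [Group G] [Group S'] [TopologicalSpace S'] [IsTopologicalGroup S']
  [NormedAddCommGroup H] [InnerProductSpace ℂ H] [CompleteSpace H]
  [NormedAddCommGroup U] [InnerProductSpace ℂ U] [CompleteSpace U]
variable {L : Type} [NormedAddCommGroup L] [InnerProductSpace ℂ L]
variable {F X Λ L0 Y : Type} [Group F] [MulAction F X] [MeasurableSpace X]
    [MeasurableConstSMul F X] [Group Λ] [Countable Λ] [NormedAddCommGroup L0] [InnerProductSpace ℂ L0] [CompleteSpace L0]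

/-- **The gap of `beta B ρ`** for tempered `ρ`. -/
theorem gap_beta {B : BD geo G S' H U} (σ : Src B F X Λ L0 Y) {ρ : Rp 𝕊 L} (tm : Tmp ρ) (s : Sc geo) (am : Amn B)
    {a b : F} (Z : Para a b) {g₀ : S'} (Kc : Subgroup S')
    (ha : ∃ k ∈ Kc, ∃ l ∈ Kc, σ.j a = k * g₀ * l) (hb : ∃ k ∈ Kc, ∃ l ∈ Kc, σ.j b = k * g₀ * l)
    (hg : ∃ k ∈ Kc, ∃ l ∈ Kc, g₀⁻¹ = k * g₀ * l) {x y : MM B ρ} (hx : ∀ k ∈ Kc, beta B ρ k x = x)
    (hy : ∀ k ∈ Kc, beta B ρ k y = y) :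
    ‖(inner ℂ x (beta B ρ g₀ y) : ℂ)‖ ≤ 31 / 32 * (‖x‖ * ‖y‖) := by
  obtain ⟨C⟩ := covP_beta σ ρ tm s am
  have key := fun (x y : MM B ρ) => gap_of_covP (T := MM B ρ) (beta B ρ) σ.j C Z Kc ha hb hg (x := x) (y := y)
  exact key x y hx hy

end Pool.Agent.Helper55.FP
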