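import Pool.Agent.Helper55.FP.Src

/-!
# Project FP (MP_0f6f3f_an): multiplier fields

`Ad f`: bounded continuous functions on `𝔾`, invariant under the kernel of the block. `mfld tm s f`: the field `g ↦ m (h ↦ f (g s(h)))` of operators of a tempered module. `sum_mfld`: `∑ ‖mulF (f i) y‖² = C² ‖y‖²` if `∑ f i² = C²`.
`mfld_act`: translation. `span_J`: an isometry into a multiple of an induced space from intertwiners.
-/

set_option autoImplicit false
set_option linter.unusedSectionVars false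

open Filter Topology MeasureTheory

namespace Pool.Agent.Helper55.FP

open Pool.Agent.Helper84.NI Pool.Agent.Helper84.GVN Pool.Agent.Helper84.FR
open Pool.Agent.Helper35.FP

section tmp

variable {𝕊 : Type} [Group 𝕊] [TopologicalSpace 𝕊] {L : Type} [NormedAddCommGroup L] [InnerProductSpace ℂ L]
  {ρ : Rp 𝕊 L} (tm : Tmp ρ)

theorem BC.const (c : ℝ) : BC (fun _ : 𝕊 => c) := ⟨continuous_const, |c|, fun _ => le_rfl⟩

theorem BC.add {f f' : 𝕊 → ℝ} (hf : BC f) (hf' : BC f') : BC fun h => f h + f' h := by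
  obtain ⟨h1, C, hC⟩ := hf
  obtain ⟨h2, C', hC'⟩ := hf'
  exact ⟨h1.add h2, C + C', fun h => (abs_add_le _ _).trans (add_le_add (hC h) (hC' h))⟩

theorem BC.mul {f f' : 𝕊 → ℝ} (hf : BC f) (hf' : BC f') : BC fun h => f h * f' h := by
  obtain ⟨h1, C, hC⟩ := hf
  obtain ⟨h2, C', hC'⟩ := hf'
  refine ⟨h1.mul h2, C * C', fun h => ?_⟩
  rw [abs_mul]
  exact mul_le_mul (hC h) (hC' h) (abs_nonneg _) ((abs_nonneg _).trans (hC h))

theorem BC.sum {ι : Type} (s : Finset ι) {f : ι → 𝕊 → ℝ} (hf : ∀ i ∈ s, BC (f i)) : BC fun h => ∑ i ∈ s, f i h := by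
  classical
  induction s using Finset.induction_on with
  | empty => simpa using BC.const (𝕊 := 𝕊) 0
  | insert a s ha ih =>
    simp only [Finset.sum_insert ha]
    exact (hf a (Finset.mem_insert_self _ _)).add (ih fun i hi => hf i (Finset.mem_insert_of_mem hi))

theorem Tmp.zero (x : L) : tm.m (fun _ => 0) x = 0 := by
  have h := tm.smul 0 (fun _ => 1) (BC.const 1) x
  simp only [zero_mul, Complex.ofReal_zero, zero_smul] at h
  exact h

theorem Tmp.sum {ι : Type} (s : Finset ι) {f : ι → 𝕊 → ℝ} (hf : ∀ i ∈ s, BC (f i)) (x : L) :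
    tm.m (fun h => ∑ i ∈ s, f i h) x = ∑ i ∈ s, tm.m (f i) x := by
  classical
  induction s using Finset.induction_on with
  | empty => simpa using tm.zero x
  | insert a s ha ih =>
    simp only [Finset.sum_insert ha]
    rw [tm.add _ _ (hf a (Finset.mem_insert_self _ _)) (BC.sum s fun i hi => hf i (Finset.mem_insert_of_mem hi)),
      ih fun i hi => hf i (Finset.mem_insert_of_mem hi)]

theorem Tmp.norm_le {f : 𝕊 → ℝ} (hf : Continuous f) {C : ℝ} (hC0 : 0 ≤ C) (hC : ∀ h, |f h| ≤ C) (x : L) :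
    ‖tm.m f x‖ ≤ C * ‖x‖ := by
  have hb : BC f := ⟨hf, C, hC⟩
  have hb2 : BC fun h => f h * f h := hb.mul hb
  have hb3 : BC fun h => (-1 : ℝ) * (f h * f h) := (BC.const (-1)).mul hb2
  have hb4 : BC fun h => C ^ 2 + (-1 : ℝ) * (f h * f h) := (BC.const (C ^ 2)).add hb3
  have h1 := tm.pos (fun h => C ^ 2 + (-1 : ℝ) * (f h * f h)) hb4 (fun h => by
    have h2 : f h * f h ≤ C ^ 2 := by
      rw [← abs_mul_abs_self (f h), sq]
      exact mul_self_le_mul_self (abs_nonneg _) (hC h)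
    linarith) x
  have h2 : tm.m (fun _ => C ^ 2) x = ((C ^ 2 : ℝ) : ℂ) • x := by
    have h3 := tm.smul (C ^ 2) (fun _ => 1) (BC.const 1) x
    simp only [mul_one] at h3
    rw [h3, tm.one]
  have h4 : (inner ℂ x (tm.m (fun h => C ^ 2 + (-1 : ℝ) * (f h * f h)) x) : ℂ) =
      ((C ^ 2 * ‖x‖ ^ 2 - ‖tm.m f x‖ ^ 2 : ℝ) : ℂ) := by
    rw [tm.add _ _ (BC.const _) hb3, tm.smul _ _ hb2, tm.mul _ _ hb hb, h2, inner_add_right, inner_smul_right,
      inner_smul_right, ← tm.symm f hb, inner_self_eq_norm_sq_to_K, inner_self_eq_norm_sq_to_K]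
    push_cast
    rw [neg_one_mul, ← sub_eq_add_neg]
    rfl
  rw [h4, Complex.ofReal_re] at h1
  have h5 : ‖tm.m f x‖ ^ 2 ≤ (C * ‖x‖) ^ 2 := by
    rw [mul_pow]
    linarith
  exact (pow_le_pow_iff_left₀ (norm_nonneg _) (mul_nonneg hC0 (norm_nonneg _)) two_ne_zero).1 h5

end tmp

section mf

variable {𝔾 𝕊 : Type} [Group 𝔾] [TopologicalSpace 𝔾] [IsTopologicalGroup 𝔾] [Group 𝕊] [TopologicalSpace 𝕊] [IsTopologicalGroup 𝕊]
  {𝕂 : Subgroup 𝕊} {geo : Geo 𝔾 𝕊 𝕂} {G S' H U : Type} [Group G] [Group S'] [TopologicalSpace S']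
  [NormedAddCommGroup H] [InnerProductSpace ℂ H] [CompleteSpace H]
  [NormedAddCommGroup U] [InnerProductSpace ℂ U] [CompleteSpace U]
variable {L : Type} [NormedAddCommGroup L] [InnerProductSpace ℂ L] {ρ : Rp 𝕊 L}

/-- Bounded continuous functions on `𝔾`, invariant under the kernel of the block. -/
structure Ad (geo : Geo 𝔾 𝕊 𝕂) (f : 𝔾 → ℝ) : Prop where
  cont : Continuous f
  bdd : ∃ C : ℝ, 0 ≤ C ∧ ∀ g, |f g| ≤ C
  inv : ∀ (g : 𝔾) (q : geo.Q), geo.nb q = 1 → f (g * q) = f g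

/-- A continuous section of the block. -/
structure Sc (geo : Geo 𝔾 𝕊 𝕂) where
  /-- the section -/
  s : 𝕊 → geo.Q
  cont : Continuous s
  nb : ∀ h, geo.nb (s h) = h

theorem Ad.bc {f : 𝔾 → ℝ} (hf : Ad geo f) (s : Sc geo) (g : 𝔾) : BC fun h => f (g * s.s h) := by
  obtain ⟨C, -, hC⟩ := hf.bdd
  refine ⟨?_, C, fun h => hC _⟩
  have hs := s.cont
  exact hf.cont.comp (continuous_const.mul (continuous_subtype_val.comp hs))

theorem Ad.equi {f : 𝔾 → ℝ} (hf : Ad geo f) (s : Sc geo) (g : 𝔾) (q : geo.Q) (h : 𝕊) :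
    f (g * q * s.s h) = f (g * s.s (geo.nb q * h)) := by
  have h1 : geo.nb ((s.s (geo.nb q * h))⁻¹ * (q * s.s h)) = 1 := by
    rw [map_mul, map_inv, map_mul, s.nb, s.nb, inv_mul_cancel]
  have h2 := hf.inv (g * s.s (geo.nb q * h)) _ h1
  rw [← h2]
  congr 1
  push_cast
  group

/-- The field `g ↦ m (h ↦ f (g s(h)))`. -/
noncomputable def mfld (tm : Tmp ρ) (s : Sc geo) {f : 𝔾 → ℝ} (hf : Ad geo f) : Fd geo ρ ρ where
  O g := tm.m fun h => f (g * s.s h)
  cont w := by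
    obtain ⟨C, hC0, hC⟩ := hf.bdd
    rw [continuous_iff_continuousAt]
    intro g₀
    rw [ContinuousAt, Metric.tendsto_nhds]
    intro ε hε
    obtain ⟨K, δ, hK, hδ, hKδ⟩ := tm.tight w (ε / 2) (2 * C) (by positivity)
    have hc : Continuous fun p : 𝔾 × 𝕊 => f (p.1 * s.s p.2) := by
      have hs := s.cont
      exact hf.cont.comp (continuous_fst.mul (continuous_subtype_val.comp (hs.comp continuous_snd)))
    have hev : ∀ᶠ g in 𝓝 g₀, ∀ h ∈ K, |f (g * s.s h) - f (g₀ * s.s h)| < δ := by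
      have h1 : IsOpen {p : 𝔾 × 𝕊 | |f (p.1 * s.s p.2) - f (g₀ * s.s p.2)| < δ} := by
        refine isOpen_lt ?_ continuous_const
        have hc2 : Continuous fun p : 𝔾 × 𝕊 => f (g₀ * s.s p.2) := by
          have hs := s.cont
          exact hf.cont.comp (continuous_const.mul (continuous_subtype_val.comp (hs.comp continuous_snd)))
        exact (hc.sub hc2).abs
      have h2 : ({g₀} : Set 𝔾) ×ˢ K ⊆ {p : 𝔾 × 𝕊 | |f (p.1 * s.s p.2) - f (g₀ * s.s p.2)| < δ} := by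
        rintro ⟨g, h⟩ ⟨hg, hh⟩
        rw [Set.mem_singleton_iff] at hg
        subst hg
        show |f (g * s.s h) - f (g * s.s h)| < δ
        rw [sub_self, abs_zero]
        exact hδ
      obtain ⟨u, v, hu, -, hgu, hKv, huv⟩ := generalized_tube_lemma isCompact_singleton hK h1 h2
      filter_upwards [hu.mem_nhds (hgu rfl)] with g hg h hh
      exact huv (Set.mk_mem_prod hg (hKv hh))
    filter_upwards [hev] with g hg
    rw [dist_eq_norm]
    have hb1 := hf.bc s g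
    have hb2 := hf.bc s g₀
    have hb3 : BC fun h => (-1 : ℝ) * f (g₀ * s.s h) := (BC.const (-1)).mul hb2
    have e : tm.m (fun h => f (g * s.s h)) w - tm.m (fun h => f (g₀ * s.s h)) w =
        tm.m (fun h => f (g * s.s h) + (-1 : ℝ) * f (g₀ * s.s h)) w := by
      rw [tm.add _ _ hb1 hb3, tm.smul _ _ hb2]
      push_cast
      rw [neg_smul, one_smul, sub_eq_add_neg]
    rw [e]
    refine lt_of_le_of_lt (hKδ _ (hb1.add hb3).1 (fun h => ?_) fun h hh => ?_) (half_lt_self hε)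
    · have h1 := hC (g * s.s h)
      have h2 := hC (g₀ * s.s h)
      rw [abs_le] at h1 h2 ⊢
      constructor <;> linarith
    · have h1 := (hg h hh).le
      rw [neg_one_mul, ← sub_eq_add_neg]
      exact h1
  inv g q w := by
    rw [tm.cov _ _ (hf.bc s g)]
    congr 2
    funext h
    rw [hf.equi s g q h, inv_inv]
  bdd := by
    obtain ⟨C, hC0, hC⟩ := hf.bdd
    refine ⟨C, hC0, fun g => ?_⟩
    exact ContinuousLinearMap.opNorm_le_bound _ hC0 fun w => tm.norm_le (hf.bc s g).1 hC0 (fun h => hC _) w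

theorem mfld_O (tm : Tmp ρ) (s : Sc geo) {f : 𝔾 → ℝ} (hf : Ad geo f) (g : 𝔾) :
    (mfld tm s hf).O g = tm.m fun h => f (g * s.s h) := rfl

variable (B : BD geo G S' H U)

theorem mfld_symm (tm : Tmp ρ) (s : Sc geo) {f : 𝔾 → ℝ} (hf : Ad geo f) (y y' : Kt B ρ) :
    (inner ℂ (mulF B (mfld tm s hf) y) y' : ℂ) = inner ℂ y (mulF B (mfld tm s hf) y') :=
  inner_mulF B _ _ (fun g w w' => tm.symm _ (hf.bc s g) w w') y y'

/-- The sum of the squares of the multipliers. -/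
theorem sum_mfld {ι : Type} (tm : Tmp ρ) (s : Sc geo) (S : Finset ι) {f : ι → 𝔾 → ℝ} (hf : ∀ i, Ad geo (f i))
    {C : ℝ} (hC : ∀ g, ∑ i ∈ S, f i g ^ 2 = C ^ 2) (y : Kt B ρ) :
    ∑ i ∈ S, ‖mulF B (mfld tm s (hf i)) y‖ ^ 2 = C ^ 2 * ‖y‖ ^ 2 := by
  have h1 : ∑ i ∈ S, mulF B (mfld tm s (hf i)) (mulF B (mfld tm s (hf i)) y) = ((C ^ 2 : ℝ) : ℂ) • y := by
    have h2 : (∑ i ∈ S, (mulF B (mfld tm s (hf i))).comp (mulF B (mfld tm s (hf i)))) =
        (((C ^ 2 : ℝ) : ℂ) • ContinuousLinearMap.id ℂ (Kt B ρ) : Kt B ρ →L[ℂ] Kt B ρ) := by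
      refine ext_tot (tot_tau B ρ) fun p => ?_
      rw [sum_apply]
      have h3 : ∀ i, ((mulF B (mfld tm s (hf i))).comp (mulF B (mfld tm s (hf i)))) (tau B p.1 p.2) =
          (kt B ρ).τ ((mfld tm s (hf i)).ap ((mfld tm s (hf i)).ap p.1)) p.2 := fun i => by
        rw [ContinuousLinearMap.comp_apply, mulF_tau, mulF_tau]
        rfl
      rw [Finset.sum_congr rfl fun i _ => h3 i, ← sum_apply, ← map_sum]
      have h4 : ∑ i ∈ S, (mfld tm s (hf i)).ap ((mfld tm s (hf i)).ap p.1) = ((C ^ 2 : ℝ) : ℂ) • p.1 := by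
        apply Subtype.ext
        funext g
        rw [Submodule.coe_sum, Finset.sum_apply]
        have h5 : ∀ i, (((mfld tm s (hf i)).ap ((mfld tm s (hf i)).ap p.1) : Sec geo ρ) : 𝔾 → L) g =
            tm.m (fun h => f i (g * s.s h) * f i (g * s.s h)) ((p.1 : 𝔾 → L) g) := fun i => by
          rw [tm.mul _ _ ((hf i).bc s g) ((hf i).bc s g)]
          rfl
        rw [Finset.sum_congr rfl fun i _ => h5 i, ← tm.sum S fun i _ => ((hf i).bc s g).mul ((hf i).bc s g)]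
        have h6 : (fun h => ∑ i ∈ S, f i (g * s.s h) * f i (g * s.s h)) = fun _ : 𝕊 => C ^ 2 * 1 := by
          funext h
          rw [mul_one, ← hC (g * s.s h)]
          exact Finset.sum_congr rfl fun i _ => by ring
        rw [h6, tm.smul _ _ (BC.const 1), tm.one]
        rfl
      rw [h4, map_smul]
      rfl
    have h3 := congrArg (fun T : Kt B ρ →L[ℂ] Kt B ρ => T y) h2
    simp only [sum_apply, ContinuousLinearMap.comp_apply] at h3
    rw [h3]
    rfl
  have h2 : ((∑ i ∈ S, ‖mulF B (mfld tm s (hf i)) y‖ ^ 2 : ℝ) : ℂ) = ((C ^ 2 * ‖y‖ ^ 2 : ℝ) : ℂ) := by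
    have h3 : (inner ℂ y (∑ i ∈ S, mulF B (mfld tm s (hf i)) (mulF B (mfld tm s (hf i)) y)) : ℂ) =
        ((C ^ 2 * ‖y‖ ^ 2 : ℝ) : ℂ) := by
      rw [h1, inner_smul_right, inner_self_eq_norm_sq_to_K]
      push_cast
      rfl
    rw [← h3, inner_sum, Complex.ofReal_sum]
    refine Finset.sum_congr rfl fun i _ => ?_
    rw [← mfld_symm, inner_self_eq_norm_sq_to_K]
    push_cast
    rfl
  exact_mod_cast h2

/-- Domination of the sum of the squares of the multipliers. -/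
theorem sum_mfld_le {ι : Type} (tm : Tmp ρ) (s : Sc geo) (S : Finset ι) {f : ι → 𝔾 → ℝ} (hf : ∀ i, Ad geo (f i))
    {C : ℝ} (hC : ∀ g, ∑ i ∈ S, f i g ^ 2 ≤ C ^ 2) (y : Kt B ρ) :
    ∑ i ∈ S, ‖mulF B (mfld tm s (hf i)) y‖ ^ 2 ≤ C ^ 2 * ‖y‖ ^ 2 := by
  classical
  let r : 𝔾 → ℝ := fun g => Real.sqrt (C ^ 2 - ∑ i ∈ S, f i g ^ 2)
  have hr : Ad geo r := by
    refine ⟨?_, ⟨|C|, abs_nonneg _, fun g => ?_⟩, fun g q hq => ?_⟩
    · refine Continuous.sqrt ?_
      exact continuous_const.sub (continuous_finsetSum _ fun i _ => (hf i).cont.pow 2)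
    · rw [abs_of_nonneg (Real.sqrt_nonneg _)]
      refine Real.sqrt_le_iff.2 ⟨abs_nonneg _, ?_⟩
      rw [sq_abs]
      have : 0 ≤ ∑ i ∈ S, f i g ^ 2 := Finset.sum_nonneg fun i _ => sq_nonneg _
      linarith
    · show Real.sqrt _ = Real.sqrt _
      rw [Finset.sum_congr rfl fun i _ => by rw [(hf i).inv g q hq]]
  let f' : Option ι → 𝔾 → ℝ := fun o => o.elim r f
  have hf' : ∀ o, Ad geo (f' o) := by
    rintro (_ | i)
    · exact hr
    · exact hf i
  have h1 := sum_mfld B tm s (insert none (S.map Function.Embedding.some)) hf' (C := C) (fun g => by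
    rw [Finset.sum_insert (by simp), Finset.sum_map]
    show Real.sqrt _ ^ 2 + ∑ i ∈ S, f i g ^ 2 = C ^ 2
    rw [Real.sq_sqrt (by linarith [hC g])]
    ring) y
  rw [Finset.sum_insert (by simp), Finset.sum_map] at h1
  rw [← h1]
  have h2 : ∑ i ∈ S, ‖mulF B (mfld tm s (hf i)) y‖ ^ 2 =
      ∑ i ∈ S, ‖mulF B (mfld tm s (hf' (Function.Embedding.some i))) y‖ ^ 2 := rfl
  rw [h2]
  exact le_add_of_nonneg_left (sq_nonneg _)

end mf

section span

variable {I L0 H K Y : Type} [NormedAddCommGroup L0] [InnerProductSpace ℂ L0] [CompleteSpace L0]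
  [NormedAddCommGroup H] [InnerProductSpace ℂ H] [CompleteSpace H]
  [NormedAddCommGroup K] [InnerProductSpace ℂ K] [CompleteSpace K]

/-- A space which is spanned by intertwiners from a space with an isometry into a multiple of `L0` has such an isometry. -/
theorem span_J (s : I → (L0 →L[ℂ] L0)) (k0 : I → (H →L[ℂ] H)) (k : I → (K →L[ℂ] K)) (i' : I → I)
    (hs : ∀ i x y, inner ℂ (s i x) y = (inner ℂ x (s (i' i) y) : ℂ))
    (hk0 : ∀ i x y, inner ℂ (k0 i x) y = (inner ℂ x (k0 (i' i) y) : ℂ))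
    (hk : ∀ i x y, inner ℂ (k i x) y = (inner ℂ x (k (i' i) y) : ℂ)) 
    (J0 : H →ₗᵢ[ℂ] Lv Y L0) (hJ0 : ∀ i x y, J0 (k0 i x) y = s i (J0 x y))
    (hspan : ∀ ξ : K, (∀ T : H →L[ℂ] K, (∀ i x, T (k0 i x) = k i (T x)) → ∀ x, (inner ℂ ξ (T x) : ℂ) = 0) → ξ = 0) :
    ∃ (Y' : Type) (J : K →ₗᵢ[ℂ] Lv Y' L0), ∀ i x y, J (k i x) y = s i (J x y) := by
  obtain ⟨Y', J, z, hJz, hz1, hzs, hzT, hzc, hJk⟩ := exists_GJ s k i' hs hk
  -- the components of `J0`
  let ev : ∀ y : Y, Lv Y L0 →L[ℂ] L0 := fun y => lp.evalCLM ℂ (fun _ : Y => L0) 2 y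
  let Cy : Y → (H →L[ℂ] L0) := fun y => (ev y).comp J0.toContinuousLinearMap
  have hCy : ∀ y x, Cy y x = J0 x y := fun y x => rfl
  have hCa : ∀ y i w, ContinuousLinearMap.adjoint (Cy y) (s i w) = k0 i (ContinuousLinearMap.adjoint (Cy y) w) := by
    intro y i w
    refine ext_inner_right ℂ fun x => ?_
    rw [ContinuousLinearMap.adjoint_inner_left, hs, hk0, ContinuousLinearMap.adjoint_inner_left, hCy, hCy, hJ0]
  have hzT' : ∀ T : H →L[ℂ] K, (∀ i x, T (k0 i x) = k i (T x)) → ∀ x, z (T x) = T x := by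
    intro T hT
    let R : H →L[ℂ] K := z.comp T - T
    have hR : ∀ y w, R (ContinuousLinearMap.adjoint (Cy y) w) = 0 := by
      intro y w
      have h1 := hzT (T.comp (ContinuousLinearMap.adjoint (Cy y))) (fun i w => by
        rw [ContinuousLinearMap.comp_apply, ContinuousLinearMap.comp_apply, hCa, hT]) w
      show z (T _) - T _ = 0
      rw [sub_eq_zero]
      exact h1
    have hRadj : ∀ v, ContinuousLinearMap.adjoint R v = 0 := by
      intro v
      set x := ContinuousLinearMap.adjoint R v with hx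
      have h1 : ∀ y, J0 x y = 0 := by
        intro y
        rw [← hCy, ← inner_self_eq_zero (𝕜 := ℂ), ← ContinuousLinearMap.adjoint_inner_right, hx,
          ContinuousLinearMap.adjoint_inner_left, hR, inner_zero_right]
      have h2 : J0 x = 0 := lv_ext fun y => h1 y
      exact J0.injective (by rw [h2, map_zero])
    intro x
    have h3 : R x = 0 := by
      refine ext_inner_left ℂ fun v => ?_
      rw [← ContinuousLinearMap.adjoint_inner_left, hRadj, inner_zero_left, inner_zero_right]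
    exact sub_eq_zero.1 h3
  have hzall : ∀ ξ, z ξ = ξ := by
    intro ξ
    refine (sub_eq_zero.1 (hspan (ξ - z ξ) fun T hT x => ?_)).symm
    rw [inner_sub_left, hzs, hzT' T hT, sub_self]
  refine ⟨Y', ⟨J.toLinearMap, fun x => ?_⟩, fun i x y => hJk i x y⟩
  show ‖J x‖ = ‖x‖
  rw [hJz, hzall]

end span

end Pool.Agent.Helper55.FP
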