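import Pool.Agent.Helper84.FR.FX
import Pool.Agent.Helper55.FP.Cov

/-!
# Project FP (MP_0f6f3f_an): the transfer: a covariant finitely additive measure from amenable multipliers

Setting of `final3` (`Helper9/S3X/H2.lean`): a group `F` acting by shifts `M.S f` on `K`, a representation `B` of `G` with approximately equivariant multipliers, an isometry `J` of `K` into an induced space. For a unitary
representation `u` of `F` on `U` and an isometry `ι : U → K` with `ι (u f x) = M.S f (opR f (ι x))` whose values are bounded vectors, the limit of the forms `qg` along an ultrafilter gives `CovP u`.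
-/

set_option autoImplicit false

open Filter Topology MeasureTheory

namespace Pool.Agent.Helper55.FP

open Pool.Agent.Helper84.NI Pool.Agent.Helper84.GVN Pool.Agent.Helper84.FR

section op

/-- Limits of bounded sesquilinear forms along an ultrafilter. -/
theorem exists_op {U α : Type*} [NormedAddCommGroup U] [InnerProductSpace ℂ U] [CompleteSpace U]
    (𝓤 : Ultrafilter α) (b : α → U → U → ℂ)
    (h1 : ∀ i x y z, b i (x + y) z = b i x z + b i y z) (h2 : ∀ i (c : ℂ) x z, b i (c • x) z = starRingEnd ℂ c * b i x z)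
    (h3 : ∀ i x y z, b i x (y + z) = b i x y + b i x z) (h4 : ∀ i (c : ℂ) x z, b i x (c • z) = c * b i x z)
    (h5 : ∀ i x y, ‖b i x y‖ ≤ ‖x‖ * ‖y‖) :
    ∃ T : U →L[ℂ] U, ∀ x y, Tendsto (fun i => b i x y) 𝓤 (𝓝 (inner ℂ (T x) y)) := by
  have hl : ∀ x y, ∃ z ∈ Metric.closedBall (0 : ℂ) (‖x‖ * ‖y‖), Tendsto (fun i => b i x y) 𝓤 (𝓝 z) := by
    intro x y
    have h6 : (𝓤.map fun i => b i x y) ≤ (𝓟 (Metric.closedBall (0 : ℂ) (‖x‖ * ‖y‖)) : Filter ℂ) := by
      rw [Ultrafilter.coe_map, Filter.le_principal_iff]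
      refine Filter.mem_map.2 (Filter.Eventually.of_forall fun i => ?_)
      show b i x y ∈ Metric.closedBall (0 : ℂ) (‖x‖ * ‖y‖)
      rw [mem_closedBall_zero_iff]
      exact h5 i x y
    obtain ⟨z, hz, hz2⟩ := (isCompact_closedBall (0 : ℂ) (‖x‖ * ‖y‖)).ultrafilter_le_nhds _ h6
    exact ⟨z, hz, hz2⟩
  choose L hL hL2 using hl
  have hub : ∀ x y z, Tendsto (fun i => b i x y) 𝓤 (𝓝 z) → L x y = z := fun x y z h =>
    tendsto_nhds_unique (hL2 x y) h
  let B0 : U →ₗ⋆[ℂ] U →ₗ[ℂ] ℂ := LinearMap.mk₂'ₛₗ (starRingEnd ℂ) (RingHom.id ℂ) L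
    (fun x y z => hub _ _ _ (by
      have := (hL2 x z).add (hL2 y z)
      refine this.congr fun i => ?_
      rw [h1]))
    (fun c x z => hub _ _ _ (by
      have := (hL2 x z).const_mul (starRingEnd ℂ c)
      refine this.congr fun i => ?_
      rw [h2]))
    (fun x y z => hub _ _ _ (by
      have := (hL2 x y).add (hL2 x z)
      refine this.congr fun i => ?_
      rw [h3]))
    (fun c x z => hub _ _ _ (by
      have := (hL2 x z).const_mul c
      refine this.congr fun i => ?_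
      rw [h4]))
  let B1 : U →L⋆[ℂ] U →L[ℂ] ℂ := LinearMap.mkContinuous₂ B0 1 (fun x y => by
    have h6 := hL x y
    rw [mem_closedBall_zero_iff] at h6
    rw [one_mul]
    exact h6)
  refine ⟨InnerProductSpace.continuousLinearMapOfBilin B1, fun x y => ?_⟩
  rw [InnerProductSpace.continuousLinearMapOfBilin_apply]
  exact hL2 x y

end op

variable {F X Λ G : Type} [Group F] [MulAction F X] [MeasurableSpace X] [MeasurableConstSMul F X] [Group Λ]
  [Countable Λ] [Group G]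
variable {K L0 : Type} [NormedAddCommGroup K] [InnerProductSpace ℂ K] [CompleteSpace K]
  [NormedAddCommGroup L0] [InnerProductSpace ℂ L0] [CompleteSpace L0]

section qg

variable {W : Type} [NormedAddCommGroup W] [InnerProductSpace ℂ W]

omit [CompleteSpace K] [Group G] in
private theorem th_hasSum {ι : Type} (J : K →L[ℂ] W) (Yo : W →L[ℂ] W) [Group G]
    (B : G →* (K ≃ₗᵢ[ℂ] K)) (m : G → (K →L[ℂ] K)) (S : Finset G) (ξ : K) {v : ι → K} {ξ' : K}
    (h : HasSum v ξ') : HasSum (fun i => qg J Yo B m S ξ (v i)) (qg J Yo B m S ξ ξ') := by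
  unfold qg
  refine hasSum_sum fun t _ => ?_
  have h1 : HasSum (fun i => Yo (J (B t⁻¹ (m t (v i))))) (Yo (J (B t⁻¹ (m t ξ')))) :=
    (((Yo.comp J).comp ((B t⁻¹).toContinuousLinearEquiv : K →L[ℂ] K)).comp (m t)).hasSum h
  exact h1.mapL (innerSL ℂ (J (B t⁻¹ (m t ξ))))

omit [Group G] in
/-- Common finite set and common `ε` for finitely many approximation problems. -/
private theorem th_common {ι : Type} (s : Finset ι) (Q : ι → Finset G) (δ : ι → ℝ)
    (hδ : ∀ i, 0 < δ i) : ∃ (Q₀ : Finset G) (δ₀ : ℝ), 0 < δ₀ ∧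
      ∀ i ∈ s, Q i ⊆ Q₀ ∧ δ₀ ≤ δ i := by
  classical
  induction s using Finset.induction_on with
  | empty => exact ⟨∅, 1, one_pos, fun l hl => absurd hl (Finset.notMem_empty l)⟩
  | insert b s _ ih =>
    obtain ⟨Q₁, d, hd, hd'⟩ := ih
    refine ⟨Q₁ ∪ Q b, min d (δ b), lt_min hd (hδ b), fun l hl => ?_⟩
    rcases Finset.mem_insert.1 hl with rfl | hl
    · exact ⟨Finset.subset_union_right, min_le_right _ _⟩
    · exact ⟨(hd' l hl).1.trans Finset.subset_union_left, (min_le_left _ _).trans (hd' l hl).2⟩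

/-- The difference of the forms at `R f η` and at `η` (`fx_R` of `Helper84/FR/FX.lean`). -/
private theorem th_R (a : Cocy F X Λ) (E : Emb Λ G) {M : XM F X K} {B : G →* (K ≃ₗᵢ[ℂ] K)}
    (hB : ∀ g, M.Hom M ((B g).toContinuousLinearEquiv : K →L[ℂ] K)) {ν : Measure X} {η : K}
    (hη : BddX M ν B η) (f : F) {ε₁ : ℝ}
    (hε₁ : 0 < ε₁) : ∃ (Q : Finset G) (δ : ℝ), 0 < δ ∧
      ∀ (S : Finset G) (m : G → (K →L[ℂ] K)),
      (∀ t, t ∉ S → m t = 0) → (∀ x, ∑ t ∈ S, ‖m t x‖ ^ 2 = ‖x‖ ^ 2) →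
      (∀ h ∈ Q, ∀ x, ∀ S' : Finset G,
        ∑ t ∈ S', ‖m t (B h x) - B h (m (h⁻¹ * t) x)‖ ^ 2 ≤ δ ^ 2 * ‖x‖ ^ 2) →
      ∀ (J : K →L[ℂ] W) (Yo : W →L[ℂ] W), (∀ x, ‖J x‖ ≤ ‖x‖) → (∀ w, ‖Yo w‖ ≤ ‖w‖) →
        (∀ D : Set X, MeasurableSet D → ∀ ξ ξ',
          qg J Yo B m S (M.py.p D ξ) ξ' = qg J Yo B m S ξ (M.py.p D ξ')) →
        ‖qg J Yo B m S (opR M a (CRep.ext B E.conj) f η) (opR M a (CRep.ext B E.conj) f η) -
          qg J Yo B m S η η‖ ≤ ε₁ := by
  classical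
  have hU : UHom M (CRep.ext B E.conj) := uhom_ext E.conj hB
  set c : X → Λ := a.a f with hc
  have hcm : Mea c := a.meas f
  have hN : HasSum (fun l => ‖M.py.p (c ⁻¹' {l}) η‖ ^ 2) (‖η‖ ^ 2) := M.py.norm_sq_sum hcm η
  -- a finite set carrying most of the mass
  obtain ⟨Λ0, hΛ0⟩ : ∃ Λ0 : Finset Λ,
      ‖η‖ ^ 2 - ∑ l ∈ Λ0, ‖M.py.p (c ⁻¹' {l}) η‖ ^ 2 < ε₁ / 4 := by
    have h2 := (Metric.tendsto_atTop.1 hN) (ε₁ / 4) (by positivity)
    obtain ⟨Λ0, h3⟩ := h2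
    refine ⟨Λ0, ?_⟩
    have h4 := h3 Λ0 le_rfl
    rw [dist_comm, Real.dist_eq] at h4
    exact (le_abs_self _).trans_lt h4
  have hε₂ : 0 < ε₁ / (2 * (Λ0.card : ℝ) + 2) := by positivity
  have hmain := fun l : Λ => qg_main (W := W) (E := E.conj)
    (hη (c ⁻¹' {l}) (hcm l)) l hε₂
  choose Q δ hδ hQ using hmain
  obtain ⟨Q₀, δ₀, hδ₀, hQ₀⟩ := th_common Λ0 Q δ hδ
  refine ⟨Q₀, δ₀, hδ₀, ?_⟩
  intro S m hm0 hm1 hm2 J Yo hJ hY hp
  have hidem : ∀ l ξ, M.py.p (c ⁻¹' {l}) (M.py.p (c ⁻¹' {l}) ξ) = M.py.p (c ⁻¹' {l}) ξ := by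
    intro l ξ
    rw [M.py.inter _ _ (hcm l) (hcm l), Set.inter_self]
  have hexp : ∀ ξ : K, HasSum
      (fun l => qg J Yo B m S (M.py.p (c ⁻¹' {l}) ξ) (M.py.p (c ⁻¹' {l}) ξ))
      (qg J Yo B m S ξ ξ) := by
    intro ξ
    have h2 := th_hasSum J Yo B m S ξ (M.py.sum Λ c hcm ξ)
    have h3 : (fun l => qg J Yo B m S (M.py.p (c ⁻¹' {l}) ξ) (M.py.p (c ⁻¹' {l}) ξ)) =
        fun l => qg J Yo B m S ξ (M.py.p (c ⁻¹' {l}) ξ) := by
      funext l
      rw [hp _ (hcm l), hidem]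
    rw [h3]
    exact h2
  have hR : ∀ l, M.py.p (c ⁻¹' {l}) (opR M a (CRep.ext B E.conj) f η) =
      ext B E.conj l (M.py.p (c ⁻¹' {l}) η) := by
    intro l
    unfold opR
    rw [tw_at M.py (CRep.ext B E.conj) hU.py hcm l η]
    exact hU.py _ (hcm l) l η
  have hsum := (hexp (opR M a (CRep.ext B E.conj) f η)).sub (hexp η)
  simp only [hR] at hsum
  -- the bound for the terms
  have hd1 : ∀ l, ‖qg J Yo B m S (ext B E.conj l (M.py.p (c ⁻¹' {l}) η))
      (ext B E.conj l (M.py.p (c ⁻¹' {l}) η)) -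
      qg J Yo B m S (M.py.p (c ⁻¹' {l}) η) (M.py.p (c ⁻¹' {l}) η)‖ ≤
      2 * ‖M.py.p (c ⁻¹' {l}) η‖ ^ 2 := by
    intro l
    refine (norm_sub_le _ _).trans ?_
    have h3 := qg_bound hJ hY B hm1 (ext B E.conj l (M.py.p (c ⁻¹' {l}) η))
      (ext B E.conj l (M.py.p (c ⁻¹' {l}) η))
    have h4 := qg_bound hJ hY B hm1 (M.py.p (c ⁻¹' {l}) η) (M.py.p (c ⁻¹' {l}) η)
    have h5 := norm_ext_le B E.conj l (M.py.p (c ⁻¹' {l}) η)
    have h6 : ‖ext B E.conj l (M.py.p (c ⁻¹' {l}) η)‖ * ‖ext B E.conj l (M.py.p (c ⁻¹' {l}) η)‖ ≤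
        ‖M.py.p (c ⁻¹' {l}) η‖ * ‖M.py.p (c ⁻¹' {l}) η‖ :=
      mul_le_mul h5 h5 (norm_nonneg _) (norm_nonneg _)
    nlinarith
  have hd2 : ∀ l ∈ Λ0, ‖qg J Yo B m S (ext B E.conj l (M.py.p (c ⁻¹' {l}) η))
      (ext B E.conj l (M.py.p (c ⁻¹' {l}) η)) -
      qg J Yo B m S (M.py.p (c ⁻¹' {l}) η) (M.py.p (c ⁻¹' {l}) η)‖ ≤
      ε₁ / (2 * (Λ0.card : ℝ) + 2) := by
    intro l hl
    refine hQ l S m hm0 hm1 (fun h hh x S' => ?_) J Yo hJ hY
    refine (hm2 h ((hQ₀ l hl).1 hh) x S').trans ?_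
    exact mul_le_mul_of_nonneg_right (pow_le_pow_left₀ hδ₀.le (hQ₀ l hl).2 2) (sq_nonneg _)
  have hg : HasSum (fun l => (if l ∈ Λ0 then ε₁ / (2 * (Λ0.card : ℝ) + 2) -
      2 * ‖M.py.p (c ⁻¹' {l}) η‖ ^ 2 else 0) + 2 * ‖M.py.p (c ⁻¹' {l}) η‖ ^ 2)
      ((∑ l ∈ Λ0, (if l ∈ Λ0 then ε₁ / (2 * (Λ0.card : ℝ) + 2) -
      2 * ‖M.py.p (c ⁻¹' {l}) η‖ ^ 2 else 0)) + 2 * ‖η‖ ^ 2) :=
    (hasSum_sum_of_ne_finset_zero fun l hl => if_neg hl).add (hN.mul_left 2)
  have hle := tsum_of_norm_bounded hg (f := fun l =>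
      qg J Yo B m S (ext B E.conj l (M.py.p (c ⁻¹' {l}) η))
      (ext B E.conj l (M.py.p (c ⁻¹' {l}) η)) -
      qg J Yo B m S (M.py.p (c ⁻¹' {l}) η) (M.py.p (c ⁻¹' {l}) η)) (fun l => by
    by_cases hl : l ∈ Λ0
    · rw [if_pos hl, sub_add_cancel]
      exact hd2 l hl
    · rw [if_neg hl, zero_add]
      exact hd1 l)
  rw [hsum.tsum_eq] at hle
  refine hle.trans ?_
  rw [Finset.sum_congr rfl fun l hl => if_pos hl, Finset.sum_sub_distrib, Finset.sum_const,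
    nsmul_eq_mul, ← Finset.mul_sum]
  have h7 : (Λ0.card : ℝ) * (ε₁ / (2 * (Λ0.card : ℝ) + 2)) ≤ ε₁ / 2 := by
    have h8 : (0 : ℝ) ≤ Λ0.card := Nat.cast_nonneg _
    rw [mul_div_assoc', div_le_div_iff₀ (by positivity) (by positivity)]
    nlinarith
  linarith

end qg

section phi

/-- The indicator function of `D`. -/
noncomputable def ind1 {F : Type} (D : Set F) : F → ℝ := by
  classical exact fun g => if g ∈ D then 1 else 0

theorem ind1_abs {F : Type} (D : Set F) (g : F) : |ind1 D g| ≤ 1 := by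
  unfold ind1
  split_ifs <;> simp

theorem ind1_nonneg {F : Type} (D : Set F) (g : F) : 0 ≤ ind1 D g := by
  unfold ind1
  split_ifs <;> simp

theorem ind1_lt (f : F) (D : Set F) : (fun g => ind1 (lt f D) (f * g)) = ind1 D := by
  funext g
  unfold ind1
  have h : f * g ∈ lt f D ↔ g ∈ D := by rw [mem_lt, inv_mul_cancel_left]
  by_cases hg : g ∈ D
  · rw [if_pos (h.2 hg), if_pos hg]
  · rw [if_neg (fun h' => hg (h.1 h')), if_neg hg]

omit [MulAction F X] [MeasurableConstSMul F X] in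
theorem Phi_univ (I0 : Imp F X L0) {Y : Type} (w : Lv Y L0) : Phi I0 Y (ind1 (Set.univ : Set F)) w = w := by
  refine lp.ext (funext fun y => ?_)
  rw [Phi_apply I0 (ind1_abs _)]
  refine (phi_hasSum I0 (ind1_abs _) (w y)).unique ?_
  have h := I0.sum (w y)
  have e : (fun f => ((ind1 (Set.univ : Set F) f : ℝ) : ℂ) • I0.e f (w y)) = fun f => I0.e f (w y) := by
    funext f
    unfold ind1
    simp
  rw [e]
  exact h

omit [MulAction F X] [MeasurableConstSMul F X] in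
theorem Phi_union (I0 : Imp F X L0) {Y : Type} {D D' : Set F} (hD : Disjoint D D') (w : Lv Y L0) :
    Phi I0 Y (ind1 (D ∪ D')) w = Phi I0 Y (ind1 D) w + Phi I0 Y (ind1 D') w := by
  refine lp.ext (funext fun y => ?_)
  rw [lp.coeFn_add, Pi.add_apply, Phi_apply I0 (ind1_abs _), Phi_apply I0 (ind1_abs _), Phi_apply I0 (ind1_abs _)]
  refine (phi_hasSum I0 (ind1_abs _) (w y)).unique ?_
  have h := (phi_hasSum I0 (ind1_abs D) (w y)).add (phi_hasSum I0 (ind1_abs D') (w y))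
  have e : (fun f => ((ind1 (D ∪ D') f : ℝ) : ℂ) • I0.e f (w y)) =
      fun f => ((ind1 D f : ℝ) : ℂ) • I0.e f (w y) + ((ind1 D' f : ℝ) : ℂ) • I0.e f (w y) := by
    funext f
    rw [← add_smul]
    congr 1
    rw [Set.disjoint_left] at hD
    unfold ind1
    by_cases h1 : f ∈ D
    · have h2 : f ∉ D' := hD h1
      simp [h1, h2]
    · by_cases h2 : f ∈ D' <;> simp [h1, h2]
  rw [e]
  exact h

omit [MulAction F X] [MeasurableConstSMul F X] in
theorem Phi_symm (I0 : Imp F X L0) {Y : Type} {φ : F → ℝ} (hφ : ∀ f, |φ f| ≤ 1) (w v : Lv Y L0) :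
    (inner ℂ (Phi I0 Y φ w) v : ℂ) = inner ℂ w (Phi I0 Y φ v) := by
  have hp : ∀ x y : L0, (inner ℂ (phi I0 φ x) y : ℂ) = inner ℂ x (phi I0 φ y) := by
    intro x y
    have h1 : HasSum (fun f => (inner ℂ x ((φ f : ℂ) • I0.e f y) : ℂ)) (inner ℂ x (phi I0 φ y)) :=
      (innerSL ℂ x).hasSum (phi_hasSum I0 hφ y)
    have h2 : HasSum (fun f => (inner ℂ y ((φ f : ℂ) • I0.e f x) : ℂ)) (inner ℂ y (phi I0 φ x)) :=
      (innerSL ℂ y).hasSum (phi_hasSum I0 hφ x)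
    have h3 : HasSum (fun f => starRingEnd ℂ (inner ℂ y ((φ f : ℂ) • I0.e f x) : ℂ))
        (starRingEnd ℂ (inner ℂ y (phi I0 φ x))) := by
      have := Complex.conjCLE.toContinuousLinearMap.hasSum (h2 : HasSum _ _)
      exact this
    rw [inner_conj_symm] at h3
    refine h3.unique ?_
    convert h1 using 1
    funext f
    rw [inner_conj_symm, inner_smul_left, inner_smul_right, Complex.conj_ofReal, I0.symm]
  have h1 := lv_inner (Phi I0 Y φ w) v
  have h2 := lv_inner w (Phi I0 Y φ v)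
  refine h1.unique ?_
  convert h2 using 1
  funext y
  rw [Phi_apply I0 hφ, Phi_apply I0 hφ, hp]

omit [MulAction F X] [MeasurableConstSMul F X] in
theorem Phi_nonneg (I0 : Imp F X L0) {Y : Type} (D : Set F) (w : Lv Y L0) :
    0 ≤ (inner ℂ w (Phi I0 Y (ind1 D) w) : ℂ).re :=
  (inner_Phi I0 (ind1_abs D) w).1.nonneg fun f => mul_nonneg (ind1_nonneg D f)
    (tsum_nonneg fun _ => sq_nonneg _)

end phi

/-- **The transfer**: bounded vectors in a space with amenable multipliers carry a covariant measure. -/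
theorem exists_covP (a : Cocy F X Λ) (E : Emb Λ G) {M : XM F X K} {B : G →* (K ≃ₗᵢ[ℂ] K)}
    (hB : ∀ g, M.Hom M ((B g).toContinuousLinearEquiv : K →L[ℂ] K)) (hm : ApxM M (1 : G →* (K ≃ₗᵢ[ℂ] K)) B)
    (I0 : Imp F X L0) {Y : Type} (J : K →ₗᵢ[ℂ] Lv Y L0) (hJV : ∀ (f : F) x y, J (M.S f x) y = I0.V f (J x y))
    (hJP : ∀ (D : Set X), MeasurableSet D → ∀ x y, J (M.py.p D x) y = I0.P0.p D (J x y))
    {U : Type*} [NormedAddCommGroup U] [InnerProductSpace ℂ U] [CompleteSpace U] (u : F →* (U ≃ₗᵢ[ℂ] U))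
    (ι : U →ₗᵢ[ℂ] K) (hι : ∀ f x, ι (u f x) = M.S f (opR M a (CRep.ext B E.conj) f (ι x)))
    (hb : ∀ x, ∃ ν : Measure X, BddX M ν B (ι x)) : Nonempty (CovP u) := by
  classical
  let J' : K →L[ℂ] Lv Y L0 := J.toContinuousLinearMap
  have hJ1 : ∀ x, ‖J' x‖ ≤ ‖x‖ := fun x => (J.norm_map x).le
  have hJi : ∀ x y, (inner ℂ (J' x) (J' y) : ℂ) = inner ℂ x y := fun x y => J.inner_map_map x y
  -- the net of multipliers
  have hnet : ∀ i : Finset G × ℕ, ∃ (S : Finset G) (m : G → (K →L[ℂ] K)),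
      (∀ t, M.Hom M (m t)) ∧ (∀ t, t ∉ S → m t = 0) ∧ (∀ x, ∑ t ∈ S, ‖m t x‖ ^ 2 = ‖x‖ ^ 2) ∧
      ∀ h ∈ i.1, ∀ x, ∀ S' : Finset G,
        ∑ t ∈ S', ‖m t (B h x) - B h (m (h⁻¹ * t) x)‖ ^ 2 ≤ (1 / ((i.2 : ℝ) + 1)) ^ 2 * ‖x‖ ^ 2 := by
    intro i
    obtain ⟨S, m, hm1, -, hm3, hm4, hm5⟩ := hm i.1 (1 / ((i.2 : ℝ) + 1)) (by positivity)
    exact ⟨S, m, hm1, hm3, hm4, hm5⟩
  choose S m hm1 hm3 hm4 hm5 using hnet
  let q : Finset G × ℕ → Set F → K → K → ℂ := fun i D ξ ξ' =>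
    qg J' (Phi I0 Y (ind1 D)) B (m i) (S i) ξ ξ'
  have hqdef : ∀ i D ξ ξ', q i D ξ ξ' = qg J' (Phi I0 Y (ind1 D)) B (m i) (S i) ξ ξ' :=
    fun _ _ _ _ => rfl
  let 𝓤 : Ultrafilter (Finset G × ℕ) := Ultrafilter.of atTop
  have h𝓤 : (𝓤 : Filter (Finset G × ℕ)) ≤ atTop := Ultrafilter.of_le _
  -- the limits
  have hop : ∀ D : Set F, ∃ T : U →L[ℂ] U, ∀ x y, Tendsto (fun i => q i D (ι x) (ι y)) 𝓤 (𝓝 (inner ℂ (T x) y)) := by
    intro D
    refine exists_op 𝓤 (fun i x y => q i D (ι x) (ι y)) ?_ ?_ ?_ ?_ ?_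
    · intro i x y z
      simp only [hqdef]
      rw [map_add, qg_add_left]
    · intro i c x z
      simp only [hqdef]
      rw [map_smul, qg_smul_left]
    · intro i x y z
      simp only [hqdef]
      rw [map_add, qg_add_right]
    · intro i c x z
      simp only [hqdef]
      rw [map_smul, qg_smul_right]
    · intro i x y
      simp only [hqdef]
      have := qg_bound hJ1 (norm_Phi_le I0 (ind1_abs D)) B (hm4 i) (ι x) (ι y)
      rwa [ι.norm_map, ι.norm_map] at this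
  choose P hP using hop
  have hqsymm : ∀ i D ξ ξ', q i D ξ ξ' = starRingEnd ℂ (q i D ξ' ξ) := by
    intro i D ξ ξ'
    simp only [hqdef]
    unfold qg
    rw [map_sum]
    refine Finset.sum_congr rfl fun t _ => ?_
    rw [← Phi_symm I0 (ind1_abs D), inner_conj_symm]
  have hsymm : ∀ D x y, (inner ℂ (P D x) y : ℂ) = inner ℂ x (P D y) := by
    intro D x y
    have h1 := hP D x y
    have h2 : Tendsto (fun i => starRingEnd ℂ (q i D (ι y) (ι x))) 𝓤 (𝓝 (starRingEnd ℂ (inner ℂ (P D y) x))) :=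
      (Complex.continuous_conj.tendsto _).comp (hP D y x)
    rw [inner_conj_symm] at h2
    refine tendsto_nhds_unique h1 (h2.congr fun i => ?_)
    rw [← hqsymm]
  -- covariance in the limit, on the diagonal
  have hBP : ∀ (t : G) (D : Set X), MeasurableSet D → ∀ x : K, B t (M.py.p D x) =
      M.py.p D (B t x) := fun t D hD x => (hB t).y D hD x
  have hqp : ∀ i (D0 : Set F) (D : Set X), MeasurableSet D → ∀ ξ ξ' : K,
      qg J' (Phi I0 Y (ind1 D0)) B (m i) (S i) (M.py.p D ξ) ξ' =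
        qg J' (Phi I0 Y (ind1 D0)) B (m i) (S i) ξ (M.py.p D ξ') := by
    intro i D0 D hD ξ ξ'
    unfold qg
    refine Finset.sum_congr rfl fun t _ => ?_
    rw [(hm1 i t).y D hD, hBP t⁻¹ D hD, (hm1 i t).y D hD, hBP t⁻¹ D hD]
    exact inner_Phi_p I0 (ind1_abs D0) hD (fun y => hJP D hD _ y) (fun y => hJP D hD _ y)
  have hqL : ∀ i (D : Set F) (f : F) (ξ ξ' : K),
      qg J' (Phi I0 Y (ind1 (lt f D))) B (m i) (S i) (M.S f ξ) (M.S f ξ') =
      qg J' (Phi I0 Y (ind1 D)) B (m i) (S i) ξ ξ' := by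
    intro i D f ξ ξ'
    unfold qg
    refine Finset.sum_congr rfl fun t _ => ?_
    have hBS : ∀ x : K, B t⁻¹ (M.S f x) = M.S f (B t⁻¹ x) := fun x => (hB t⁻¹).S f x
    rw [(hm1 i t).S, hBS, (hm1 i t).S, hBS]
    have h1 := inner_Phi_V I0 (ind1_abs (lt f D)) f (w := J' (B t⁻¹ (m i t ξ))) (v := J' (B t⁻¹ (m i t ξ')))
      (fun y => hJV f _ y) (fun y => hJV f _ y)
    rw [ind1_lt] at h1
    exact h1
  have hdiag : ∀ (f : F) (D : Set F) (x : U),
      (inner ℂ (P (lt f D) (u f x)) (u f x) : ℂ) = inner ℂ (P D x) x := by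
    intro f D x
    obtain ⟨ν, hν⟩ := hb x
    have h1 := hP (lt f D) (u f x) (u f x)
    have h2 := hP D x x
    have h3 : Tendsto (fun i => q i (lt f D) (ι (u f x)) (ι (u f x)) - q i D (ι x) (ι x)) 𝓤 (𝓝 0) := by
      refine Tendsto.mono_left ?_ h𝓤
      rw [Metric.tendsto_atTop]
      intro ε hε
      obtain ⟨Q, δ, hδ, hQ⟩ := th_R (W := Lv Y L0) a E hB hν f (ε₁ := ε / 2) (by positivity)
      obtain ⟨n, hn⟩ := exists_nat_one_div_lt hδ
      refine ⟨(Q, n), fun i hi => ?_⟩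
      rw [dist_zero_right]
      refine lt_of_le_of_lt ?_ (half_lt_self hε)
      simp only [hqdef]
      rw [hι, hqL]
      refine hQ (S i) (m i) (hm3 i) (hm4 i) (fun h hh x S' => ?_) J' _ hJ1 (norm_Phi_le I0 (ind1_abs D)) (hqp i D)
      refine (hm5 i h (hi.1 hh) x S').trans ?_
      refine mul_le_mul_of_nonneg_right (pow_le_pow_left₀ (by positivity) ?_ 2) (sq_nonneg _)
      refine le_trans ?_ hn.le
      have h4 : (n : ℝ) ≤ (i.2 : ℝ) := Nat.cast_le.2 hi.2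
      exact one_div_le_one_div_of_le (by positivity) (by linarith)
    have h4 := tendsto_nhds_unique (h1.sub h2) h3
    exact sub_eq_zero.1 h4
  refine ⟨⟨P, hsymm, fun D x => ?_, fun x => ?_, fun D D' hD x => ?_, fun f D x => ?_⟩⟩
  · rw [← hsymm]
    have h1 := (Complex.continuous_re.tendsto _).comp (hP D x x)
    refine ge_of_tendsto h1 (Filter.Eventually.of_forall fun i => ?_)
    show 0 ≤ (q i D (ι x) (ι x)).re
    simp only [hqdef]
    unfold qg
    rw [Complex.re_sum]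
    exact Finset.sum_nonneg fun t _ => Phi_nonneg I0 D _
  · refine ext_inner_right ℂ fun y => ?_
    refine tendsto_nhds_unique (hP Set.univ x y) ?_
    have h1 : ∀ i, q i Set.univ (ι x) (ι y) = inner ℂ x y := by
      intro i
      -- the form is the polarization of the norm
      have h2 : ∀ ξ ξ' : K, q i Set.univ ξ ξ' = ∑ t ∈ S i, inner ℂ (m i t ξ) (m i t ξ') := by
        intro ξ ξ'
        simp only [hqdef]
        unfold qg
        refine Finset.sum_congr rfl fun t _ => ?_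
        rw [Phi_univ, hJi, LinearIsometryEquiv.inner_map_map]
      let Tm : K →L[ℂ] K := ∑ t ∈ S i, (ContinuousLinearMap.adjoint (m i t)).comp (m i t)
      have h3 : ∀ ξ ξ' : K, (inner ℂ (Tm ξ) ξ' : ℂ) = ∑ t ∈ S i, inner ℂ (m i t ξ) (m i t ξ') := by
        intro ξ ξ'
        simp only [Tm, sum_apply, ContinuousLinearMap.comp_apply, sum_inner,
          ContinuousLinearMap.adjoint_inner_left]
      have h4 : (Tm : K →ₗ[ℂ] K) = LinearMap.id := by
        rw [← ext_inner_map]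
        intro ξ
        show (inner ℂ (Tm ξ) ξ : ℂ) = inner ℂ ξ ξ
        rw [h3]
        have h5 : ∀ z : K, (inner ℂ z z : ℂ) = ((‖z‖ ^ 2 : ℝ) : ℂ) := fun z => by
          rw [inner_self_eq_norm_sq_to_K]
          push_cast
          rfl
        rw [Finset.sum_congr rfl fun t _ => h5 _, h5, ← Complex.ofReal_sum, hm4]
      have h5 : Tm (ι x) = ι x := congrArg (fun T : K →ₗ[ℂ] K => T (ι x)) h4
      rw [h2, ← h3, h5, ι.inner_map_map]
    simp only [h1]
    exact tendsto_const_nhds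
  · refine ext_inner_right ℂ fun y => ?_
    refine tendsto_nhds_unique (hP (D ∪ D') x y) ?_
    rw [inner_add_left]
    refine ((hP D x y).add (hP D' x y)).congr fun i => ?_
    simp only [hqdef]
    unfold qg
    rw [← Finset.sum_add_distrib]
    refine Finset.sum_congr rfl fun t _ => ?_
    rw [Phi_union I0 hD, inner_add_right]
  · -- both sides have the same diagonal
    let T1 : U →L[ℂ] U := ((u f⁻¹).toContinuousLinearEquiv : U →L[ℂ] U).comp
      ((P (lt f D)).comp ((u f).toContinuousLinearEquiv : U →L[ℂ] U))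
    have huf : ∀ y, u f (u f⁻¹ y) = y := fun y => by
      show (u f * u f⁻¹) y = y
      rw [← map_mul, mul_inv_cancel, map_one]
      rfl
    have huf' : ∀ y, u f⁻¹ (u f y) = y := fun y => by
      show (u f⁻¹ * u f) y = y
      rw [← map_mul, inv_mul_cancel, map_one]
      rfl
    have h1 : (T1 : U →ₗ[ℂ] U) = (P D : U →ₗ[ℂ] U) := by
      rw [← ext_inner_map]
      intro z
      show (inner ℂ (u f⁻¹ (P (lt f D) (u f z))) z : ℂ) = inner ℂ (P D z) z
      rw [← hdiag f D z, ← LinearIsometryEquiv.inner_map_map (u f) (u f⁻¹ (P (lt f D) (u f z))) z, huf]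
    have h2 : T1 x = P D x := congrArg (fun T : U →ₗ[ℂ] U => T x) h1
    rw [← h2]
    exact huf _

end Pool.Agent.Helper55.FP
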