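import Pool.Agent.Helper55.FP.Mf
import Pool.Agent.Helper55.FP.Theta

/-!
# Project FP (MP_0f6f3f_an): the transfer over the boundary data

`covP_beta`: for a tempered module `ρ` (`Tmp ρ`) the representation `beta B ρ` restricted to `F` carries a covariant measure. `xmK`: the shifts and projections of `Kt B ρ`. `apxK`: the multipliers.
-/

set_option autoImplicit false
set_option linter.unusedSectionVars false
set_option linter.unusedVariables false

open Filter Topology MeasureTheory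

namespace Pool.Agent.Helper55.FP

open Pool.Agent.Helper84.NI Pool.Agent.Helper84.GVN Pool.Agent.Helper84.FR
open Pool.Agent.Helper35.FP

variable {𝔾 𝕊 : Type} [Group 𝔾] [TopologicalSpace 𝔾] [IsTopologicalGroup 𝔾] [Group 𝕊] [TopologicalSpace 𝕊] [IsTopologicalGroup 𝕊]
  {𝕂 : Subgroup 𝕊} {geo : Geo 𝔾 𝕊 𝕂} {G S' H U : Type} [Group G] [Group S'] [TopologicalSpace S'] [IsTopologicalGroup S']
  [NormedAddCommGroup H] [InnerProductSpace ℂ H] [CompleteSpace H]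
  [NormedAddCommGroup U] [InnerProductSpace ℂ U] [CompleteSpace U]
variable {L : Type} [NormedAddCommGroup L] [InnerProductSpace ℂ L]
variable {F X Λ L0 Y : Type} [Group F] [MulAction F X] [MeasurableSpace X]
    [MeasurableConstSMul F X] [Group Λ] [Countable Λ] [NormedAddCommGroup L0] [InnerProductSpace ℂ L0] [CompleteSpace L0]
variable (B : BD geo G S' H U) (σ : Src B F X Λ L0 Y)

/-- The system on `H`. -/
noncomputable def xmH : XM F X H where
  S := B.V.comp σ.j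
  px := σ.p
  py := σ.p
  comm A D hA hD ξ := σ.p.p_comm hA hD ξ
  Sx f D hD ξ := σ.p_V f D hD ξ
  Sy f D hD ξ := σ.p_V f D hD ξ

theorem hom_W (k : G) : (xmH B σ).Hom (xmH B σ) ((B.W k).toContinuousLinearEquiv : H →L[ℂ] H) :=
  ⟨fun f ξ => (B.VW (σ.j f) k ξ).symm, fun D hD ξ => σ.p_W k D hD ξ, fun D hD ξ => σ.p_W k D hD ξ⟩

variable {B}

/-- The unitary `1 - 2 p D`. -/
noncomputable def cD {D : Set X} (hD : MeasurableSet D) : H ≃ₗᵢ[ℂ] H := (σ.p_CC D hD).choose.1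

theorem cD_apply {D : Set X} (hD : MeasurableSet D) (x : H) : cD σ hD x = x - (2 : ℂ) • σ.p.p D x :=
  (σ.p_CC D hD).choose_spec.2 x

theorem cphi_cD {D : Set X} (hD : MeasurableSet D) : B.CPhi (cD σ hD) := B.cphi_CC (σ.p_CC D hD).choose_spec.1

variable (ρ : Rp 𝕊 L)

open Classical in
/-- The projections of `Kt B ρ`. -/
noncomputable def pK (D : Set X) : Kt B ρ →L[ℂ] Kt B ρ :=
  if hD : MeasurableSet D then (1 / 2 : ℂ) • (ContinuousLinearMap.id ℂ (Kt B ρ) -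
    ((lift B ρ (cD σ hD)).toContinuousLinearEquiv : Kt B ρ →L[ℂ] Kt B ρ)) else 0

theorem pK_eq {D : Set X} (hD : MeasurableSet D) (y : Kt B ρ) :
    pK σ ρ D y = (1 / 2 : ℂ) • (y - lift B ρ (cD σ hD) y) := by
  unfold pK
  rw [dif_pos hD]
  rfl

theorem pK_tau {D : Set X} (hD : MeasurableSet D) (f : Sec geo ρ) (x : H) :
    pK σ ρ D (tau B f x) = tau B f (σ.p.p D x) := by
  rw [pK_eq σ ρ hD, lift_tau B ρ (cphi_cD σ hD), cD_apply, map_sub, map_smul, sub_sub_cancel, smul_smul]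
  norm_num

theorem pK_symm {D : Set X} (hD : MeasurableSet D) (y y' : Kt B ρ) :
    (inner ℂ (pK σ ρ D y) y' : ℂ) = inner ℂ y (pK σ ρ D y') := by
  have hp : ∀ x, σ.p.p D (σ.p.p D x) = σ.p.p D x := fun x => by
    rw [σ.p.inter D D hD hD, Set.inter_self]
  have h1 : ∀ y, lift B ρ (cD σ hD) (lift B ρ (cD σ hD) y) = y := by
    intro y
    let T : Kt B ρ →L[ℂ] Kt B ρ := ((lift B ρ (cD σ hD)).toContinuousLinearEquiv : Kt B ρ →L[ℂ] Kt B ρ)
    have h2 : T.comp T = ContinuousLinearMap.id ℂ (Kt B ρ) := by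
      refine ext_tot (tot_tau B ρ) fun q => ?_
      show lift B ρ (cD σ hD) (lift B ρ (cD σ hD) (tau B q.1 q.2)) = tau B q.1 q.2
      rw [lift_tau B ρ (cphi_cD σ hD), lift_tau B ρ (cphi_cD σ hD), cD_apply, cD_apply]
      congr 1
      rw [map_sub, map_smul, hp]
      module
    exact DFunLike.congr_fun h2 y
  rw [pK_eq σ ρ hD, pK_eq σ ρ hD, inner_smul_left, inner_smul_right, inner_sub_left, inner_sub_right]
  have h2 : (inner ℂ (lift B ρ (cD σ hD) y) y' : ℂ) = inner ℂ y (lift B ρ (cD σ hD) y') := by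
    rw [← LinearIsometryEquiv.inner_map_map (lift B ρ (cD σ hD)) (lift B ρ (cD σ hD) y) y', h1]
  rw [h2]
  congr 1
  rw [map_div₀, map_one, map_ofNat]

theorem pK_inter {A D : Set X} (hA : MeasurableSet A) (hD : MeasurableSet D) (y : Kt B ρ) :
    pK σ ρ A (pK σ ρ D y) = pK σ ρ (A ∩ D) y := by
  have h : (pK σ ρ A).comp (pK σ ρ D) = pK σ ρ (A ∩ D) := by
    refine ext_tot (tot_tau B ρ) fun q => ?_
    rw [ContinuousLinearMap.comp_apply, pK_tau σ ρ hD, pK_tau σ ρ hA, pK_tau σ ρ (hA.inter hD), σ.p.inter A D hA hD]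
  exact DFunLike.congr_fun h y

theorem pK_empty (y : Kt B ρ) : pK σ ρ ∅ y = 0 := by
  have h : pK σ ρ (∅ : Set X) = (0 : Kt B ρ →L[ℂ] Kt B ρ) := by
    refine ext_tot (tot_tau B ρ) fun q => ?_
    rw [pK_tau σ ρ MeasurableSet.empty, σ.p.p_empty, map_zero]
    rfl
  rw [h]
  rfl

/-- The projections of `Kt B ρ` are countably additive. -/
theorem pK_sum (I : Type) [Countable I] (c : X → I) (hc : ∀ i, MeasurableSet (c ⁻¹' {i})) (y : Kt B ρ) :
    HasSum (fun i => pK σ ρ (c ⁻¹' {i}) y) y := by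
  classical
  -- the partial sums are contractions
  have hidem : ∀ i y, pK σ ρ (c ⁻¹' {i}) (pK σ ρ (c ⁻¹' {i}) y) = pK σ ρ (c ⁻¹' {i}) y := fun i y => by
    rw [pK_inter σ ρ (hc i) (hc i), Set.inter_self]
  have horth : ∀ i i', i ≠ i' → ∀ y, pK σ ρ (c ⁻¹' {i}) (pK σ ρ (c ⁻¹' {i'}) y) = 0 := fun i i' h y => by
    rw [pK_inter σ ρ (hc i) (hc i')]
    have : c ⁻¹' {i} ∩ c ⁻¹' {i'} = ∅ := by
      ext x
      simp only [Set.mem_inter_iff, Set.mem_preimage, Set.mem_singleton_iff, Set.mem_empty_iff_false, iff_false,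
        not_and]
      intro h1 h2
      exact h (h1.symm.trans h2)
    rw [this, pK_empty]
  have hbd : ∀ (s : Finset I) (y : Kt B ρ), ‖∑ i ∈ s, pK σ ρ (c ⁻¹' {i}) y‖ ≤ ‖y‖ := by
    intro s y
    set w := ∑ i ∈ s, pK σ ρ (c ⁻¹' {i}) y with hw
    have h1 : ∀ i ∈ s, pK σ ρ (c ⁻¹' {i}) w = pK σ ρ (c ⁻¹' {i}) y := by
      intro i hi
      rw [hw, map_sum, Finset.sum_eq_single i]
      · exact hidem i y
      · intro j _ hj
        exact horth i j (Ne.symm hj) y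
      · intro h
        exact absurd hi h
    have h2 : (inner ℂ w w : ℂ) = inner ℂ y w := by
      conv_lhs => rw [hw]
      rw [sum_inner]
      have : ∀ i ∈ s, (inner ℂ (pK σ ρ (c ⁻¹' {i}) y) w : ℂ) = inner ℂ y (pK σ ρ (c ⁻¹' {i}) y) := fun i hi => by
        rw [pK_symm σ ρ (hc i), h1 i hi]
      rw [Finset.sum_congr rfl this, ← inner_sum]
    have h3 : ‖w‖ ^ 2 ≤ ‖y‖ * ‖w‖ := by
      have h4 : (inner ℂ w w : ℂ) = ((‖w‖ ^ 2 : ℝ) : ℂ) := by
        rw [inner_self_eq_norm_sq_to_K]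
        push_cast
        rfl
      have h5 := norm_inner_le_norm (𝕜 := ℂ) y w
      rw [← h2, h4, Complex.norm_real, Real.norm_of_nonneg (sq_nonneg _)] at h5
      exact h5
    rcases (norm_nonneg w).eq_or_lt with h0 | h0
    · rw [← h0]
      exact norm_nonneg _
    · rw [sq] at h3
      exact le_of_mul_le_mul_right h3 h0
  -- convergence on the span of the total vectors
  have hspan : ∀ z ∈ Submodule.span ℂ (Set.range fun q : Sec geo ρ × H => tau B q.1 q.2),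
      HasSum (fun i => pK σ ρ (c ⁻¹' {i}) z) z := by
    intro z hz
    induction hz using Submodule.span_induction with
    | mem z hz =>
      obtain ⟨q, rfl⟩ := hz
      have h1 := (tau B q.1).hasSum (σ.p.sum I c hc q.2)
      convert h1 using 1
      funext i
      exact pK_tau σ ρ (hc i) q.1 q.2
    | zero =>
      simp only [map_zero]
      exact hasSum_zero
    | add a b _ _ ha hb =>
      simp only [map_add]
      exact ha.add hb
    | smul t a _ ha =>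
      simp only [map_smul]
      exact ha.const_smul t
  have hdense : (Submodule.span ℂ (Set.range fun q : Sec geo ρ × H => tau B q.1 q.2)).topologicalClosure = ⊤ := by
    rw [Submodule.topologicalClosure_eq_top_iff, Submodule.eq_bot_iff]
    intro z hz
    refine tot_tau B ρ z fun q => ?_
    exact (Submodule.mem_orthogonal _ _).1 hz _ (Submodule.subset_span ⟨q, rfl⟩)
  rw [HasSum, SummationFilter.unconditional_filter, Metric.tendsto_atTop]
  intro ε hε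
  have hy : y ∈ (Submodule.span ℂ (Set.range fun q : Sec geo ρ × H => tau B q.1 q.2)).topologicalClosure := by
    rw [hdense]
    trivial
  have hy' : y ∈ closure ((Submodule.span ℂ (Set.range fun q : Sec geo ρ × H => tau B q.1 q.2) :
    Submodule ℂ (Kt B ρ)) : Set (Kt B ρ)) := hy
  obtain ⟨z, hz, hyz⟩ := Metric.mem_closure_iff.1 hy' (ε / 3) (by positivity)
  have h1 := hspan z hz
  rw [HasSum, SummationFilter.unconditional_filter, Metric.tendsto_atTop] at h1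
  obtain ⟨N, hN⟩ := h1 (ε / 3) (by positivity)
  refine ⟨N, fun s hs => ?_⟩
  have h2 := hN s hs
  rw [dist_eq_norm] at h2 hyz ⊢
  have h3 : ∑ i ∈ s, pK σ ρ (c ⁻¹' {i}) y - y = (∑ i ∈ s, pK σ ρ (c ⁻¹' {i}) (y - z)) +
      (∑ i ∈ s, pK σ ρ (c ⁻¹' {i}) z - z) - (y - z) := by
    simp only [map_sub, Finset.sum_sub_distrib]
    abel
  rw [h3]
  have h4 := hbd s (y - z)
  calc _ ≤ ‖∑ i ∈ s, pK σ ρ (c ⁻¹' {i}) (y - z)‖ + ‖∑ i ∈ s, pK σ ρ (c ⁻¹' {i}) z - z‖ + ‖y - z‖ :=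
        (norm_sub_le _ _).trans (add_le_add (norm_add_le _ _) le_rfl)
    _ < ε := by linarith

/-- The projection valued measure of `Kt B ρ`. -/
noncomputable def pvK : PV X (Kt B ρ) where
  p := pK σ ρ
  univ ξ := by
    have h : pK σ ρ (Set.univ : Set X) = ContinuousLinearMap.id ℂ (Kt B ρ) := by
      refine ext_tot (tot_tau B ρ) fun q => ?_
      rw [pK_tau σ ρ MeasurableSet.univ, σ.p.univ]
      rfl
    rw [h]
    rfl
  inter A D hA hD ξ := pK_inter σ ρ hA hD ξ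
  symm A hA ξ η := pK_symm σ ρ hA ξ η
  sum I _ c hc ξ := pK_sum σ ρ I c hc ξ

/-- The shifts of `Kt B ρ`. -/
noncomputable def SK : F →* (Kt B ρ ≃ₗᵢ[ℂ] Kt B ρ) where
  toFun f := lift B ρ (B.V (σ.j f))
  map_one' := by
    ext y
    let T : Kt B ρ →L[ℂ] Kt B ρ := ((lift B ρ (B.V (σ.j 1))).toContinuousLinearEquiv : Kt B ρ →L[ℂ] Kt B ρ)
    have h : T = ContinuousLinearMap.id ℂ (Kt B ρ) := by
      refine ext_tot (tot_tau B ρ) fun q => ?_
      show lift B ρ (B.V (σ.j 1)) (tau B q.1 q.2) = tau B q.1 q.2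
      rw [lift_tau B ρ (B.cphi_V _), map_one, map_one]
      rfl
    exact DFunLike.congr_fun h y
  map_mul' f f' := by
    ext y
    let T : F → (Kt B ρ →L[ℂ] Kt B ρ) := fun f =>
      ((lift B ρ (B.V (σ.j f))).toContinuousLinearEquiv : Kt B ρ →L[ℂ] Kt B ρ)
    have h : T (f * f') = (T f).comp (T f') := by
      refine ext_tot (tot_tau B ρ) fun q => ?_
      show lift B ρ (B.V (σ.j (f * f'))) (tau B q.1 q.2) =
        lift B ρ (B.V (σ.j f)) (lift B ρ (B.V (σ.j f')) (tau B q.1 q.2))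
      rw [lift_tau B ρ (B.cphi_V _), lift_tau B ρ (B.cphi_V _), lift_tau B ρ (B.cphi_V _), map_mul, map_mul]
      rfl
    exact DFunLike.congr_fun h y

theorem SK_apply (f : F) (y : Kt B ρ) : SK σ ρ f y = lift B ρ (B.V (σ.j f)) y := rfl

theorem SK_pK (f : F) {D : Set X} (hD : MeasurableSet D) (y : Kt B ρ) :
    SK σ ρ f (pK σ ρ D y) = pK σ ρ ((fun x => f⁻¹ • x) ⁻¹' D) (SK σ ρ f y) := by
  have hD' : MeasurableSet ((fun x => f⁻¹ • x) ⁻¹' D) := measurable_const_smul f⁻¹ hD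
  let T : Kt B ρ →L[ℂ] Kt B ρ := ((SK σ ρ f).toContinuousLinearEquiv : Kt B ρ →L[ℂ] Kt B ρ)
  have h : T.comp (pK σ ρ D) = (pK σ ρ ((fun x => f⁻¹ • x) ⁻¹' D)).comp T := by
    refine ext_tot (tot_tau B ρ) fun q => ?_
    show SK σ ρ f (pK σ ρ D (tau B q.1 q.2)) = pK σ ρ _ (SK σ ρ f (tau B q.1 q.2))
    rw [pK_tau σ ρ hD, SK_apply, SK_apply, lift_tau B ρ (B.cphi_V _), lift_tau B ρ (B.cphi_V _),
      pK_tau σ ρ hD', σ.p_V f D hD]
  exact DFunLike.congr_fun h y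

/-- The system on `Kt B ρ`. -/
noncomputable def xmK : XM F X (Kt B ρ) where
  S := SK σ ρ
  px := pvK σ ρ
  py := pvK σ ρ
  comm A D hA hD ξ := (pvK σ ρ).p_comm hA hD ξ
  Sx f D hD ξ := SK_pK σ ρ f hD ξ
  Sy f D hD ξ := SK_pK σ ρ f hD ξ

theorem tau_hom (f : Sec geo ρ) : (xmH B σ).Hom (xmK σ ρ) (tau B f) :=
  ⟨fun h ξ => (lift_tau B ρ (B.cphi_V _) f ξ).symm, fun D hD ξ => (pK_tau σ ρ hD f ξ).symm,
    fun D hD ξ => (pK_tau σ ρ hD f ξ).symm⟩

theorem hom_WK (k : G) : (xmK σ ρ).Hom (xmK σ ρ) ((WK B ρ k).toContinuousLinearEquiv : Kt B ρ →L[ℂ] Kt B ρ) := by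
  let T : Kt B ρ →L[ℂ] Kt B ρ := ((WK B ρ k).toContinuousLinearEquiv : Kt B ρ →L[ℂ] Kt B ρ)
  have hp : ∀ D : Set X, MeasurableSet D → ∀ ξ, T (pK σ ρ D ξ) = pK σ ρ D (T ξ) := by
    intro D hD ξ
    have h : T.comp (pK σ ρ D) = (pK σ ρ D).comp T := by
      refine ext_tot (tot_tau B ρ) fun q => ?_
      show WK B ρ k (pK σ ρ D (tau B q.1 q.2)) = pK σ ρ D (WK B ρ k (tau B q.1 q.2))
      rw [pK_tau σ ρ hD, WK_tau, WK_tau, pK_tau σ ρ hD, σ.p_W k D hD]
    exact DFunLike.congr_fun h ξ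
  refine ⟨fun f ξ => ?_, hp, hp⟩
  let R : Kt B ρ →L[ℂ] Kt B ρ := ((SK σ ρ f).toContinuousLinearEquiv : Kt B ρ →L[ℂ] Kt B ρ)
  have h : T.comp R = R.comp T := by
    refine ext_tot (tot_tau B ρ) fun q => ?_
    show WK B ρ k (SK σ ρ f (tau B q.1 q.2)) = SK σ ρ f (WK B ρ k (tau B q.1 q.2))
    rw [SK_apply, SK_apply, lift_tau B ρ (B.cphi_V _), WK_tau, WK_tau, lift_tau B ρ (B.cphi_V _), B.VW]
  exact DFunLike.congr_fun h ξ

theorem mulF_hom (o : Fd geo ρ ρ) : (xmK σ ρ).Hom (xmK σ ρ) (mulF B o) := by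
  have hp : ∀ D : Set X, MeasurableSet D → ∀ ξ, mulF B o (pK σ ρ D ξ) = pK σ ρ D (mulF B o ξ) := by
    intro D hD ξ
    rw [pK_eq σ ρ hD, pK_eq σ ρ hD, map_smul, map_sub, mulF_lift B o (cphi_cD σ hD)]
  exact ⟨fun f ξ => mulF_lift B o (B.cphi_V _) ξ, hp, hp⟩

/-- The multipliers. -/
theorem apxK (tm : Tmp ρ) (s : Sc geo) (am : Amn B) : ApxM (xmK σ ρ) (1 : G →* (Kt B ρ ≃ₗᵢ[ℂ] Kt B ρ)) (WK B ρ) := by
  classical
  intro Q ε hε
  obtain ⟨S, p, p1, p2, p3, p4, p5, p6⟩ := am Q ε hε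
  have hle : ∀ t g, p t g ≤ 1 := by
    intro t g
    by_cases ht : t ∈ S
    · have h1 := Finset.single_le_sum (f := fun t => p t g ^ 2) (fun i _ => sq_nonneg _) ht
      rw [p4 g] at h1
      exact (sq_le_one_iff₀ (p2 t g)).1 h1
    · rw [p3 t ht g]
      exact zero_le_one
  have hAd : ∀ t, Ad geo (p t) := fun t => ⟨p1 t, ⟨1, zero_le_one, fun g => by
    rw [abs_of_nonneg (p2 t g)]
    exact hle t g⟩, fun g q hq => p5 t g q hq⟩
  refine ⟨S, fun t => mulF B (mfld tm s (hAd t)), fun t => mulF_hom σ ρ _, fun t g x => rfl, fun t ht => ?_,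
    fun x => ?_, fun h hh x S' => ?_⟩
  · refine ext_tot (tot_tau B ρ) fun q => ?_
    rw [mulF_tau]
    have h1 : (mfld tm s (hAd t)).ap q.1 = 0 := by
      apply Subtype.ext
      funext g
      show tm.m (fun h => p t (g * s.s h)) ((q.1 : 𝔾 → L) g) = 0
      have h2 : (fun h => p t (g * s.s h)) = fun _ => 0 := funext fun h => p3 t ht _
      rw [h2, tm.zero]
    rw [h1]
    show (kt B ρ).τ 0 q.2 = 0
    rw [map_zero]
    rfl
  · have h1 := sum_mfld B tm s S hAd (C := 1) (fun g => by rw [p4 g, one_pow]) x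
    rw [one_pow, one_mul] at h1
    exact h1
  · -- the errors are multipliers
    let e : G → 𝔾 → ℝ := fun t g => p t g - p (h⁻¹ * t) ((B.ir h)⁻¹ * g)
    have hAe : ∀ t, Ad geo (e t) := by
      intro t
      refine ⟨(p1 t).sub ((p1 _).comp (continuous_const_mul _)), ⟨1, zero_le_one, fun g => ?_⟩, fun g q hq => ?_⟩
      · rw [abs_le]
        have h1 := p2 t g
        have h2 := p2 (h⁻¹ * t) ((B.ir h)⁻¹ * g)
        have h3 := hle t g
        have h4 := hle (h⁻¹ * t) ((B.ir h)⁻¹ * g)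
        constructor
        · show -1 ≤ p t g - p (h⁻¹ * t) ((B.ir h)⁻¹ * g)
          linarith
        · show p t g - p (h⁻¹ * t) ((B.ir h)⁻¹ * g) ≤ 1
          linarith
      · show p t (g * q) - p (h⁻¹ * t) ((B.ir h)⁻¹ * (g * q)) = _
        rw [p5 t g q hq, ← mul_assoc, p5 _ _ q hq]
    have h1 : ∀ t, mulF B (mfld tm s (hAd t)) (WK B ρ h x) - WK B ρ h (mulF B (mfld tm s (hAd (h⁻¹ * t))) x) =
        mulF B (mfld tm s (hAe t)) (WK B ρ h x) := by
      intro t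
      rw [WK_mulF]
      have h2 := mulF_add B (mfld tm s (hAe t)) ((mfld tm s (hAd (h⁻¹ * t))).act B h) (mfld tm s (hAd t))
        (fun g w => by
          show tm.m (fun h' => p t (g * s.s h')) w = tm.m (fun h' => e t (g * s.s h')) w +
            tm.m (fun h' => p (h⁻¹ * t) ((B.ir h)⁻¹ * g * s.s h')) w
          rw [← tm.add _ _ ((hAe t).bc s g) ((hAd (h⁻¹ * t)).bc s ((B.ir h)⁻¹ * g))]
          congr 2
          funext h'
          show _ = p t (g * s.s h') - p (h⁻¹ * t) ((B.ir h)⁻¹ * (g * s.s h')) + _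
          rw [mul_assoc (B.ir h)⁻¹ g]
          ring) (WK B ρ h x)
      rw [h2, add_sub_cancel_right]
    have h2 := sum_mfld_le B tm s S' hAe (C := ε) (fun g => by
      have h3 := p6 h hh ((B.ir h)⁻¹ * g) S'
      rw [mul_inv_cancel_left] at h3
      exact h3) (WK B ρ h x)
    rw [LinearIsometryEquiv.norm_map] at h2
    refine le_trans (le_of_eq ?_) h2
    exact Finset.sum_congr rfl fun t _ => by rw [h1 t]

/-- **The transfer.** -/
theorem covP_beta (tm : Tmp ρ) (s : Sc geo) (am : Amn B) : Nonempty (CovP (U := MM B ρ) ((beta B ρ).comp σ.j)) := by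
  classical
  -- the isometry into a multiple of the induced space
  let sO : F ⊕ {D : Set X // MeasurableSet D} → (L0 →L[ℂ] L0) :=
    Sum.elim (fun f => ((σ.I0.V f).toContinuousLinearEquiv : L0 →L[ℂ] L0)) (fun D => σ.I0.P0.p D.1)
  let k0 : F ⊕ {D : Set X // MeasurableSet D} → (H →L[ℂ] H) :=
    Sum.elim (fun f => ((B.V (σ.j f)).toContinuousLinearEquiv : H →L[ℂ] H)) (fun D => σ.p.p D.1)
  let kO : F ⊕ {D : Set X // MeasurableSet D} → (Kt B ρ →L[ℂ] Kt B ρ) :=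
    Sum.elim (fun f => ((SK σ ρ f).toContinuousLinearEquiv : Kt B ρ →L[ℂ] Kt B ρ)) (fun D => pK σ ρ D.1)
  let ιO : F ⊕ {D : Set X // MeasurableSet D} → F ⊕ {D : Set X // MeasurableSet D} :=
    Sum.elim (fun f => Sum.inl f⁻¹) Sum.inr
  obtain ⟨Y', J, hJ⟩ := span_J sO k0 kO ιO
    (by
      rintro (f | D) x y
      · exact (CRep.ofU σ.I0.V).adj f x y
      · exact σ.I0.P0.symm D.1 D.2 x y)
    (by
      rintro (f | D) x y
      · exact (CRep.ofU (B.V.comp σ.j)).adj f x y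
      · exact σ.p.symm D.1 D.2 x y)
    (by
      rintro (f | D) x y
      · exact (CRep.ofU (SK σ ρ)).adj f x y
      · exact pK_symm σ ρ D.2 x y)
    σ.J
    (by
      rintro (f | D) x y
      · exact σ.JV f x y
      · exact σ.JP D.1 D.2 x y)
    (fun ξ hξ => by
      refine tot_tau B ρ ξ fun q => ?_
      have h1 := hξ (tau B q.1) (by
        rintro (f | D) x
        · exact (tau_hom σ ρ q.1).S f x
        · exact (tau_hom σ ρ q.1).y D.1 D.2 x) q.2
      rw [← inner_conj_symm, h1, map_zero])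
  -- the isometry of `MM`
  let ι : MM B ρ →ₗᵢ[ℂ] Kt B ρ :=
    { toFun := fun T => (T : H →L[ℂ] Kt B ρ) σ.η
      map_add' := fun _ _ => rfl
      map_smul' := fun _ _ => rfl
      norm_map' := fun T => by
        show ‖(T : H →L[ℂ] Kt B ρ) σ.η‖ = ‖T‖
        rw [norm_MM, σ.η1, mul_one] }
  have hι : ∀ T : MM B ρ, ι T = (T : H →L[ℂ] Kt B ρ) σ.η := fun _ => rfl
  have hUH : UHom (xmH B σ) (CRep.ext B.W σ.E.conj) := uhom_ext σ.E.conj (hom_W B σ)
  have hUK : UHom (xmK σ ρ) (CRep.ext (WK B ρ) σ.E.conj) := uhom_ext σ.E.conj (hom_WK σ ρ)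
  have hpX : ∀ (T : MM B ρ) (D : Set X), MeasurableSet D → ∀ x,
      (T : H →L[ℂ] Kt B ρ) (σ.p.p D x) = pK σ ρ D ((T : H →L[ℂ] Kt B ρ) x) := by
    intro T D hD x
    have h1 := T.2.2.1 (σ.p_CC D hD).choose (σ.p_CC D hD).choose_spec.1 x
    have h2 : (σ.p_CC D hD).choose.1 x = x - (2 : ℂ) • σ.p.p D x := cD_apply σ hD x
    rw [h2, map_sub, map_smul] at h1
    have h3 : (2 : ℂ) • (T : H →L[ℂ] Kt B ρ) (σ.p.p D x) = (T : H →L[ℂ] Kt B ρ) x -
        lift B ρ (cD σ hD) ((T : H →L[ℂ] Kt B ρ) x) := by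
      have h4 : lift B ρ (cD σ hD) ((T : H →L[ℂ] Kt B ρ) x) =
        lift B ρ (σ.p_CC D hD).choose.1 ((T : H →L[ℂ] Kt B ρ) x) := rfl
      rw [h4, ← h1]
      abel
    rw [pK_eq σ ρ hD, ← h3, smul_smul]
    norm_num
  have key := exists_covP (U := MM B ρ) σ.a σ.E (M := xmK σ ρ) (B := WK B ρ) (hom_WK σ ρ) (apxK σ ρ tm s am) σ.I0 J
    (fun f x y => hJ (Sum.inl f) x y) (fun D hD x y => hJ (Sum.inr ⟨D, hD⟩) x y)
  refine key ((beta B ρ).comp σ.j) ι ?_ ?_
  · intro f T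
    rw [hι, hι]
    have h1 : ((beta B ρ (σ.j f) T : MM B ρ) : H →L[ℂ] Kt B ρ) σ.η =
        lift B ρ (B.V (σ.j f)) ((T : H →L[ℂ] Kt B ρ) (B.V (σ.j f)⁻¹ σ.η)) := beta_apply (σ.j f) T σ.η
    have h2 : opR (xmK σ ρ) σ.a (CRep.ext (WK B ρ) σ.E.conj) f ((T : H →L[ℂ] Kt B ρ) σ.η) =
        (T : H →L[ℂ] Kt B ρ) (tw σ.p (CRep.ext B.W σ.E.conj) (σ.a.a f) σ.η) := by
      have h3 := tw_nat σ.p (CRep.ext B.W σ.E.conj) hUH.py (σ.a.meas f) (P' := pvK σ ρ)
        (U' := CRep.ext (WK B ρ) σ.E.conj) hUK.py (T := (T : H →L[ℂ] Kt B ρ)) (fun D hD x => hpX T D hD x)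
        (fun l x => map_ext (T := (T : H →L[ℂ] Kt B ρ)) (fun k x => T.2.1 k x) σ.E.conj l x) σ.η
      exact h3.symm
    have h4 : B.V (σ.j f)⁻¹ σ.η = tw σ.p (CRep.ext B.W σ.E.conj) (σ.a.a f) σ.η := by
      conv_lhs => rw [← σ.fix f]
      show (B.V (σ.j f)⁻¹ * B.V (σ.j f)) _ = _
      rw [← map_mul, inv_mul_cancel, map_one]
      rfl
    show ((beta B ρ (σ.j f) T : MM B ρ) : H →L[ℂ] Kt B ρ) σ.η = _
    rw [h1, h2, h4]
    rfl
  · intro T
    refine ⟨ENNReal.ofReal (‖T‖ ^ 2) • σ.ν, fun D hD => ?_⟩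
    rw [hι]
    have h1 := Bdd.map (T := (T : H →L[ℂ] Kt B ρ)) (A' := WK B ρ) (fun k x => T.2.1 k x) (σ.bdd D hD)
    have h2 : ((xmK σ ρ).py.p D ((T : H →L[ℂ] Kt B ρ) σ.η)) = (T : H →L[ℂ] Kt B ρ) (σ.p.p D σ.η) := (hpX T D hD _).symm
    rw [h2]
    have h3 : Real.sqrt ((ENNReal.ofReal (‖T‖ ^ 2) • σ.ν) D).toReal = ‖T‖ * Real.sqrt (σ.ν D).toReal := by
      rw [Measure.smul_apply, smul_eq_mul, ENNReal.toReal_mul, ENNReal.toReal_ofReal (sq_nonneg _),
        Real.sqrt_mul (sq_nonneg _)]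
      congr 1
      exact Real.sqrt_sq (norm_nonneg T)
    rw [h3]
    exact h1

end Pool.Agent.Helper55.FP
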